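import Pool.Agent.K9h63.RGO.Stm

/-!
# Random graph orders (MP_b735d7_co): leaf AN (helper87)
-/

set_option autoImplicit false

namespace K9h63.RGO.AN_

open Filter Topology Finset

/-- factorials grow faster than exponentials -/
theorem choose_l (a : ℕ) (ha : 1 ≤ a) : ∃ l : ℕ, 1 ≤ l ∧
    60 * ((5 * (l + 1) : ℕ) : ℝ) * (2 * ((5 * (l + 1) : ℕ) : ℝ) + 1) * (a : ℝ) ^ (12 * (5 * (l + 1)) + l) *
      (a : ℝ) ^ (320 * (5 * (l + 1))) ≤ (l.factorial : ℝ) := by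
  obtain ⟨N, hN⟩ : ∃ N : ℕ, N = 3321 := ⟨_, rfl⟩
  have ht := FloorSemiring.tendsto_pow_div_factorial_atTop (4 * (a : ℝ) ^ N)
  obtain ⟨l, hl1, hl2⟩ := ((ht.eventually (gt_mem_nhds (show (0 : ℝ) < 1 / 18000 by norm_num))).and
    (eventually_ge_atTop 1)).exists
  refine ⟨l, hl2, ?_⟩
  have hf : (0 : ℝ) < (l.factorial : ℝ) := by exact_mod_cast l.factorial_pos
  rw [div_lt_div_iff₀ hf (by norm_num)] at hl1
  have ha' : (1 : ℝ) ≤ a := by exact_mod_cast ha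
  have hl' : (1 : ℝ) ≤ l := by exact_mod_cast hl2
  have h2 : (l : ℝ) ≤ 2 ^ l := by exact_mod_cast (Nat.lt_two_pow_self (n := l)).le
  have h4 : ((2 : ℝ) ^ l) ^ 2 = 4 ^ l := by
    rw [← pow_mul, mul_comm, pow_mul]
    norm_num
  have e1 : (a : ℝ) ^ (12 * (5 * (l + 1)) + l) * (a : ℝ) ^ (320 * (5 * (l + 1))) ≤ ((a : ℝ) ^ N) ^ l := by
    rw [← pow_add, ← pow_mul]
    refine pow_le_pow_right₀ ha' ?_
    rw [hN]
    omega
  have e2 : 60 * ((5 * (l + 1) : ℕ) : ℝ) * (2 * ((5 * (l + 1) : ℕ) : ℝ) + 1) ≤ 18000 * 4 ^ l := by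
    push_cast
    rw [← h4]
    have h5 : 0 < (2 : ℝ) ^ l := by positivity
    have h6 : (l : ℝ) + 1 ≤ 2 * 2 ^ l := by linarith
    nlinarith [h6, h5]
  calc 60 * ((5 * (l + 1) : ℕ) : ℝ) * (2 * ((5 * (l + 1) : ℕ) : ℝ) + 1) * (a : ℝ) ^ (12 * (5 * (l + 1)) + l) *
      (a : ℝ) ^ (320 * (5 * (l + 1))) =
      (60 * ((5 * (l + 1) : ℕ) : ℝ) * (2 * ((5 * (l + 1) : ℕ) : ℝ) + 1)) *
        ((a : ℝ) ^ (12 * (5 * (l + 1)) + l) * (a : ℝ) ^ (320 * (5 * (l + 1)))) := by ring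
    _ ≤ (18000 * 4 ^ l) * ((a : ℝ) ^ N) ^ l := by
        apply mul_le_mul e2 e1 (by positivity) (by positivity)
    _ = (4 * (a : ℝ) ^ N) ^ l * 18000 := by
        rw [mul_pow]
        ring
    _ ≤ 1 * (l.factorial : ℝ) := hl1.le
    _ = (l.factorial : ℝ) := one_mul _

/-- powers of the logarithm -/
theorem log_tend : Tendsto (fun n : ℕ => Real.log n ^ 5 / (n : ℝ) ^ (1 / 2 : ℝ)) atTop (𝓝 0) := by
  have h := (isLittleO_log_rpow_rpow_atTop (5 : ℝ) (show (0 : ℝ) < 1 / 2 by norm_num)).tendsto_div_nhds_zero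
  refine (h.comp tendsto_natCast_atTop_atTop).congr fun n => ?_
  simp only [Function.comp]
  rw [show (5 : ℝ) = ((5 : ℕ) : ℝ) by norm_num, Real.rpow_natCast]

/-- the main estimate -/
theorem core (c : ℝ) (hc : 0 < c) (a l R : ℕ) (ha : 1 + c ≤ a) (ha2 : 2 ≤ a) (hR1 : 1 ≤ R)
    (hfac : 60 * (R : ℝ) * (2 * (R : ℝ) + 1) * (a : ℝ) ^ (12 * R + l) * (a : ℝ) ^ (320 * R) ≤
      (l.factorial : ℝ)) :
    ∃ r M : ℕ → ℕ, (∀ n, 4 * (10 * R * r n) ≤ M n ∧ 7 * R + 2 ≤ M n) ∧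
      Tendsto (fun n : ℕ => (n : ℝ) * (c / n) ^ 2 * (M n : ℝ) ^ 5 * (1 + c) ^ (2 * M n) +
        n * (60 * (R : ℝ) * (2 * (R : ℝ) + 1) * (1 + c) ^ (12 * R + l) / (l.factorial : ℝ)) ^ (r n))
        atTop (nhds 0) := by
  obtain ⟨B, hB⟩ : ∃ B : ℕ, B = a ^ (160 * R) := ⟨_, rfl⟩
  have hB2 : 2 ≤ B := by
    rw [hB]
    calc 2 ≤ a := ha2
      _ = a ^ 1 := (pow_one a).symm
      _ ≤ a ^ (160 * R) := Nat.pow_le_pow_right (by omega) (by omega)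
  have hA0 : (0 : ℝ) < 1 + c := by linarith
  have hf : (0 : ℝ) < (l.factorial : ℝ) := by exact_mod_cast l.factorial_pos
  have hBr : (0 : ℝ) < (B : ℝ) := by
    have : 0 < B := by omega
    exact_mod_cast this
  have hR0 : (0 : ℝ) ≤ R := Nat.cast_nonneg R
  obtain ⟨q, hq⟩ : ∃ q : ℝ, q = 60 * (R : ℝ) * (2 * (R : ℝ) + 1) * (1 + c) ^ (12 * R + l) /
    (l.factorial : ℝ) := ⟨_, rfl⟩
  have hq0 : 0 ≤ q := by
    rw [hq]
    exact div_nonneg (mul_nonneg (by nlinarith) (pow_nonneg hA0.le _)) hf.le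
  have hqB : q ≤ 1 / (B : ℝ) ^ 2 := by
    rw [hq, div_le_div_iff₀ hf (pow_pos hBr 2), one_mul]
    refine le_trans ?_ hfac
    have e1 : (B : ℝ) ^ 2 = (a : ℝ) ^ (320 * R) := by
      rw [hB]
      push_cast
      rw [← pow_mul]
      congr 1
      omega
    rw [e1]
    have e2 : (1 + c) ^ (12 * R + l) ≤ (a : ℝ) ^ (12 * R + l) := pow_le_pow_left₀ hA0.le ha _
    have e3 : 0 ≤ 60 * (R : ℝ) * (2 * (R : ℝ) + 1) := by nlinarith
    exact mul_le_mul_of_nonneg_right (mul_le_mul_of_nonneg_left e2 e3) (pow_nonneg (Nat.cast_nonneg a) _)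
  refine ⟨fun n => Nat.log B n + 1, fun n => 40 * R * (Nat.log B n + 1) + (7 * R + 2), ?_, ?_⟩
  · intro n
    have h1 : 4 * (10 * R * (Nat.log B n + 1)) = 40 * R * (Nat.log B n + 1) := by ring
    constructor
    · show 4 * (10 * R * (Nat.log B n + 1)) ≤ 40 * R * (Nat.log B n + 1) + (7 * R + 2)
      omega
    · show 7 * R + 2 ≤ 40 * R * (Nat.log B n + 1) + (7 * R + 2)
      omega
  rw [← hq]
  -- the constants
  obtain ⟨E, hE⟩ : ∃ E : ℝ, E = 47 * R + 2 := ⟨_, rfl⟩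
  obtain ⟨D, hD⟩ : ∃ D : ℝ, D = (1 + c) ^ (94 * R + 4) := ⟨_, rfl⟩
  have hE0 : 0 ≤ E := by rw [hE]; linarith
  have hD0 : 0 ≤ D := by rw [hD]; exact pow_nonneg hA0.le _
  have hlim1 : Tendsto (fun n : ℕ => c ^ 2 * D * E ^ 5 * 243 * (Real.log n ^ 5 / (n : ℝ) ^ (1 / 2 : ℝ)) +
      1 / (n : ℝ)) atTop (𝓝 0) := by
    have h1 := (log_tend.const_mul (c ^ 2 * D * E ^ 5 * 243)).add tendsto_one_div_atTop_nhds_zero_nat
    rw [mul_zero, add_zero] at h1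
    exact h1
  refine squeeze_zero' (Eventually.of_forall fun n => ?_) ?_ hlim1
  · refine add_nonneg (mul_nonneg (mul_nonneg (mul_nonneg (Nat.cast_nonneg n) (sq_nonneg _))
      (pow_nonneg (Nat.cast_nonneg _) 5)) (pow_nonneg hA0.le _))
      (mul_nonneg (Nat.cast_nonneg n) (pow_nonneg hq0 _))
  filter_upwards [eventually_ge_atTop 3] with n hn
  have hn3 : (3 : ℝ) ≤ n := by exact_mod_cast hn
  have hn0 : (0 : ℝ) < n := by linarith
  obtain ⟨k, hk⟩ : ∃ k : ℕ, k = Nat.log B n := ⟨_, rfl⟩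
  rw [← hk]
  have hBk : B ^ k ≤ n := by
    rw [hk]
    exact Nat.pow_log_le_self B (by omega)
  have hBk1 : n < B ^ (k + 1) := by
    rw [hk]
    exact Nat.lt_pow_succ_log_self (by omega) n
  have hBkr : (B : ℝ) ^ k ≤ n := by exact_mod_cast hBk
  have hBk1r : (n : ℝ) < (B : ℝ) ^ (k + 1) := by exact_mod_cast hBk1
  -- the second summand
  have hsec : (n : ℝ) * q ^ (k + 1) ≤ 1 / (n : ℝ) := by
    have h1 : q ^ (k + 1) ≤ (1 / (B : ℝ) ^ 2) ^ (k + 1) := pow_le_pow_left₀ hq0 hqB _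
    have h2 : (1 / (B : ℝ) ^ 2) ^ (k + 1) = 1 / ((B : ℝ) ^ (k + 1)) ^ 2 := by
      rw [one_div, one_div, inv_pow, ← pow_mul, ← pow_mul, mul_comm]
    have h3 : 1 / ((B : ℝ) ^ (k + 1)) ^ 2 ≤ 1 / (n : ℝ) ^ 2 :=
      one_div_le_one_div_of_le (by positivity) (pow_le_pow_left₀ hn0.le hBk1r.le 2)
    calc (n : ℝ) * q ^ (k + 1) ≤ n * (1 / (n : ℝ) ^ 2) := by
          refine mul_le_mul_of_nonneg_left ?_ hn0.le
          rw [h2] at h1
          exact h1.trans h3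
      _ = 1 / (n : ℝ) := by field_simp
  -- the first summand
  have hlog1 : 1 ≤ Real.log n := by
    rw [Real.le_log_iff_exp_le hn0]
    have := Real.exp_one_lt_d9
    linarith
  have hkl : (k : ℝ) ≤ 2 * Real.log n := by
    have h1 : Real.log ((B : ℝ) ^ k) ≤ Real.log n := Real.log_le_log (pow_pos hBr k) hBkr
    rw [Real.log_pow] at h1
    have h2 : Real.log 2 ≤ Real.log B := Real.log_le_log (by norm_num) (by exact_mod_cast hB2)
    have h3 := Real.log_two_gt_d9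
    have h4 : (k : ℝ) * (1 / 2) ≤ (k : ℝ) * Real.log B :=
      mul_le_mul_of_nonneg_left (by linarith) (Nat.cast_nonneg k)
    linarith
  obtain ⟨m, hm⟩ : ∃ m : ℕ, m = 40 * R * (k + 1) + (7 * R + 2) := ⟨_, rfl⟩
  rw [← hm]
  have hM : (m : ℝ) ≤ E * (3 * Real.log n) := by
    rw [hm]
    push_cast
    rw [hE]
    have h1 : (k : ℝ) + 1 ≤ 3 * Real.log n := by linarith
    have h2 : 40 * (R : ℝ) * (k + 1) ≤ 40 * R * (3 * Real.log n) :=
      mul_le_mul_of_nonneg_left h1 (by linarith)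
    have h3 : (7 * (R : ℝ) + 2) * 1 ≤ (7 * R + 2) * (3 * Real.log n) :=
      mul_le_mul_of_nonneg_left (by linarith) (by linarith)
    linarith
  have hM5 : (m : ℝ) ^ 5 ≤ E ^ 5 * 243 * Real.log n ^ 5 := by
    calc (m : ℝ) ^ 5 ≤ (E * (3 * Real.log n)) ^ 5 := pow_le_pow_left₀ (Nat.cast_nonneg _) hM 5
      _ = E ^ 5 * 243 * Real.log n ^ 5 := by ring
  have hpow : (1 + c) ^ (2 * m) ≤ D * (n : ℝ) ^ (1 / 2 : ℝ) := by
    have e1 : 2 * m = (94 * R + 4) + 80 * R * k := by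
      rw [hm]
      ring
    rw [e1, pow_add, ← hD]
    refine mul_le_mul_of_nonneg_left ?_ hD0
    rw [← Real.sqrt_eq_rpow]
    refine Real.le_sqrt_of_sq_le ?_
    calc ((1 + c) ^ (80 * R * k)) ^ 2 ≤ ((a : ℝ) ^ (80 * R * k)) ^ 2 :=
          pow_le_pow_left₀ (pow_nonneg hA0.le _) (pow_le_pow_left₀ hA0.le ha _) 2
      _ = (B : ℝ) ^ k := by
          rw [hB]
          push_cast
          rw [← pow_mul, ← pow_mul]
          congr 1
          ring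
      _ ≤ n := hBkr
  have hs : (n : ℝ) ^ (1 / 2 : ℝ) * (n : ℝ) ^ (1 / 2 : ℝ) = n := by
    rw [← Real.rpow_add hn0]
    norm_num
  have hs0 : 0 < (n : ℝ) ^ (1 / 2 : ℝ) := Real.rpow_pos_of_pos hn0 _
  obtain ⟨s, hs'⟩ : ∃ s : ℝ, s = (n : ℝ) ^ (1 / 2 : ℝ) := ⟨_, rfl⟩
  obtain ⟨L, hL⟩ : ∃ L : ℝ, L = Real.log n := ⟨_, rfl⟩
  rw [← hs'] at hs hs0 hpow ⊢
  rw [← hL] at hM5 hlog1 ⊢
  have hL0 : 0 ≤ L := by linarith
  have hfirst : (n : ℝ) * (c / n) ^ 2 * (m : ℝ) ^ 5 * (1 + c) ^ (2 * m) ≤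
      c ^ 2 * D * E ^ 5 * 243 * (L ^ 5 / s) := by
    have hcn : 0 ≤ (n : ℝ) * (c / n) ^ 2 := mul_nonneg hn0.le (sq_nonneg _)
    have h1 : (n : ℝ) * (c / n) ^ 2 * s = c ^ 2 / s := by
      rw [← hs]
      field_simp
    calc (n : ℝ) * (c / n) ^ 2 * (m : ℝ) ^ 5 * (1 + c) ^ (2 * m)
        ≤ (n : ℝ) * (c / n) ^ 2 * (E ^ 5 * 243 * L ^ 5) * (D * s) := by
          refine mul_le_mul (mul_le_mul_of_nonneg_left hM5 hcn) hpow (pow_nonneg hA0.le _) ?_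
          exact mul_nonneg hcn (mul_nonneg (mul_nonneg (pow_nonneg hE0 5) (by norm_num)) (pow_nonneg hL0 5))
      _ = ((n : ℝ) * (c / n) ^ 2 * s) * (E ^ 5 * 243 * L ^ 5 * D) := by ring
      _ = c ^ 2 * D * E ^ 5 * 243 * (L ^ 5 / s) := by
          rw [h1]
          ring
  exact add_le_add hfirst hsec

end K9h63.RGO.AN_

namespace K9h63.RGO

open Filter Topology Finset AN_

/-- leaf AN -/
theorem an : S_AN := by
  intro c hc
  obtain ⟨a, ha⟩ := exists_nat_ge (1 + c)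
  have ha1 : (1 : ℝ) < a := by linarith
  have ha2 : 2 ≤ a := by
    have : 1 < a := by exact_mod_cast ha1
    omega
  obtain ⟨l, hl, hfac⟩ := choose_l a (by omega)
  obtain ⟨r, M, h1, h2⟩ := core c hc a l (5 * (l + 1)) ha ha2 (by omega) hfac
  exact ⟨l, r, M, hl, h1, h2⟩

end K9h63.RGO
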