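import Pool.Agent.K9h63.RGO.Defs

/-!
# Random graph orders (MP_b735d7_co): basic lemmas on `Linked`, `eIn`, `Pr`, `gr`
-/

set_option autoImplicit false

namespace K9h63.RGO

open Finset

section graph

variable {V : Type} {G : SimpleGraph V}

theorem Linked.single (v : V) : Linked G {v} := by
  intro T hT hne hne2
  exfalso
  apply hne2
  apply Finset.Subset.antisymm hT
  obtain ⟨x, hx⟩ := hne
  have := Finset.mem_singleton.1 (hT hx)
  subst this
  simpa using hx

theorem Linked.insert [DecidableEq V] {S : Finset V} (h : Linked G S) {u x : V} (hu : u ∈ S)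
    (hux : G.Adj u x) : Linked G (insert x S) := by
  classical
  intro T hT hne hne2
  by_cases hx : x ∈ T
  · by_cases hS : ∃ w ∈ S, w ∉ T
    · by_cases hT2 : (T.filter (· ∈ S)).Nonempty
      · obtain ⟨w, hwS, hwT⟩ := hS
        obtain ⟨a, ha, b, hb, hbT, hab⟩ := h (T.filter (· ∈ S)) (fun y hy => (Finset.mem_filter.1 hy).2)
          hT2 (fun he => hwT (Finset.mem_filter.1 (he.symm.subset hwS)).1)
        refine ⟨a, (Finset.mem_filter.1 ha).1, b, Finset.mem_insert_of_mem hb, fun hbT2 => hbT ?_, hab⟩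
        exact Finset.mem_filter.2 ⟨hbT2, hb⟩
      · refine ⟨x, hx, u, Finset.mem_insert_of_mem hu, fun huT => hT2 ⟨u, ?_⟩, hux.symm⟩
        exact Finset.mem_filter.2 ⟨huT, hu⟩
    · exfalso
      push Not at hS
      apply hne2
      apply Finset.Subset.antisymm hT
      intro y hy
      rcases Finset.mem_insert.1 hy with rfl | hy
      · exact hx
      · exact hS y hy
  · have hTS : T ⊆ S := fun y hy => by
      rcases Finset.mem_insert.1 (hT hy) with rfl | hy'
      · exact absurd hy hx
      · exact hy'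
    by_cases hTe : T = S
    · subst hTe
      exact ⟨u, hu, x, Finset.mem_insert_self _ _, hx, hux⟩
    · obtain ⟨a, ha, b, hb, hbT, hab⟩ := h T hTS hne hTe
      exact ⟨a, ha, b, Finset.mem_insert_of_mem hb, hbT, hab⟩

/-- every new vertex brings the edges to its neighbours -/
theorem eIn_insert [LinearOrder V] {S N : Finset V} {x : V} (hx : x ∉ S) (hN : N ⊆ S)
    (hadj : ∀ u ∈ N, G.Adj u x) : eIn G S + N.card ≤ eIn G (insert x S) := by
  classical
  unfold eIn
  set A := (S ×ˢ S).filter fun e => e.1 < e.2 ∧ G.Adj e.1 e.2 with hA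
  set B := N.image (fun u => if u < x then (u, x) else (x, u)) with hB
  have hBc : B.card = N.card := by
    rw [hB]
    apply Finset.card_image_of_injOn
    intro u hu u' hu' he
    have hux : u ≠ x := fun h => hx (h ▸ hN hu)
    have hux' : u' ≠ x := fun h => hx (h ▸ hN hu')
    dsimp only at he
    split_ifs at he with h1 h2 h2
    · exact (Prod.mk.inj he).1
    · exact absurd (Prod.mk.inj he).1 hux
    · exact absurd (Prod.mk.inj he).2 hux
    · exact (Prod.mk.inj he).2
  have hdis : Disjoint A B := by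
    rw [Finset.disjoint_left]
    rintro e he heB
    obtain ⟨u, hu, rfl⟩ := Finset.mem_image.1 heB
    have h1 := (Finset.mem_filter.1 he).1
    rw [Finset.mem_product] at h1
    split_ifs at h1 with h2
    · exact hx h1.2
    · exact hx h1.1
  rw [← hBc, ← Finset.card_union_of_disjoint hdis]
  apply Finset.card_le_card
  intro e he
  rcases Finset.mem_union.1 he with he | he
  · rw [hA, Finset.mem_filter, Finset.mem_product] at he
    refine Finset.mem_filter.2 ⟨Finset.mem_product.2 ⟨?_, ?_⟩, he.2⟩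
    · exact Finset.mem_insert_of_mem he.1.1
    · exact Finset.mem_insert_of_mem he.1.2
  · obtain ⟨u, hu, rfl⟩ := Finset.mem_image.1 he
    have hux : u ≠ x := fun h => hx (h ▸ hN hu)
    split_ifs with h2
    · exact Finset.mem_filter.2 ⟨Finset.mem_product.2 ⟨Finset.mem_insert_of_mem (hN hu),
        Finset.mem_insert_self _ _⟩, h2, hadj u hu⟩
    · exact Finset.mem_filter.2 ⟨Finset.mem_product.2 ⟨Finset.mem_insert_self _ _,
        Finset.mem_insert_of_mem (hN hu)⟩, lt_of_le_of_ne (not_lt.1 h2) hux.symm, (hadj u hu).symm⟩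

end graph

section prob

variable {n : ℕ} {p : ℝ}

theorem gr_adj {E : Finset (Fin n × Fin n)} (hE : E ⊆ pairs n) (a b : Fin n) :
    (gr E).Adj a b ↔ (a, b) ∈ E ∨ (b, a) ∈ E := by
  unfold gr
  rw [SimpleGraph.fromRel_adj]
  constructor
  · exact fun h => h.2
  · intro h
    refine ⟨?_, h⟩
    rintro rfl
    rcases h with h | h <;> exact lt_irrefl _ (Finset.mem_filter.1 (hE h)).2

theorem up_gr {E : Finset (Fin n × Fin n)} (hE : E ⊆ pairs n) (a b : Fin n) :
    Up (gr E) a b ↔ (a, b) ∈ E := by
  unfold Up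
  rw [gr_adj hE]
  constructor
  · rintro ⟨h, h1 | h1⟩
    · exact h1
    · exact absurd h (not_lt.2 (Finset.mem_filter.1 (hE h1)).2.le)
  · intro h
    exact ⟨(Finset.mem_filter.1 (hE h)).2, Or.inl h⟩

theorem wt_nonneg (hp : 0 ≤ p) (hp1 : p ≤ 1) (E : Finset (Fin n × Fin n)) :
    0 ≤ p ^ E.card * (1 - p) ^ ((pairs n).card - E.card) :=
  mul_nonneg (pow_nonneg hp _) (pow_nonneg (by linarith) _)

theorem Pr_nonneg (hp : 0 ≤ p) (hp1 : p ≤ 1) (A : Finset (Fin n × Fin n) → Prop) :
    0 ≤ Pr n p A :=
  Finset.sum_nonneg fun E _ => wt_nonneg hp hp1 E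

theorem Pr_mono (hp : 0 ≤ p) (hp1 : p ≤ 1) {A B : Finset (Fin n × Fin n) → Prop}
    (h : ∀ E ⊆ pairs n, A E → B E) : Pr n p A ≤ Pr n p B := by
  classical
  unfold Pr
  apply Finset.sum_le_sum_of_subset_of_nonneg
  · intro E hE
    rw [Finset.mem_filter] at hE ⊢
    exact ⟨hE.1, h E (Finset.mem_powerset.1 hE.1) hE.2⟩
  · intro E _ _
    exact wt_nonneg hp hp1 E

/-- union bound -/
theorem Pr_union (hp : 0 ≤ p) (hp1 : p ≤ 1) {ι : Type*} (s : Finset ι)
    {A : Finset (Fin n × Fin n) → Prop} {B : ι → Finset (Fin n × Fin n) → Prop}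
    (h : ∀ E ⊆ pairs n, A E → ∃ i ∈ s, B i E) : Pr n p A ≤ ∑ i ∈ s, Pr n p (B i) := by
  classical
  unfold Pr
  simp only [Finset.sum_filter]
  rw [Finset.sum_comm]
  apply Finset.sum_le_sum
  intro E hE
  split_ifs with hA
  · obtain ⟨i, hi, hB⟩ := h E (Finset.mem_powerset.1 hE) hA
    have h1 : ∀ j ∈ s, 0 ≤ (if B j E then p ^ E.card * (1 - p) ^ ((pairs n).card - E.card) else 0) := by
      intro j _
      split_ifs
      · exact wt_nonneg hp hp1 E
      · exact le_refl _
    refine le_trans ?_ (Finset.single_le_sum h1 hi)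
    rw [if_pos hB]
  · apply Finset.sum_nonneg
    intro j _
    split_ifs
    · exact wt_nonneg hp hp1 E
    · exact le_refl _

/-- the probability of `F ⊆ E` -/
theorem Pr_subset (F : Finset (Fin n × Fin n)) (hF : F ⊆ pairs n) :
    Pr n p (fun E => F ⊆ E) = p ^ F.card := by
  classical
  have h0 : Pr n p (fun E => F ⊆ E) = ∑ E ∈ (pairs n).powerset.filter (fun E => F ⊆ E),
      p ^ E.card * (1 - p) ^ ((pairs n).card - E.card) :=
    Finset.sum_congr (by ext; simp) fun _ _ => rfl
  rw [h0]
  have h1 : ((pairs n).powerset.filter fun E => F ⊆ E) =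
      ((pairs n \ F).powerset).image (fun T => F ∪ T) := by
    ext E
    simp only [Finset.mem_filter, Finset.mem_powerset, Finset.mem_image]
    constructor
    · rintro ⟨h1, h2⟩
      refine ⟨E \ F, Finset.sdiff_subset_sdiff h1 (Finset.Subset.refl _), ?_⟩
      rw [Finset.union_sdiff_of_subset h2]
    · rintro ⟨T, hT, rfl⟩
      exact ⟨Finset.union_subset hF (hT.trans Finset.sdiff_subset), Finset.subset_union_left⟩
  rw [h1, Finset.sum_image]
  · have h2 : ∀ T ∈ (pairs n \ F).powerset, p ^ (F ∪ T).card *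
        (1 - p) ^ ((pairs n).card - (F ∪ T).card) =
        p ^ F.card * (p ^ T.card * (1 - p) ^ ((pairs n \ F).card - T.card)) := by
      intro T hT
      have hT' := Finset.mem_powerset.1 hT
      have hd : Disjoint F T := Finset.disjoint_of_subset_right hT' Finset.disjoint_sdiff
      rw [Finset.card_union_of_disjoint hd, Finset.card_sdiff_of_subset hF, pow_add, Nat.sub_add_eq]
      ring
    rw [Finset.sum_congr rfl h2, ← Finset.mul_sum]
    have h3 := Finset.sum_pow_mul_eq_add_pow p (1 - p) (pairs n \ F)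
    rw [h3]
    simp
  · intro T hT T' hT' he
    have hT1 := Finset.mem_powerset.1 (Finset.mem_coe.1 hT)
    have hT2 := Finset.mem_powerset.1 (Finset.mem_coe.1 hT')
    have hd : Disjoint F T := Finset.disjoint_of_subset_right hT1 Finset.disjoint_sdiff
    have hd' : Disjoint F T' := Finset.disjoint_of_subset_right hT2 Finset.disjoint_sdiff
    have e1 : (F ∪ T) \ F = T := by
      rw [Finset.union_sdiff_left]; exact Finset.sdiff_eq_self_of_disjoint hd.symm
    have e2 : (F ∪ T') \ F = T' := by
      rw [Finset.union_sdiff_left]; exact Finset.sdiff_eq_self_of_disjoint hd'.symm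
    rw [← e1, ← e2]
    exact congrArg (· \ F) he

theorem Pr_true : Pr n p (fun _ => True) = 1 := by
  have h := Pr_subset (p := p) (∅ : Finset (Fin n × Fin n)) (Finset.empty_subset _)
  rw [Finset.card_empty, pow_zero] at h
  rw [← h]
  congr 1
  funext E
  simp

theorem Pr_add_not (A : Finset (Fin n × Fin n) → Prop) :
    Pr n p A + Pr n p (fun E => ¬ A E) = 1 := by
  classical
  rw [← Pr_true (n := n) (p := p)]
  have h0 : Pr n p (fun _ => True) = ∑ E ∈ (pairs n).powerset,
      p ^ E.card * (1 - p) ^ ((pairs n).card - E.card) :=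
    Finset.sum_congr (by ext; simp) fun _ _ => rfl
  rw [h0, ← Finset.sum_filter_add_sum_filter_not (pairs n).powerset A]
  congr 1
  exact Finset.sum_congr (by ext; simp) fun _ _ => rfl

end prob

end K9h63.RGO
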