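import Pool.Agent.K9h63.RGO.Stm

/-!
# Random graph orders (MP_b735d7_co): leaf COL (the elements far from the exceptional vertices)
-/

set_option autoImplicit false

namespace K9h63.RGO

open Finset

namespace COL_

/-! ## the number of vertices reached by short paths -/

theorem path_of_rtg {V : Type} (S : V → V → Prop) {x v : V} (h : Relation.ReflTransGen S x v) :
    ∃ (k : ℕ) (q : ℕ → V), q 0 = x ∧ q k = v ∧ ∀ j < k, S (q j) (q (j + 1)) := by
  induction h with
  | refl => exact ⟨0, fun _ => x, rfl, rfl, fun j hj => absurd hj (Nat.not_lt_zero _)⟩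
  | @tail b c _ hbc ih =>
    obtain ⟨k, q, h0, hk, hq⟩ := ih
    refine ⟨k + 1, fun j => if j ≤ k then q j else c, ?_, ?_, ?_⟩
    · simp [h0]
    · simp
    · intro j hj
      by_cases hjk : j < k
      · have h1 : j ≤ k := hjk.le
        have h2 : j + 1 ≤ k := hjk
        simp only [h1, h2, if_true]
        exact hq j hjk
      · have h1 : j = k := by omega
        subst h1
        simp only [le_refl, if_true]
        rw [if_neg (by omega), hk]
        exact hbc

theorem rtg_of_path {V : Type} (S : V → V → Prop) (q : ℕ → V) (k : ℕ)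
    (hq : ∀ j < k, S (q j) (q (j + 1))) : Relation.ReflTransGen S (q 0) (q k) := by
  induction k with
  | zero => exact Relation.ReflTransGen.refl
  | succ k ih => exact (ih fun j hj => hq j (by omega)).tail (hq k (by omega))

open Classical in
/-- ends of paths with at most `i` steps -/
noncomputable def N {V : Type} [Fintype V] (S : V → V → Prop) (x : V) : ℕ → Finset V
  | 0 => {x}
  | i + 1 => N S x i ∪ (N S x i).biUnion fun v => univ.filter fun u => S v u

open Classical in
theorem N_mono {V : Type} [Fintype V] (S : V → V → Prop) (x : V) {i j : ℕ} (h : i ≤ j) :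
    N S x i ⊆ N S x j := by
  induction h with
  | refl => exact Finset.Subset.refl _
  | step _ ih => exact ih.trans Finset.subset_union_left

open Classical in
theorem N_reach {V : Type} [Fintype V] (S : V → V → Prop) (x : V) (i : ℕ) :
    ∀ v ∈ N S x i, Relation.ReflTransGen S x v := by
  induction i with
  | zero =>
    intro v hv
    rw [N, Finset.mem_singleton] at hv
    rw [hv]
  | succ i ih =>
    intro v hv
    rw [N, Finset.mem_union] at hv
    rcases hv with hv | hv
    · exact ih v hv
    · obtain ⟨u, hu, huv⟩ := Finset.mem_biUnion.1 hv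
      exact (ih u hu).tail (Finset.mem_filter.1 huv).2

theorem N_path {V : Type} [Fintype V] (S : V → V → Prop) (q : ℕ → V) (k : ℕ)
    (hq : ∀ j < k, S (q j) (q (j + 1))) : q k ∈ N S (q 0) k := by
  classical
  induction k with
  | zero => rw [N]; exact Finset.mem_singleton_self _
  | succ k ih =>
    rw [N]
    apply Finset.mem_union_right
    exact Finset.mem_biUnion.2 ⟨q k, ih fun j hj => hq j (by omega),
      Finset.mem_filter.2 ⟨Finset.mem_univ _, hq k (by omega)⟩⟩

open Classical in
theorem card_reach {V : Type} [Fintype V] (S : V → V → Prop) (x : V) (d R : ℕ)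
    (hd : ∀ v, Relation.ReflTransGen S x v → (univ.filter fun u => S v u).card ≤ d)
    (hR : ¬ ∃ q : ℕ → V, q 0 = x ∧ ∀ k < R, S (q k) (q (k + 1))) :
    (univ.filter fun v => Relation.ReflTransGen S x v).card ≤ (d + 1) ^ R := by
  have h1 : ∀ i, (N S x i).card ≤ (d + 1) ^ i := by
    intro i
    induction i with
    | zero => rw [N]; simp
    | succ i ih =>
      rw [N]
      calc (N S x i ∪ (N S x i).biUnion fun v => univ.filter fun u => S v u).card
          ≤ (N S x i).card + ((N S x i).biUnion fun v => univ.filter fun u => S v u).card :=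
            Finset.card_union_le _ _
        _ ≤ (N S x i).card + (N S x i).card * d := by
            apply Nat.add_le_add_left
            exact Finset.card_biUnion_le_card_mul _ _ _ fun v hv => hd v (N_reach S x i v hv)
        _ = (N S x i).card * (d + 1) := by ring
        _ ≤ (d + 1) ^ i * (d + 1) := Nat.mul_le_mul_right _ ih
        _ = (d + 1) ^ (i + 1) := by rw [pow_succ]
  refine le_trans (Finset.card_le_card ?_) (h1 R)
  intro v hv
  obtain ⟨k, q, h0, hk, hq⟩ := path_of_rtg S (Finset.mem_filter.1 hv).2
  have hkR : k < R := by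
    by_contra hc
    exact hR ⟨q, h0, fun j hj => hq j (by omega)⟩
  have h2 := N_path S q k hq
  rw [hk, h0] at h2
  exact N_mono S x hkR.le h2

/-! ## greedy colouring -/

open Classical in
theorem greedy {V : Type} [Fintype V] (H : V → V → Prop) (hs : ∀ u v, H u v → H v u)
    (hi : ∀ u, ¬ H u u) (D : ℕ) (hD : ∀ u, (univ.filter fun v => H u v).card ≤ D) :
    ∃ col : V → Fin (D + 1), ∀ u v, H u v → col u ≠ col v := by
  have h1 : ∀ s : Finset V, ∃ col : V → Fin (D + 1), ∀ u ∈ s, ∀ v ∈ s, H u v → col u ≠ col v := by
    intro s
    induction s using Finset.induction_on with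
    | empty => exact ⟨fun _ => 0, fun u hu => absurd hu (Finset.notMem_empty _)⟩
    | insert a s ha ih =>
      obtain ⟨col, hcol⟩ := ih
      have h2 : ∃ c : Fin (D + 1), c ∉ (univ.filter fun v => H a v).image col := by
        by_contra hc
        push Not at hc
        have h3 : (univ : Finset (Fin (D + 1))).card ≤ D :=
          le_trans (Finset.card_le_card fun c _ => hc c) (Finset.card_image_le.trans (hD a))
        rw [Finset.card_univ, Fintype.card_fin] at h3
        omega
      obtain ⟨c, hc⟩ := h2
      have hc' : ∀ v, H a v → col v ≠ c := fun v hv he =>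
        hc (Finset.mem_image.2 ⟨v, Finset.mem_filter.2 ⟨Finset.mem_univ _, hv⟩, he⟩)
      refine ⟨Function.update col a c, ?_⟩
      intro u hu v hv huv
      by_cases hua : u = a
      · subst hua
        have hvu : v ≠ u := fun h => hi u (h ▸ huv)
        rw [Function.update_self, Function.update_of_ne hvu]
        exact (hc' v huv).symm
      · rw [Function.update_of_ne hua]
        by_cases hva : v = a
        · subst hva
          rw [Function.update_self]
          exact hc' u (hs _ _ huv)
        · rw [Function.update_of_ne hva]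
          exact hcol u ((Finset.mem_insert.1 hu).resolve_left hua) v
            ((Finset.mem_insert.1 hv).resolve_left hva) huv
  obtain ⟨col, hcol⟩ := h1 univ
  exact ⟨col, fun u v => hcol u (Finset.mem_univ _) v (Finset.mem_univ _)⟩

open Classical in
theorem card_up {V : Type} [Fintype V] [LinearOrder V] (G : SimpleGraph V) (l R : ℕ) (x : V)
    (hx : x ∉ Dn G (Exc G l R)) : (univ.filter fun v => Le G x v).card ≤ (l + 4) ^ R := by
  apply card_reach (Up G) x (l + 3) R
  · intro v hv
    have hv2 : v ∉ Exc G l R := fun h => hx ⟨v, h, hv⟩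
    have h1 : ¬ l + 4 ≤ deg G v := fun h => hv2 (Or.inl h)
    have h2 : (univ.filter fun u => Up G v u).card ≤ deg G v := by
      unfold deg
      apply Finset.card_le_card
      intro u hu
      exact Finset.mem_filter.2 ⟨Finset.mem_univ _, (Finset.mem_filter.1 hu).2.2⟩
    omega
  · rintro ⟨q, h0, hq⟩
    exact hx ⟨x, Or.inr ⟨q, hq, 0, Nat.zero_le _, h0⟩, Relation.ReflTransGen.refl⟩

theorem rtg_flip {V : Type} (S : V → V → Prop) {x y : V} :
    Relation.ReflTransGen (fun a b => S b a) x y ↔ Relation.ReflTransGen S y x := by
  exact Relation.reflTransGen_swap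

open Classical in
theorem card_down {V : Type} [Fintype V] [LinearOrder V] (G : SimpleGraph V) (l R : ℕ) (y : V)
    (hy : y ∉ Upp G (Exc G l R)) : (univ.filter fun v => Le G v y).card ≤ (l + 4) ^ R := by
  have h0 : (univ.filter fun v => Le G v y) =
      univ.filter fun v => Relation.ReflTransGen (fun a b => Up G b a) y v := by
    apply Finset.filter_congr
    intro v _
    exact (rtg_flip (Up G)).symm
  rw [h0]
  apply card_reach (fun a b => Up G b a) y (l + 3) R
  · intro v hv
    have hv1 : Le G v y := (rtg_flip (Up G)).1 hv
    have hv2 : v ∉ Exc G l R := fun h => hy ⟨v, h, hv1⟩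
    have h1 : ¬ l + 4 ≤ deg G v := fun h => hv2 (Or.inl h)
    have h2 : (univ.filter fun u => Up G u v).card ≤ deg G v := by
      unfold deg
      apply Finset.card_le_card
      intro u hu
      exact Finset.mem_filter.2 ⟨Finset.mem_univ _, (Finset.mem_filter.1 hu).2.2.symm⟩
    omega
  · rintro ⟨q, h0, hq⟩
    apply hy
    refine ⟨y, Or.inr ⟨fun k => q (R - k), ?_, R, le_refl _, ?_⟩, Relation.ReflTransGen.refl⟩
    · intro k hk
      have h1 := hq (R - (k + 1)) (by omega)
      rw [show R - (k + 1) + 1 = R - k by omega] at h1
      exact h1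
    · simp [h0]

end COL_

open Classical COL_ in
theorem col : S_COL := by
  intro V _ _ G l R _
  set W := Exc G l R with hW
  set K := (l + 4) ^ R with hK
  -- conflicts
  set H : V → V → Prop := fun u v => u ≠ v ∧ u ∉ Dn G W ∧ v ∉ Dn G W ∧
    ∃ y, y ∉ Upp G W ∧ Le G u y ∧ Le G v y with hH
  have hD : ∀ u, (univ.filter fun v => H u v).card ≤ K ^ 2 := by
    intro u
    by_cases hu : u ∈ Dn G W
    · have : (univ.filter fun v => H u v) = ∅ := by
        apply Finset.filter_eq_empty_iff.2
        intro v _ h
        exact h.2.1 hu
      rw [this]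
      simp
    · calc (univ.filter fun v => H u v).card
          ≤ ((univ.filter fun y => Le G u y).biUnion fun y =>
              if y ∈ Upp G W then ∅ else univ.filter fun v => Le G v y).card := by
            apply Finset.card_le_card
            intro v hv
            obtain ⟨_, _, _, y, hy, huy, hvy⟩ := (Finset.mem_filter.1 hv).2
            refine Finset.mem_biUnion.2 ⟨y, Finset.mem_filter.2 ⟨Finset.mem_univ _, huy⟩, ?_⟩
            rw [if_neg hy]
            exact Finset.mem_filter.2 ⟨Finset.mem_univ _, hvy⟩
        _ ≤ (univ.filter fun y => Le G u y).card * K := by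
            apply Finset.card_biUnion_le_card_mul
            intro y _
            split_ifs with hy
            · simp
            · exact card_down G l R y hy
        _ ≤ K * K := Nat.mul_le_mul_right _ (card_up G l R u hu)
        _ = K ^ 2 := by rw [sq]
  obtain ⟨col, hcol⟩ := greedy H
    (fun u v h => ⟨h.1.symm, h.2.2.1, h.2.1, h.2.2.2.imp fun y hy => ⟨hy.1, hy.2.2, hy.2.1⟩⟩)
    (fun u h => h.1 rfl) (K ^ 2) (fun u => by convert hD u)
  set rank : V → ℕ := fun z => (univ.filter fun v => v < z).card with hrank
  have hr1 : ∀ u v, u < v → rank u < rank v := by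
    intro u v huv
    apply Finset.card_lt_card
    refine ⟨fun a ha => Finset.mem_filter.2 ⟨Finset.mem_univ _,
      (Finset.mem_filter.1 ha).2.trans huv⟩, fun h => ?_⟩
    exact lt_irrefl _ (Finset.mem_filter.1 (h (Finset.mem_filter.2 ⟨Finset.mem_univ _, huv⟩))).2
  have hr2 : ∀ u, rank u < Fintype.card V := by
    intro u
    apply Finset.card_lt_univ_of_notMem (x := u)
    simp
  set f : Fin 2 × Fin (K ^ 2 + 1) → V → ℕ := fun i z =>
    if z ∉ Dn G W ∧ col z = i.2 then (if i.1 = 0 then 1 + rank z else Fintype.card V - rank z)
      else 0 with hf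
  refine ⟨fun i => f (finProdFinEquiv.symm i), ?_⟩
  intro x y hx hy hxy
  have key : ∃ s : Fin 2, ∀ z, Le G z y → f (s, col x) z < f (s, col x) x := by
    by_cases hw : ∃ w, Le G w y ∧ w ∉ Dn G W ∧ col w = col x
    · obtain ⟨w, hwy, hwD, hwc⟩ := hw
      have huniq : ∀ z, Le G z y → z ∉ Dn G W → col z = col x → z = w := by
        intro z hzy hzD hzc
        by_contra hne
        exact hcol z w ⟨hne, hzD, hwD, y, hy, hzy, hwy⟩ (hzc.trans hwc.symm)
      have hne : w ≠ x := fun h => hxy (h ▸ hwy)
      rcases lt_or_gt_of_ne hne with hlt | hlt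
      · refine ⟨0, fun z hz => ?_⟩
        have hx0 : f (0, col x) x = 1 + rank x := by
          simp only [hf]
          rw [if_pos ⟨hx, trivial⟩, if_pos trivial]
        rw [hx0]
        by_cases hzz : z ∉ Dn G W ∧ col z = col x
        · have h1 : z = w := huniq z hz hzz.1 hzz.2
          subst h1
          simp only [hf]
          rw [if_pos hzz, if_pos trivial]
          have := hr1 _ _ hlt
          omega
        · simp only [hf]
          rw [if_neg hzz]
          omega
      · refine ⟨1, fun z hz => ?_⟩
        have hx0 : f (1, col x) x = Fintype.card V - rank x := by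
          simp only [hf]
          rw [if_pos ⟨hx, trivial⟩, if_neg (by decide)]
        rw [hx0]
        have h5 := hr2 x
        by_cases hzz : z ∉ Dn G W ∧ col z = col x
        · have h1 : z = w := huniq z hz hzz.1 hzz.2
          subst h1
          simp only [hf]
          rw [if_pos hzz, if_neg (by decide)]
          have := hr1 _ _ hlt
          omega
        · simp only [hf]
          rw [if_neg hzz]
          omega
    · refine ⟨0, fun z hz => ?_⟩
      have hx0 : f (0, col x) x = 1 + rank x := by
        simp only [hf]
        rw [if_pos ⟨hx, trivial⟩, if_pos trivial]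
      rw [hx0]
      simp only [hf]
      rw [if_neg fun h => hw ⟨z, hz, h.1, h.2⟩]
      omega
  obtain ⟨s, hs⟩ := key
  refine ⟨finProdFinEquiv (s, col x), fun z hz => ?_⟩
  simp only [Equiv.symm_apply_apply]
  exact hs z hz

end K9h63.RGO
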