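import Mathlib

/-!
# Random graph orders at `p = c/n` (MP_b735d7_co): definitions

`Le G` is the order of a graph `G` on a linearly ordered set (monotone paths). The exceptional
vertices `Exc G l R` have degree `≥ l + 4` or lie on a monotone path with `R` edges. `Near` is their
neighbourhood; inside it the graph consists of small tree-like components (with high probability).
-/

set_option autoImplicit false

namespace K9h63.RGO

open Finset

section det

variable {V : Type}

/-- one monotone step along an edge of `G` -/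
def Up [LinearOrder V] (G : SimpleGraph V) (a b : V) : Prop := a < b ∧ G.Adj a b

/-- the graph order (reflexive form): there is a monotone path from `a` to `b` -/
def Le [LinearOrder V] (G : SimpleGraph V) (a b : V) : Prop := Relation.ReflTransGen (Up G) a b

/-- the relation `P` is the intersection of `q` linear orders extending it -/
def DimLE (P : V → V → Prop) (q : ℕ) : Prop :=
  ∃ L : Fin q → V → V → Prop, (∀ i, IsLinearOrder V (L i)) ∧ (∀ i x y, P x y → L i x y) ∧
    ∀ x y, (∀ i, L i x y) → P x y

open Classical in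
/-- the degree -/
noncomputable def deg [Fintype V] (G : SimpleGraph V) (v : V) : ℕ :=
  (univ.filter fun u => G.Adj v u).card

/-- exceptional vertices: degree at least `l + 4`, or on a monotone path with `R` edges -/
def Exc [Fintype V] [LinearOrder V] (G : SimpleGraph V) (l R : ℕ) : Set V :=
  {v | l + 4 ≤ deg G v ∨ ∃ q : ℕ → V, (∀ k < R, Up G (q k) (q (k + 1))) ∧ ∃ k ≤ R, q k = v}

/-- the down-set generated by `W` -/
def Dn [LinearOrder V] (G : SimpleGraph V) (W : Set V) : Set V := {z | ∃ w ∈ W, Le G z w}

/-- the up-set generated by `W` -/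
def Upp [LinearOrder V] (G : SimpleGraph V) (W : Set V) : Set V := {y | ∃ w ∈ W, Le G w y}

/-- the vertices at distance at most `m` from `W` -/
def Near (G : SimpleGraph V) (W : Set V) (m : ℕ) : Set V :=
  {v | ∃ k ≤ m, ∃ u : ℕ → V, u 0 = v ∧ u k ∈ W ∧ ∀ j < k, G.Adj (u j) (u (j + 1))}

/-- the graph `G` with the edges inside `S` only -/
def Res (G : SimpleGraph V) (S : Set V) : SimpleGraph V where
  Adj a b := G.Adj a b ∧ a ∈ S ∧ b ∈ S
  symm := ⟨fun _ _ h => ⟨h.1.symm, h.2.2, h.2.1⟩⟩
  loopless := ⟨fun _ h => h.1.ne rfl⟩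

/-- a rooted breadth first forest of `Γ`: `rt` the root of the component, `par` the parent, `dep` the
depth (the distance to the root) -/
structure RF (Γ : SimpleGraph V) where
  rt : V → V
  par : V → V
  dep : V → ℕ
  rt_eq : ∀ a b, Γ.Adj a b → rt a = rt b
  root : ∀ v, dep v = 0 → rt v = v
  par_adj : ∀ v, dep v ≠ 0 → Γ.Adj (par v) v
  par_dep : ∀ v, dep v ≠ 0 → dep (par v) + 1 = dep v
  lip : ∀ a b, Γ.Adj a b → dep a ≤ dep b + 1

/-- `a b` is an edge of the forest -/
def RF.Tree {Γ : SimpleGraph V} (F : RF Γ) (a b : V) : Prop :=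
  (F.dep a ≠ 0 ∧ F.par a = b) ∨ (F.dep b ≠ 0 ∧ F.par b = a)

/-- at most one edge outside the forest in every component -/
def RF.One {Γ : SimpleGraph V} (F : RF Γ) : Prop :=
  ∀ a b c d, Γ.Adj a b → ¬ F.Tree a b → Γ.Adj c d → ¬ F.Tree c d → F.rt a = F.rt c →
    s(a, b) = s(c, d)

/-- `S` spans a connected subgraph: there is an edge out of every proper nonempty subset -/
def Linked (G : SimpleGraph V) (S : Finset V) : Prop :=
  ∀ T ⊆ S, T.Nonempty → T ≠ S → ∃ u ∈ T, ∃ v ∈ S, v ∉ T ∧ G.Adj u v

open Classical in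
/-- the number of edges inside `S` -/
noncomputable def eIn [LinearOrder V] (G : SimpleGraph V) (S : Finset V) : ℕ :=
  ((S ×ˢ S).filter fun e => e.1 < e.2 ∧ G.Adj e.1 e.2).card

/-- connected sets of at most `M` vertices span at most as many edges as vertices -/
def Sparse [LinearOrder V] (G : SimpleGraph V) (M : ℕ) : Prop :=
  ∀ S : Finset V, S.Nonempty → Linked G S → S.card ≤ M → eIn G S ≤ S.card

open Classical in
/-- A decoration near the index `i` of the path `v`, with the set `X` of new vertices: a monotone run of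
`l` edges of the path itself (`X = ∅`), or `t ≤ 2 R` steps `u 0 = v b, u 1, …, u t` followed by `l`
vertices which continue the path monotonically (`star = false`), or are neighbours of `u t`
(`star = true`, listed in increasing order). -/
def Deco [LinearOrder V] (G : SimpleGraph V) (l R : ℕ) (v : ℕ → V) (i : ℕ) (X : Finset V) : Prop :=
  ∃ b, i ≤ b + 3 * R ∧
    ((X = ∅ ∧ b + l ≤ i + 3 * R ∧
        (StrictMonoOn v (Set.Icc b (b + l)) ∨ StrictAntiOn v (Set.Icc b (b + l)))) ∨
      (b ≤ i + 3 * R ∧ ∃ (t : ℕ) (star : Bool) (u : ℕ → V), t ≤ 2 * R ∧ u 0 = v b ∧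
        (∀ k < t + l, G.Adj (u (if star = true then min k t else k)) (u (k + 1))) ∧
        Set.InjOn u (Set.Icc 1 (t + l)) ∧
        (StrictMonoOn u (Set.Icc (t + 1) (t + l)) ∨ StrictAntiOn u (Set.Icc (t + 1) (t + l))) ∧
        X = (Finset.Icc 1 (t + l)).image u))

/-- a path with `10 R r` edges and a decoration in each of its `r` blocks, all vertices distinct -/
def Str [LinearOrder V] (G : SimpleGraph V) (l R r : ℕ) : Prop :=
  ∃ (v : ℕ → V) (X : ℕ → Finset V),
    Set.InjOn v (Set.Iic (10 * R * r)) ∧ (∀ i < 10 * R * r, G.Adj (v i) (v (i + 1))) ∧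
    (∀ j < r, Deco G l R v (10 * R * j + 5 * R) (X j) ∧ ∀ k ≤ 10 * R * r, v k ∉ X j) ∧
    ∀ j < r, ∀ j' < r, j ≠ j' → Disjoint (X j) (X j')

end det

section prob

/-- the pairs `i < j` of `{0, …, n - 1}` -/
def pairs (n : ℕ) : Finset (Fin n × Fin n) := univ.filter fun e => e.1 < e.2

open Classical in
/-- the probability of the event `A` for the random set `E` of pairs which contains every pair
`i < j` independently with probability `p` -/
noncomputable def Pr (n : ℕ) (p : ℝ) (A : Finset (Fin n × Fin n) → Prop) : ℝ :=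
  ∑ E ∈ (pairs n).powerset.filter A, p ^ E.card * (1 - p) ^ ((pairs n).card - E.card)

/-- the graph with the edge set `E` -/
def gr {n : ℕ} (E : Finset (Fin n × Fin n)) : SimpleGraph (Fin n) :=
  SimpleGraph.fromRel fun a b => (a, b) ∈ E

end prob

end K9h63.RGO
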