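import Pool.Agent.K9h63.RGO.Stm

/-!
# Random graph orders (MP_b735d7_co): the deterministic theorem from the leaves
-/

set_option autoImplicit false

namespace K9h63.RGO.DET_

open Finset

variable {V : Type}

theorem le_of_res [LinearOrder V] {G : SimpleGraph V} {S : Set V} {a b : V} (h : Le (Res G S) a b) :
    Le G a b := by
  induction h with
  | refl => exact Relation.ReflTransGen.refl
  | tail _ h2 ih => exact ih.tail ⟨h2.1, h2.2.1⟩

/-- the pairs with `x` below an exceptional vertex -/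
theorem part (hpfl : S_PFL) (hnb : S_NB) (V : Type) [Fintype V] [LinearOrder V] (G : SimpleGraph V)
    (l R : ℕ) (F : RF (Res G (Near G (Exc G l R) (2 * R)))) (hF : F.One) :
    ∃ lam : Fin 8 → V → ℕ, ∀ x y, x ∈ Dn G (Exc G l R) → ¬ Le G x y →
      ∃ i, ∀ z, Le G z y → lam i z < lam i x := by
  classical
  obtain ⟨lam, h⟩ := hpfl V _ F hF
  refine ⟨fun i v => if v ∈ Dn G (Exc G l R) then lam i v + 1 else 0, fun x y hx hxy => ?_⟩
  obtain ⟨i, hi⟩ := h x y (fun hh => hxy (le_of_res hh))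
  refine ⟨i, fun z hz => ?_⟩
  show (if z ∈ Dn G (Exc G l R) then lam i z + 1 else 0) < (if x ∈ Dn G (Exc G l R) then lam i x + 1 else 0)
  rw [if_pos hx]
  split_ifs with hzD
  · have := hi z (hnb V G l R z y hzD hz)
    omega
  · omega

theorem up_dual [LinearOrder V] (G : SimpleGraph V) (a b : V) :
    Up (V := Vᵒᵈ) G a b ↔ Up G b a := by
  constructor
  · rintro ⟨h1, h2⟩
    exact ⟨h1, G.symm.symm _ _ h2⟩
  · rintro ⟨h1, h2⟩
    exact ⟨h1, G.symm.symm _ _ h2⟩

theorem le_dual [LinearOrder V] (G : SimpleGraph V) (a b : V) :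
    Le (V := Vᵒᵈ) G a b ↔ Le G b a := by
  constructor
  · intro h
    induction h with
    | refl => exact Relation.ReflTransGen.refl
    | tail _ h2 ih => exact Relation.ReflTransGen.head ((up_dual G _ _).1 h2) ih
  · intro h
    induction h with
    | refl => exact Relation.ReflTransGen.refl
    | tail _ h2 ih => exact Relation.ReflTransGen.head ((up_dual G _ _).2 h2) ih

theorem exc_dual [Fintype V] [LinearOrder V] (G : SimpleGraph V) (l R : ℕ) :
    (Exc (V := Vᵒᵈ) G l R : Set Vᵒᵈ) = (Exc G l R : Set V) := by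
  ext v
  constructor
  · rintro (h | ⟨q, hq, k, hk, rfl⟩)
    · exact Or.inl h
    · refine Or.inr ⟨fun j => q (R - j), fun j hj => ?_, R - k, Nat.sub_le _ _, ?_⟩
      · have h1 := (up_dual G _ _).1 (hq (R - (j + 1)) (by omega))
        rw [show R - (j + 1) + 1 = R - j by omega] at h1
        exact h1
      · show q (R - (R - k)) = q k
        rw [show R - (R - k) = k by omega]
  · rintro (h | ⟨q, hq, k, hk, rfl⟩)
    · exact Or.inl h
    · refine Or.inr ⟨fun j => q (R - j), fun j hj => ?_, R - k, Nat.sub_le _ _, ?_⟩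
      · have h1 := (hq (R - (j + 1)) (by omega))
        rw [show R - (j + 1) + 1 = R - j by omega] at h1
        exact (up_dual G _ _).2 h1
      · show q (R - (R - k)) = q k
        rw [show R - (R - k) = k by omega]

theorem part_dual (hpfl : S_PFL) (hnb : S_NB) (V : Type) [Fintype V] [LinearOrder V]
    (G : SimpleGraph V) (l R : ℕ) (F : RF (Res G (Near G (Exc G l R) (2 * R)))) (hF : F.One) :
    ∃ mu : Fin 8 → V → ℕ, ∀ x y, y ∈ Upp G (Exc G l R) → ¬ Le G x y →
      ∃ i, ∀ z, Le G x z → mu i z < mu i y := by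
  have hE : (Exc (V := Vᵒᵈ) G l R : Set Vᵒᵈ) = (Exc G l R : Set V) := exc_dual G l R
  obtain ⟨F', hF'⟩ : ∃ F' : RF (V := Vᵒᵈ) (Res (V := Vᵒᵈ) G (Near (V := Vᵒᵈ) G
      (Exc (V := Vᵒᵈ) G l R) (2 * R))), F'.One := by
    rw [hE]
    exact ⟨F, hF⟩
  obtain ⟨mu, h⟩ := part hpfl hnb Vᵒᵈ G l R F' hF'
  refine ⟨mu, fun x y hy hxy => ?_⟩
  have hm : y ∈ Dn (V := Vᵒᵈ) G (Exc (V := Vᵒᵈ) G l R) := by
    rw [hE]
    obtain ⟨w, hw, hwy⟩ := hy
    exact ⟨w, hw, (le_dual G _ _).2 hwy⟩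
  obtain ⟨i, hi⟩ := h y x hm (fun hh => hxy ((le_dual G _ _).1 hh))
  exact ⟨i, fun z hz => hi z ((le_dual G _ _).2 hz)⟩

theorem det (hdim : S_DIM) (hcol : S_COL) (hnb : S_NB) (hpfl : S_PFL) (hrf : S_RF) (hone : S_ONE)
    (hstra : S_STRA) : S_DET := by
  intro V _ _ G l R r M' hl hR hM hM2 hS hStr
  classical
  obtain ⟨F⟩ := hrf V (Res G (Near G (Exc G l R) (2 * R)))
  have hdep : ∀ v, F.dep v < 10 * R * r := by
    intro v
    by_contra h
    exact hStr (hstra V G l R r M' hl hR hM hS F v (not_lt.1 h))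
  have hF : F.One := hone V G _ F (10 * R * r) M' hS hdep hM2
  obtain ⟨l1, h1⟩ := part hpfl hnb V G l R F hF
  obtain ⟨mu, h2⟩ := part_dual hpfl hnb V G l R F hF
  obtain ⟨l0, h0⟩ := hcol V G l R (by omega)
  have key := hdim V G (2 * (((l + 4) ^ R) ^ 2 + 1) + 8) 8 (Fin.append l0 l1) mu ?_
  · rwa [show 2 * (((l + 4) ^ R) ^ 2 + 1) + 8 + 8 = 2 * (((l + 4) ^ R) ^ 2 + 1) + 16 by omega] at key
  · intro x y hxy
    by_cases hx : x ∈ Dn G (Exc G l R)
    · obtain ⟨i, hi⟩ := h1 x y hx hxy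
      refine Or.inl ⟨Fin.natAdd _ i, fun z hz => ?_⟩
      rw [Fin.append_right]
      exact hi z hz
    · by_cases hy : y ∈ Upp G (Exc G l R)
      · exact Or.inr (h2 x y hy hxy)
      · obtain ⟨i, hi⟩ := h0 x y hx hy hxy
        refine Or.inl ⟨Fin.castAdd _ i, fun z hz => ?_⟩
        rw [Fin.append_left]
        exact hi z hz

end K9h63.RGO.DET_
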