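import Pool.Agent.K9h63.RGO.Stm

/-! # Random graph orders: the leaf `DIM` -/

set_option autoImplicit false

namespace K9h63.RGO.DIM_

open Finset K9h63.RGO

/-- the linear order of a function with values in a linear order -/
theorem lin {V W : Type} [LinearOrder W] (f : V → W) (hf : Function.Injective f) :
    IsLinearOrder V (fun u v => f u ≤ f v) :=
  { refl := fun _ => le_refl _
    trans := fun _ _ _ h1 h2 => le_trans h1 h2
    antisymm := fun _ _ h1 h2 => hf (le_antisymm h1 h2)
    total := fun _ _ => le_total _ _ }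

theorem le_of_Le {V : Type} [LinearOrder V] {G : SimpleGraph V} {u v : V} (h : Le G u v) : u ≤ v := by
  induction h with
  | refl => exact le_refl _
  | tail _ h ih => exact ih.trans h.1.le

open Classical in
/-- the largest value on the down-set -/
noncomputable def mx {V : Type} [Fintype V] [LinearOrder V] (G : SimpleGraph V) (lam : V → ℕ)
    (u : V) : ℕ := (univ.filter fun z => Le G z u).sup lam

open Classical in
/-- the largest value on the up-set -/
noncomputable def mn {V : Type} [Fintype V] [LinearOrder V] (G : SimpleGraph V) (mu : V → ℕ)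
    (u : V) : ℕ := (univ.filter fun z => Le G u z).sup mu

section
variable {V : Type} [Fintype V] [LinearOrder V] {G : SimpleGraph V}

theorem le_mx {lam : V → ℕ} {z u : V} (h : Le G z u) : lam z ≤ mx G lam u := by
  classical
  unfold mx
  exact Finset.le_sup (f := lam) (mem_filter.2 ⟨mem_univ _, h⟩)

theorem le_mn {mu : V → ℕ} {z u : V} (h : Le G u z) : mu z ≤ mn G mu u := by
  classical
  unfold mn
  exact Finset.le_sup (f := mu) (mem_filter.2 ⟨mem_univ _, h⟩)

theorem mx_le {lam : V → ℕ} {u : V} {c : ℕ} (h : ∀ z, Le G z u → lam z ≤ c) : mx G lam u ≤ c := by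
  classical
  unfold mx
  exact Finset.sup_le fun z hz => h z (mem_filter.1 hz).2

theorem mn_le {mu : V → ℕ} {u : V} {c : ℕ} (h : ∀ z, Le G u z → mu z ≤ c) : mn G mu u ≤ c := by
  classical
  unfold mn
  exact Finset.sup_le fun z hz => h z (mem_filter.1 hz).2

/-- the first family of linear orders -/
def L1 (G : SimpleGraph V) (lam : V → ℕ) (u v : V) : Prop :=
  toLex (mx G lam u, u) ≤ toLex (mx G lam v, v)

/-- the second family -/
def L2 (G : SimpleGraph V) (mu : V → ℕ) (u v : V) : Prop :=
  OrderDual.toDual (toLex (mn G mu u, OrderDual.toDual u)) ≤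
    OrderDual.toDual (toLex (mn G mu v, OrderDual.toDual v))

theorem L1_lin (lam : V → ℕ) : IsLinearOrder V (L1 G lam) := by
  apply lin (fun u => toLex (mx G lam u, u))
  intro u v h
  have := congrArg ofLex h
  exact (Prod.ext_iff.1 this).2

theorem L2_lin (mu : V → ℕ) : IsLinearOrder V (L2 G mu) := by
  apply lin (fun u => OrderDual.toDual (toLex (mn G mu u, OrderDual.toDual u)))
  intro u v h
  have h1 := congrArg OrderDual.ofDual h
  have := congrArg ofLex h1
  exact (Prod.ext_iff.1 this).2

theorem L1_ext {lam : V → ℕ} {u v : V} (h : Le G u v) : L1 G lam u v := by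
  unfold L1
  rw [Prod.Lex.toLex_le_toLex]
  have h1 : mx G lam u ≤ mx G lam v := mx_le fun z hz => le_mx (Relation.ReflTransGen.trans hz h)
  rcases h1.lt_or_eq with h2 | h2
  · exact Or.inl h2
  · exact Or.inr ⟨h2, le_of_Le h⟩

theorem L2_ext {mu : V → ℕ} {u v : V} (h : Le G u v) : L2 G mu u v := by
  unfold L2
  rw [OrderDual.toDual_le_toDual, Prod.Lex.toLex_le_toLex]
  have h1 : mn G mu v ≤ mn G mu u := mn_le fun z hz => le_mn (Relation.ReflTransGen.trans h hz)
  rcases h1.lt_or_eq with h2 | h2
  · exact Or.inl h2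
  · exact Or.inr ⟨h2, OrderDual.toDual_le_toDual.2 (le_of_Le h)⟩

theorem L1_not {lam : V → ℕ} {x y : V} (h : ∀ z, Le G z y → lam z < lam x) : ¬ L1 G lam x y := by
  have h0 : 0 < lam x := by
    have := h y Relation.ReflTransGen.refl
    omega
  have h1 : mx G lam y ≤ lam x - 1 := mx_le fun z hz => by have := h z hz; omega
  have h2 : lam x ≤ mx G lam x := le_mx Relation.ReflTransGen.refl
  unfold L1
  rw [Prod.Lex.toLex_le_toLex]
  rintro (h3 | h3)
  · simp only at h3
    omega
  · have := h3.1
    simp only at this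
    omega

theorem L2_not {mu : V → ℕ} {x y : V} (h : ∀ z, Le G x z → mu z < mu y) : ¬ L2 G mu x y := by
  have h0 : 0 < mu y := by
    have := h x Relation.ReflTransGen.refl
    omega
  have h1 : mn G mu x ≤ mu y - 1 := mn_le fun z hz => by have := h z hz; omega
  have h2 : mu y ≤ mn G mu y := le_mn Relation.ReflTransGen.refl
  unfold L2
  rw [OrderDual.toDual_le_toDual, Prod.Lex.toLex_le_toLex]
  rintro (h3 | h3)
  · simp only at h3
    omega
  · have := h3.1
    simp only at this
    omega

end

/-- the family -/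
def LL {V : Type} [Fintype V] [LinearOrder V] (G : SimpleGraph V) {q₁ q₂ : ℕ}
    (lam : Fin q₁ → V → ℕ) (mu : Fin q₂ → V → ℕ) (i : Fin (q₁ + q₂)) : V → V → Prop :=
  Fin.addCases (motive := fun _ => V → V → Prop) (fun i => L1 G (lam i)) (fun j => L2 G (mu j)) i

theorem LL_left {V : Type} [Fintype V] [LinearOrder V] (G : SimpleGraph V) {q₁ q₂ : ℕ}
    (lam : Fin q₁ → V → ℕ) (mu : Fin q₂ → V → ℕ) (i : Fin q₁) :
    LL G lam mu (Fin.castAdd q₂ i) = L1 G (lam i) := by
  unfold LL
  rw [Fin.addCases_left]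

theorem LL_right {V : Type} [Fintype V] [LinearOrder V] (G : SimpleGraph V) {q₁ q₂ : ℕ}
    (lam : Fin q₁ → V → ℕ) (mu : Fin q₂ → V → ℕ) (j : Fin q₂) :
    LL G lam mu (Fin.natAdd q₁ j) = L2 G (mu j) := by
  unfold LL
  rw [Fin.addCases_right]

theorem LL_ind {V : Type} [Fintype V] [LinearOrder V] (G : SimpleGraph V) {q₁ q₂ : ℕ}
    (lam : Fin q₁ → V → ℕ) (mu : Fin q₂ → V → ℕ) (C : (V → V → Prop) → Prop)
    (h1 : ∀ i, C (L1 G (lam i))) (h2 : ∀ j, C (L2 G (mu j))) (i : Fin (q₁ + q₂)) :
    C (LL G lam mu i) := by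
  refine Fin.addCases (motive := fun i => C (LL G lam mu i)) (fun i => ?_) (fun j => ?_) i
  · rw [LL_left]
    exact h1 i
  · rw [LL_right]
    exact h2 j

theorem dim : S_DIM := by
  intro V _ _ G q₁ q₂ lam mu h
  refine ⟨LL G lam mu, ?_, ?_, ?_⟩
  · exact LL_ind G lam mu _ (fun i => L1_lin _) (fun j => L2_lin _)
  · intro i x y hxy
    exact LL_ind G lam mu (fun L => L x y) (fun i => L1_ext hxy) (fun j => L2_ext hxy) i
  · intro x y hL
    by_contra hxy
    rcases h x y hxy with ⟨i, hi⟩ | ⟨j, hj⟩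
    · have := hL (Fin.castAdd q₂ i)
      rw [LL_left] at this
      exact L1_not hi this
    · have := hL (Fin.natAdd q₁ j)
      rw [LL_right] at this
      exact L2_not hj this

end K9h63.RGO.DIM_
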