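import Pool.Agent.K9h63.RGO.Stm

/-!
# Leaf FOR: the order of a rooted forest
-/

set_option autoImplicit false
set_option linter.unusedSectionVars false

namespace K9h63.RGO

open Finset

namespace ForL

/-! ## Lists -/

/-- the code `low` of a list of signs -/
def Lo : List Bool → List ℤ
  | [] => [0]
  | s :: l => (if s then 1 else if (∀ t ∈ l, t = false) then -1 else 2) :: Lo l

theorem Lo_lt (c w u : List Bool) (hu : true ∈ u) (h : Lo w < Lo u) : Lo (c ++ w) < Lo (c ++ u) := by
  induction c with
  | nil => exact h
  | cons s c ih =>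
    rw [List.cons_append, List.cons_append, Lo, Lo, List.cons_lt_cons_iff]
    cases s with
    | true => exact Or.inr ⟨rfl, ih⟩
    | false =>
      have h1 : ¬ ∀ t ∈ c ++ u, t = false := fun h => by
        have := h true (List.mem_append_right _ hu)
        simp at this
      rw [if_neg h1]
      by_cases h2 : ∀ t ∈ c ++ w, t = false
      · left
        rw [if_pos h2]
        simp
      · right
        rw [if_neg h2]
        exact ⟨rfl, ih⟩

theorem Lo_snoc_true (c : List Bool) : Lo c < Lo (c ++ [true]) := by
  have := Lo_lt c [] [true] (by simp) (by simp [Lo, List.cons_lt_cons_iff])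
  rwa [List.append_nil] at this

theorem Lo_snoc_false (c : List Bool) : Lo (c ++ [false]) < Lo c := by
  induction c with
  | nil => simp [Lo, List.cons_lt_cons_iff]
  | cons s c ih =>
    rw [List.cons_append, Lo, Lo, List.cons_lt_cons_iff]
    right
    refine ⟨?_, ih⟩
    have : (∀ t ∈ c ++ [false], t = false) ↔ ∀ t ∈ c, t = false := by
      constructor
      · intro h t ht
        exact h t (List.mem_append_left _ ht)
      · intro h t ht
        rcases List.mem_append.1 ht with ht | ht
        · exact h t ht
        · simpa using ht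
    simp only [this]

/-- `u` contains `true` and begins with `false`, or the other list is empty -/
theorem Lo_big (w u : List Bool) (hu : true ∈ u) (h : w = [] ∨ (u.head? = some false ∧
    w.head? = some true)) : Lo w < Lo u := by
  rcases h with rfl | ⟨h1, h2⟩
  · cases u with
    | nil => simp at hu
    | cons s u =>
      rw [Lo, Lo, List.cons_lt_cons_iff]
      left
      cases s with
      | true => simp
      | false =>
        have : ¬ ∀ t ∈ u, t = false := fun h => by
          have := h true (by simpa using hu)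
          simp at this
        rw [if_neg this]
        simp
  · cases u with
    | nil => simp at hu
    | cons s u =>
      cases w with
      | nil => simp at h2
      | cons s' w =>
        simp only [List.head?_cons, Option.some.injEq] at h1 h2
        subst h1 h2
        rw [Lo, Lo, List.cons_lt_cons_iff]
        left
        have : ¬ ∀ t ∈ u, t = false := fun h => by
          have := h true (by simpa using hu)
          simp at this
        rw [if_neg this]
        simp

/-- last common prefix -/
theorem split {α : Type} (l l' : List α) : ∃ c u w, l = c ++ u ∧ l' = c ++ w ∧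
    (u = [] ∨ w = [] ∨ ∃ a b u' w', u = a :: u' ∧ w = b :: w' ∧ a ≠ b) := by
  classical
  induction l generalizing l' with
  | nil => exact ⟨[], [], l', rfl, rfl, Or.inl rfl⟩
  | cons a l ih =>
    cases l' with
    | nil => exact ⟨[], a :: l, [], rfl, rfl, Or.inr (Or.inl rfl)⟩
    | cons b l' =>
      by_cases h : a = b
      · subst h
        obtain ⟨c, u, w, h1, h2, h3⟩ := ih l'
        exact ⟨a :: c, u, w, by rw [h1]; rfl, by rw [h2]; rfl, h3⟩
      · exact ⟨[], a :: l, b :: l', rfl, rfl, Or.inr (Or.inr ⟨a, b, l, l', rfl, rfl, h⟩)⟩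

/-- the code `α` of a list -/
def Al {α : Type} (e : α → ℤ) (l : List α) : List ℤ := l.map e ++ [0]

theorem Al_lt {α : Type} (e : α → ℤ) (c w u : List α) (h : Al e w < Al e u) :
    Al e (c ++ w) < Al e (c ++ u) := by
  unfold Al at *
  rw [List.map_append, List.map_append, List.append_assoc, List.append_assoc]
  exact List.append_left_lt h

/-- ranks -/
theorem rk {V C : Type} [Fintype V] [LinearOrder C] (f : V → C) :
    ∃ lam : V → ℕ, ∀ a b, f a < f b → lam a < lam b := by
  classical
  refine ⟨fun v => (univ.filter fun w => f w < f v).card, fun a b h => ?_⟩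
  refine card_lt_card ⟨fun w hw => ?_, fun hs => ?_⟩
  · rw [mem_filter] at hw ⊢
    exact ⟨hw.1, hw.2.trans h⟩
  · have h1 := hs (show a ∈ univ.filter fun w => f w < f b by simp [h])
    rw [mem_filter] at h1
    exact lt_irrefl _ h1.2

/-! ## Root paths -/

variable {V : Type} [Fintype V] [LinearOrder V] {Γ : SimpleGraph V} (F : RF Γ)

/-- the path from the root, without the root -/
def P (v : V) : List V :=
  if _h : F.dep v = 0 then [] else P (F.par v) ++ [v]
termination_by F.dep v
decreasing_by
  have := F.par_dep v ‹_›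
  omega

theorem P_root {v : V} (h : F.dep v = 0) : P F v = [] := by
  rw [P, dif_pos h]

theorem P_child {v : V} (h : F.dep v ≠ 0) : P F v = P F (F.par v) ++ [v] := by
  rw [P, dif_neg h]

/-- the sign -/
def sg (v : V) : Bool := decide (F.par v < v)

theorem rt_par {v : V} (h : F.dep v ≠ 0) : F.rt (F.par v) = F.rt v :=
  F.rt_eq _ _ (F.par_adj v h)

/-- a step up in the forest -/
theorem step_iff {a b : V} : (a < b ∧ F.Tree a b) ↔
    (F.dep b ≠ 0 ∧ F.par b = a ∧ sg F b = true) ∨ (F.dep a ≠ 0 ∧ F.par a = b ∧ sg F a = false) := by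
  unfold RF.Tree sg
  constructor
  · rintro ⟨h, ⟨h1, h2⟩ | ⟨h1, h2⟩⟩
    · right
      refine ⟨h1, h2, ?_⟩
      rw [h2, decide_eq_false_iff_not]
      exact not_lt.2 h.le
    · left
      refine ⟨h1, h2, ?_⟩
      rw [h2, decide_eq_true_iff]
      exact h
  · rintro (⟨h1, h2, h3⟩ | ⟨h1, h2, h3⟩)
    · rw [h2, decide_eq_true_iff] at h3
      exact ⟨h3, Or.inr ⟨h1, h2⟩⟩
    · rw [h2, decide_eq_false_iff_not] at h3
      have h4 : Γ.Adj (F.par a) a := F.par_adj a h1
      rw [h2] at h4
      exact ⟨lt_of_le_of_ne (not_lt.1 h3) h4.ne', Or.inl ⟨h1, h2⟩⟩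

theorem LeT_rt {a b : V} (h : LeT F a b) : F.rt a = F.rt b := by
  unfold LeT at h
  induction h with
  | refl => rfl
  | tail _ h ih =>
    rw [ih]
    rcases (step_iff F).1 h with ⟨h1, h2, -⟩ | ⟨h1, h2, -⟩
    · rw [← h2]
      exact rt_par F h1
    · rw [← h2]
      exact (rt_par F h1).symm

/-- a code which is monotone along the steps is monotone -/
theorem LeT_mono {C : Type} [LinearOrder C] (f : V → C)
    (h1 : ∀ v, F.dep v ≠ 0 → sg F v = true → f (F.par v) ≤ f v)
    (h2 : ∀ v, F.dep v ≠ 0 → sg F v = false → f v ≤ f (F.par v)) {a b : V} (h : LeT F a b) :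
    f a ≤ f b := by
  unfold LeT at h
  induction h with
  | refl => exact le_refl _
  | tail _ h ih =>
    refine ih.trans ?_
    rcases (step_iff F).1 h with ⟨h3, h4, h5⟩ | ⟨h3, h4, h5⟩
    · rw [← h4]
      exact h1 _ h3 h5
    · rw [← h4]
      exact h2 _ h3 h5

/-- the vertex of a prefix -/
def vt (r : V) (c : List V) : V := c.getLast?.getD r

theorem vt_P (v : V) : vt (F.rt v) (P F v) = v := by
  by_cases h : F.dep v = 0
  · rw [P_root F h]
    exact F.root v h
  · rw [P_child F h, vt, List.getLast?_append]
    simp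

theorem down (n : ℕ) : ∀ (x : V) (c u : List V), F.dep x = n → P F x = c ++ u →
    (∀ a ∈ u, sg F a = false) → LeT F x (vt (F.rt x) c) := by
  induction n with
  | zero =>
    intro x c u hn h hu
    rw [P_root F hn] at h
    obtain ⟨rfl, rfl⟩ := List.append_eq_nil_iff.1 h.symm
    have := F.root x hn
    unfold vt
    simp only [List.getLast?_nil, Option.getD_none]
    rw [this]
    exact Relation.ReflTransGen.refl
  | succ n ih =>
    intro x c u hn h hu
    have h0 : F.dep x ≠ 0 := by omega
    rcases List.eq_nil_or_concat u with rfl | ⟨u', b, rfl⟩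
    · rw [List.append_nil] at h
      rw [← h, vt_P]
      exact Relation.ReflTransGen.refl
    · rw [P_child F h0, List.concat_eq_append, ← List.append_assoc] at h
      rw [List.concat_eq_append] at hu
      obtain ⟨h1, h2⟩ := List.append_inj' h rfl
      have h3 : x = b := by simpa using h2
      subst h3
      have h4 := ih (F.par x) c u' (by have := F.par_dep x h0; omega) h1
        (fun a ha => hu a (by simp [ha]))
      rw [rt_par F h0] at h4
      refine Relation.ReflTransGen.head ?_ h4
      exact (step_iff F).2 (Or.inr ⟨h0, rfl, hu x (by simp)⟩)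

theorem up (n : ℕ) : ∀ (x : V) (c u : List V), F.dep x = n → P F x = c ++ u →
    (∀ a ∈ u, sg F a = true) → LeT F (vt (F.rt x) c) x := by
  induction n with
  | zero =>
    intro x c u hn h hu
    rw [P_root F hn] at h
    obtain ⟨rfl, rfl⟩ := List.append_eq_nil_iff.1 h.symm
    have := F.root x hn
    unfold vt
    simp only [List.getLast?_nil, Option.getD_none]
    rw [this]
    exact Relation.ReflTransGen.refl
  | succ n ih =>
    intro x c u hn h hu
    have h0 : F.dep x ≠ 0 := by omega
    rcases List.eq_nil_or_concat u with rfl | ⟨u', b, rfl⟩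
    · rw [List.append_nil] at h
      rw [← h, vt_P]
      exact Relation.ReflTransGen.refl
    · rw [P_child F h0, List.concat_eq_append, ← List.append_assoc] at h
      rw [List.concat_eq_append] at hu
      obtain ⟨h1, h2⟩ := List.append_inj' h rfl
      have h3 : x = b := by simpa using h2
      subst h3
      have h4 := ih (F.par x) c u' (by have := F.par_dep x h0; omega) h1
        (fun a ha => hu a (by simp [ha]))
      rw [rt_par F h0] at h4
      refine Relation.ReflTransGen.tail h4 ?_
      exact (step_iff F).2 (Or.inl ⟨h0, rfl, hu x (by simp)⟩)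

/-! ## The codes -/

/-- the entry of the code `α` -/
def en (r : V → ℕ) (v : V) : ℤ := if sg F v then (r v : ℤ) + 1 else -((r v : ℤ) + 1)

/-- the code `α` for the ranks `r` -/
def ca (r : V → ℕ) (v : V) : List ℤ := (r (F.rt v) : ℤ) :: Al (en F r) (P F v)

/-- the code `low` for the signs `s` -/
def cl (s : V → Bool) (v : V) : List ℤ := Lo ((P F v).map s)

theorem ca_mono (r : V → ℕ) {a b : V} (h : LeT F a b) : ca F r a ≤ ca F r b := by
  refine LeT_mono F _ (fun v h0 hs => ?_) (fun v h0 hs => ?_) h
  · refine le_of_lt ?_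
    rw [ca, ca, rt_par F h0, List.cons_lt_cons_iff]
    refine Or.inr ⟨rfl, ?_⟩
    rw [P_child F h0]
    have := Al_lt (en F r) (P F (F.par v)) [] [v] (by
      simp only [Al, List.map_nil, List.nil_append, List.map_cons, List.cons_append, List.cons_lt_cons_iff,
        en, hs, if_true]
      left
      positivity)
    rwa [List.append_nil] at this
  · refine le_of_lt ?_
    rw [ca, ca, rt_par F h0, List.cons_lt_cons_iff]
    refine Or.inr ⟨rfl, ?_⟩
    rw [P_child F h0]
    have := Al_lt (en F r) (P F (F.par v)) [v] [] (by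
      simp only [Al, List.map_nil, List.nil_append, List.map_cons, List.cons_append, List.cons_lt_cons_iff,
        en, hs]
      left
      simp only [Bool.false_eq_true, if_false]
      omega)
    rwa [List.append_nil] at this

theorem cl_mono {a b : V} (h : LeT F a b) : cl F (sg F) a ≤ cl F (sg F) b := by
  refine LeT_mono F _ (fun v h0 hs => ?_) (fun v h0 hs => ?_) h
  · refine le_of_lt ?_
    rw [cl, cl, P_child F h0, List.map_append, List.map_cons, List.map_nil, hs]
    exact Lo_snoc_true _
  · refine le_of_lt ?_
    rw [cl, cl, P_child F h0, List.map_append, List.map_cons, List.map_nil, hs]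
    exact Lo_snoc_false _

theorem ch_mono {a b : V} (h : LeT F a b) :
    OrderDual.toDual (cl F (fun v => !sg F v) a) ≤ OrderDual.toDual (cl F (fun v => !sg F v) b) := by
  refine LeT_mono F (fun v => OrderDual.toDual (cl F (fun v => !sg F v) v))
    (fun v h0 hs => ?_) (fun v h0 hs => ?_) h
  · refine OrderDual.toDual_le_toDual.2 (le_of_lt ?_)
    rw [cl, cl, P_child F h0, List.map_append, List.map_cons, List.map_nil, hs]
    exact Lo_snoc_false _
  · refine OrderDual.toDual_le_toDual.2 (le_of_lt ?_)
    rw [cl, cl, P_child F h0, List.map_append, List.map_cons, List.map_nil, hs]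
    exact Lo_snoc_true _

/-- the four codes realise the order in a component -/
theorem real {r r' : V → ℕ} (hr : ∀ a b, a ≠ b → r a < r b ∨ r' a < r' b)
    (hr2 : ∀ a b, r a < r b ↔ r' b < r' a) (x y : V)
    (hrt : F.rt x = F.rt y) (hn : ¬ LeT F x y) :
    ca F r y < ca F r x ∨ ca F r' y < ca F r' x ∨ cl F (sg F) y < cl F (sg F) x ∨
      cl F (fun v => !sg F v) x < cl F (fun v => !sg F v) y := by
  obtain ⟨c, u, w, hx, hy, h⟩ := split (P F x) (P F y)
  -- not all signs are right
  have key : (∃ a ∈ u, sg F a = true) ∨ ∃ a ∈ w, sg F a = false := by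
    by_contra hcon
    push Not at hcon
    apply hn
    have h1 := down F _ x c u rfl hx (fun a ha => by simpa using hcon.1 a ha)
    have h2 := up F _ y c w rfl hy (fun a ha => by simpa using hcon.2 a ha)
    rw [← hrt] at h2
    exact Relation.ReflTransGen.trans h1 h2
  -- the code `α`
  have hA : ∀ ρ : V → ℕ, Al (en F ρ) w < Al (en F ρ) u → ca F ρ y < ca F ρ x := by
    intro ρ h1
    rw [ca, ca, hrt, List.cons_lt_cons_iff]
    refine Or.inr ⟨rfl, ?_⟩
    rw [hx, hy]
    exact Al_lt _ _ _ _ h1
  -- the code `low`
  have hL : (∃ a ∈ u, sg F a = true) → (w = [] ∨ ((u.map (sg F)).head? = some false ∧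
      (w.map (sg F)).head? = some true)) → cl F (sg F) y < cl F (sg F) x := by
    rintro ⟨a, ha, hsa⟩ h2
    have h3 : true ∈ u.map (sg F) := List.mem_map.2 ⟨a, ha, hsa⟩
    rw [cl, cl, hx, hy, List.map_append, List.map_append]
    refine Lo_lt _ _ _ h3 (Lo_big _ _ h3 ?_)
    rcases h2 with rfl | h2
    · exact Or.inl rfl
    · exact Or.inr h2
  -- the dual code
  have hH : (∃ a ∈ w, sg F a = false) → (u = [] ∨ ((w.map (sg F)).head? = some true ∧
      (u.map (sg F)).head? = some false)) →
      cl F (fun v => !sg F v) x < cl F (fun v => !sg F v) y := by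
    rintro ⟨a, ha, hsa⟩ h2
    have h3 : true ∈ w.map (fun v => !sg F v) := List.mem_map.2 ⟨a, ha, by simp [hsa]⟩
    rw [cl, cl, hx, hy, List.map_append, List.map_append]
    refine Lo_lt _ _ _ h3 (Lo_big _ _ h3 ?_)
    rcases h2 with rfl | ⟨h2, h4⟩
    · exact Or.inl rfl
    · refine Or.inr ⟨?_, ?_⟩
      · rw [List.head?_map] at h2 ⊢
        obtain ⟨b, hb, hb2⟩ := Option.map_eq_some_iff.1 h2
        rw [hb]
        simp [hb2]
      · rw [List.head?_map] at h4 ⊢
        obtain ⟨b, hb, hb2⟩ := Option.map_eq_some_iff.1 h4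
        rw [hb]
        simp [hb2]
  rcases h with rfl | rfl | ⟨a, b, u', w', rfl, rfl, hab⟩
  · -- `x` is an ancestor of `y`
    obtain ⟨a, ha, -⟩ | hw := key
    · simp at ha
    exact Or.inr (Or.inr (Or.inr (hH hw (Or.inl rfl))))
  · obtain hu | ⟨a, ha, -⟩ := key
    · exact Or.inr (Or.inr (Or.inl (hL hu (Or.inl rfl))))
    · simp at ha
  · have hAlt : ∀ ρ : V → ℕ, en F ρ b < en F ρ a → Al (en F ρ) (b :: w') < Al (en F ρ) (a :: u') := by
      intro ρ h1
      unfold Al
      rw [List.map_cons, List.map_cons, List.cons_append, List.cons_append, List.cons_lt_cons_iff]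
      exact Or.inl h1
    cases hsa : sg F a with
    | true =>
      cases hsb : sg F b with
      | true =>
        rcases hr b a hab.symm with h1 | h1
        · refine Or.inl (hA _ (hAlt _ ?_))
          simp only [en, hsa, hsb, if_true]
          omega
        · refine Or.inr (Or.inl (hA _ (hAlt _ ?_)))
          simp only [en, hsa, hsb, if_true]
          omega
      | false =>
        refine Or.inl (hA _ (hAlt _ ?_))
        simp only [en, hsa, hsb, if_true, Bool.false_eq_true, if_false]
        omega
    | false =>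
      cases hsb : sg F b with
      | true =>
        rcases key with h1 | h1
        · exact Or.inr (Or.inr (Or.inl (hL h1 (Or.inr ⟨by simp [hsa], by simp [hsb]⟩))))
        · exact Or.inr (Or.inr (Or.inr (hH h1 (Or.inr ⟨by simp [hsb], by simp [hsa]⟩))))
      | false =>
        rcases hr b a hab.symm with h1 | h1
        · have h2 := (hr2 b a).1 h1
          refine Or.inr (Or.inl (hA _ (hAlt _ ?_)))
          simp only [en, hsa, hsb, Bool.false_eq_true, if_false]
          omega
        · have h2 := (hr2 a b).2 h1
          refine Or.inl (hA _ (hAlt _ ?_))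
          simp only [en, hsa, hsb, Bool.false_eq_true, if_false]
          omega

end ForL

open ForL in
theorem for_ : S_FOR := by
  intro V _ _ Γ F
  classical
  let r : V → ℕ := fun v => (univ.filter fun w => w < v).card
  let r' : V → ℕ := fun v => (univ.filter fun w => v < w).card
  have hr1 : ∀ a b, a < b → r a < r b := by
    intro a b h
    refine card_lt_card ⟨fun w hw => ?_, fun hs => ?_⟩
    · rw [mem_filter] at hw ⊢
      exact ⟨hw.1, hw.2.trans h⟩
    · have h1 := hs (show a ∈ univ.filter fun w => w < b by simp [h])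
      rw [mem_filter] at h1
      exact lt_irrefl _ h1.2
  have hr1' : ∀ a b, a < b → r' b < r' a := by
    intro a b h
    refine card_lt_card ⟨fun w hw => ?_, fun hs => ?_⟩
    · rw [mem_filter] at hw ⊢
      exact ⟨hw.1, h.trans hw.2⟩
    · have h1 := hs (show b ∈ univ.filter fun w => a < w by simp [h])
      rw [mem_filter] at h1
      exact lt_irrefl _ h1.2
  have hr : ∀ a b, a ≠ b → r a < r b ∨ r' a < r' b := by
    intro a b h
    rcases lt_or_gt_of_ne h with h | h
    · exact Or.inl (hr1 _ _ h)
    · exact Or.inr (hr1' _ _ h)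
  have hr2 : ∀ a b, r a < r b ↔ r' b < r' a := by
    intro a b
    rcases lt_trichotomy a b with h | h | h
    · exact ⟨fun _ => hr1' _ _ h, fun _ => hr1 _ _ h⟩
    · subst h
      simp
    · have h1 := hr1 _ _ h
      have h2 := hr1' _ _ h
      constructor <;> intro h3 <;> omega
  obtain ⟨l0, h0⟩ := rk (ca F r)
  obtain ⟨l1, h1⟩ := rk (ca F r')
  obtain ⟨l2, h2⟩ := rk (cl F (sg F))
  obtain ⟨l3, h3⟩ := rk (fun v => OrderDual.toDual (cl F (fun v => !sg F v) v))
  refine ⟨![l0, l1, l2, l3], fun x y hrt hn => ?_, fun x y hrt => ?_⟩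
  · rcases real F hr hr2 x y hrt hn with h | h | h | h
    · exact ⟨0, fun z hz => h0 _ _ ((ca_mono F r hz).trans_lt h)⟩
    · exact ⟨1, fun z hz => h1 _ _ ((ca_mono F r' hz).trans_lt h)⟩
    · exact ⟨2, fun z hz => h2 _ _ ((cl_mono F hz).trans_lt h)⟩
    · exact ⟨3, fun z hz => h3 _ _ ((ch_mono F hz).trans_lt (OrderDual.toDual_lt_toDual.2 h))⟩
  · rcases hr (F.rt y) (F.rt x) (Ne.symm hrt) with h | h
    · refine ⟨0, fun z hz => h0 _ _ ?_⟩
      rw [ca, ca, hz, List.cons_lt_cons_iff]
      left
      exact_mod_cast h
    · refine ⟨1, fun z hz => h1 _ _ ?_⟩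
      rw [ca, ca, hz, List.cons_lt_cons_iff]
      left
      exact_mod_cast h

end K9h63.RGO
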