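import Pool.Agent.K9h63.RGO.Geo2

/-!
# Random graph orders (MP_b735d7_co), leaf GEO, part 3: the path to the exceptional set, star, final
-/

set_option autoImplicit false

namespace K9h63.RGO.GEO_

open Finset

variable {V : Type}

/-- the path from the geodesic to `W`, after its last visit of the geodesic -/
def Leave [LinearOrder V] (G : SimpleGraph V) (W : Set V) (R N : ℕ) (f : V → ℕ) (v : ℕ → V)
    (i b t : ℕ) (κ : ℕ → V) : Prop :=
  b ≤ N ∧ i ≤ b + 2 * R ∧ b ≤ i + 2 * R ∧ t ≤ 2 * R ∧ κ 0 = v b ∧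
    (∀ j < t, G.Adj (κ j) (κ (j + 1))) ∧ κ t ∈ W ∧ (∀ j < t, κ j ∉ W) ∧
    (∀ j, 1 ≤ j → j ≤ t → ∀ x ≤ N, v x ≠ κ j) ∧
    (∀ s s', s < s' → s' ≤ t → κ s ≠ κ s') ∧ (∀ s, s + 1 < t → ¬ G.Adj (κ t) (κ s)) ∧
    (∀ j ≤ t, i ≤ f (κ j) + 2 * R ∧ f (κ j) ≤ i + 2 * R)

theorem exists_leave [LinearOrder V] {G : SimpleGraph V} {W : Set V} {R N : ℕ} {f : V → ℕ}
    {v : ℕ → V} (hf : ∀ a b, (Res G (Near G W (2 * R))).Adj a b → f a ≤ f b + 1)
    (hv : ∀ i ≤ N, f (v i) = i ∧ v i ∈ Near G W (2 * R)) {i : ℕ} (hi : i ≤ N) :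
    ∃ b t κ, Leave G W R N f v i b t κ := by
  classical
  obtain ⟨t, κ, ht, h0, hW, hadj, hnW, hN, hinj, hna⟩ := shortest (hv i hi).2
  -- f along κ
  have hfk : ∀ s ≤ t, i ≤ f (κ s) + s ∧ f (κ s) ≤ i + s := by
    intro s
    induction s with
    | zero =>
      intro _
      rw [h0, (hv i hi).1]; omega
    | succ s ih =>
      intro hs
      have h1 := ih (by omega)
      have h2 := hf (κ s) (κ (s + 1)) ⟨hadj s (by omega), hN s (by omega), hN _ hs⟩
      have h3 := hf (κ (s + 1)) (κ s) ⟨(hadj s (by omega)).symm, hN _ hs, hN s (by omega)⟩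
      omega
  -- the last visit
  have hex : ∃ s, s ≤ t ∧ ∃ x ≤ N, v x = κ (t - s) := by
    refine ⟨t, le_rfl, i, hi, ?_⟩
    rw [Nat.sub_self, h0]
  obtain ⟨hs1, b, hb, hbk⟩ := Nat.find_spec hex
  have hmin := fun m (hm : m < Nat.find hex) => Nat.find_min hex hm
  obtain ⟨s, hsdef⟩ : ∃ s, Nat.find hex = s := ⟨_, rfl⟩
  rw [hsdef] at hs1 hbk hmin
  have hbf : f (κ (t - s)) = b := by rw [← hbk]; exact (hv b hb).1
  have h5 := hfk (t - s) (by omega)
  rw [hbf] at h5
  refine ⟨b, s, fun j => κ (t - s + j), hb, by omega, by omega, by omega, hbk.symm, ?_, ?_, ?_, ?_,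
    ?_, ?_, ?_⟩
  · intro j hj
    exact hadj (t - s + j) (by omega)
  · show κ (t - s + s) ∈ W
    rwa [show t - s + s = t by omega]
  · intro j hj
    exact hnW _ (by omega)
  · intro j hj1 hj2 x hx he
    refine hmin (s - j) (by omega) ⟨by omega, x, hx, ?_⟩
    rw [he]
    show κ (t - s + j) = κ (t - (s - j))
    rw [show t - (s - j) = t - s + j by omega]
  · intro j j' h1 h2
    exact hinj _ _ (by omega) (by omega)
  · intro j hj
    show ¬ G.Adj (κ (t - s + s)) (κ (t - s + j))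
    rw [show t - s + s = t by omega]
    exact hna _ (by omega)
  · intro j hj
    have := hfk (t - s + j) (by omega)
    show i ≤ f (κ (t - s + j)) + 2 * R ∧ f (κ (t - s + j)) ≤ i + 2 * R
    omega

/-- the star case -/
theorem case_star [Fintype V] [LinearOrder V] {G : SimpleGraph V} {W : Set V} {l R N : ℕ} {f : V → ℕ}
    {v : ℕ → V} (hl : 1 ≤ l) (hR : 1 ≤ R) {i b t : ℕ} {κ : ℕ → V} (hL : Leave G W R N f v i b t κ)
    (hdeg : l + 4 ≤ deg G (κ t)) (hfv : ∀ x ≤ N, f (v x) = x)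
    (hfn : ∀ a, G.Adj (κ t) a → f a ≤ f (κ t) + 1 ∧ f (κ t) ≤ f a + 1) :
    Concl G l R N f v i := by
  classical
  obtain ⟨hb, hb1, hb2, ht, h0, hadj, hW, hnW, hnv, hinj, hna, hfk⟩ := hL
  set w := κ t with hw
  set P : Finset V := {v (f w - 1), v (f w), v (f w + 1), κ (t - 1)} with hP
  have hPc : P.card ≤ 4 := Finset.card_le_four
  unfold deg at hdeg
  set Nw := univ.filter fun u => G.Adj w u with hNw
  have h1 : l ≤ (Nw \ P).card := by
    have := Finset.le_card_sdiff P Nw
    omega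
  obtain ⟨A, hA, hAc⟩ := Finset.exists_subset_card_eq h1
  have hAadj : ∀ a ∈ A, G.Adj w a := fun a ha =>
    (Finset.mem_filter.1 (Finset.mem_sdiff.1 (hA ha)).1).2
  have hAP : ∀ a ∈ A, a ∉ P := fun a ha => (Finset.mem_sdiff.1 (hA ha)).2
  have hAv : ∀ a ∈ A, ∀ x ≤ N, v x ≠ a := by
    intro a ha x hx he
    have h2 := hfn a (hAadj a ha)
    have h3 : f a = x := by rw [← he]; exact hfv x hx
    apply hAP a ha
    rw [h3] at h2
    rw [hP]
    simp only [Finset.mem_insert, Finset.mem_singleton]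
    rcases (show x = f w - 1 ∨ x = f w ∨ x = f w + 1 by omega) with h | h | h
    · left; rw [← he, h]
    · right; left; rw [← he, h]
    · right; right; left; rw [← he, h]
  have hAk : ∀ a ∈ A, ∀ j ≤ t, κ j ≠ a := by
    intro a ha j hj he
    rcases Nat.lt_or_ge (j + 1) t with h | h
    · exact hna j h (he ▸ hAadj a ha)
    · rcases Nat.lt_or_ge j t with h' | h'
      · apply hAP a ha
        rw [hP]
        simp only [Finset.mem_insert, Finset.mem_singleton]
        right; right; right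
        rw [← he, show j = t - 1 by omega]
      · have : j = t := by omega
        subst this
        exact (hAadj a ha).ne he
  -- sorted enumeration of A
  let e := A.orderEmbOfFin hAc
  let u : ℕ → V := fun m => if h : m - t - 1 < l then (if m ≤ t then κ m else e ⟨m - t - 1, h⟩) else κ m
  have hu1 : ∀ m ≤ t, u m = κ m := by
    intro m hm
    show (if h : m - t - 1 < l then (if m ≤ t then κ m else e ⟨m - t - 1, h⟩) else κ m) = κ m
    rw [dif_pos (by omega), if_pos hm]
  have hu2 : ∀ m, t < m → ∀ hm : m - t - 1 < l, u m = e ⟨m - t - 1, hm⟩ := by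
    intro m hm h
    show (if h : m - t - 1 < l then (if m ≤ t then κ m else e ⟨m - t - 1, h⟩) else κ m) = _
    rw [dif_pos h, if_neg (by omega)]
  have hu3 : ∀ m, t < m → m ≤ t + l → u m ∈ A := by
    intro m h1 h2
    rw [hu2 m h1 (by omega)]
    exact Finset.orderEmbOfFin_mem A hAc _
  have key : ∀ m m', m < m' → m' ≤ t + l → u m ≠ u m' := by
    intro m m' hlt hm' he
    rcases Nat.lt_or_ge t m with h | h
    · rw [hu2 m h (by omega), hu2 m' (by omega) (by omega)] at he
      have := e.injective he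
      rw [Fin.mk.injEq] at this
      omega
    · rcases Nat.lt_or_ge t m' with h' | h'
      · rw [hu1 m h] at he
        exact hAk _ (hu3 m' h' (by omega)) m h he
      · rw [hu1 m h, hu1 m' h'] at he
        exact hinj m m' hlt h' he
  refine ⟨(Finset.Icc 1 (t + l)).image u, ⟨b, by omega, Or.inr ⟨by omega, t, true, u, ht, ?_, ?_, ?_,
    Or.inl ?_, rfl⟩⟩, ?_⟩
  · rw [hu1 0 (Nat.zero_le _)]; exact h0
  · intro k hk
    rw [if_pos rfl]
    rcases Nat.lt_or_ge k t with h | h
    · rw [show min k t = k by omega, hu1 k h.le, hu1 (k + 1) h]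
      exact hadj k h
    · rw [show min k t = t by omega, hu1 t le_rfl]
      exact hAadj _ (hu3 (k + 1) (by omega) (by omega))
  · intro m hm m' hm' he
    simp only [Set.mem_Icc] at hm hm'
    by_contra hne
    rcases Nat.lt_or_gt_of_ne hne with h | h
    · exact key m m' h hm'.2 he
    · exact key m' m h hm.2 he.symm
  · intro m hm m' hm' hlt
    simp only [Set.mem_Icc] at hm hm'
    rw [hu2 m (by omega) (by omega), hu2 m' (by omega) (by omega)]
    apply e.strictMono
    rw [Fin.mk_lt_mk]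
    omega
  · intro x hx
    obtain ⟨m, hm, rfl⟩ := Finset.mem_image.1 hx
    rw [Finset.mem_Icc] at hm
    rcases Nat.lt_or_ge t m with h | h
    · have h2 := hfn _ (hAadj _ (hu3 m h (by omega)))
      have h3 := hfk t le_rfl
      rw [← hw] at h3
      exact ⟨by omega, by omega, hAv _ (hu3 m h (by omega))⟩
    · rw [hu1 m h]
      have h3 := hfk m h
      exact ⟨by omega, by omega, fun x hx => hnv m hm.1 h x hx⟩

/-- the monotone path does not meet the geodesic -/
theorem case_far [LinearOrder V] {G : SimpleGraph V} {W : Set V} {l R N : ℕ} {f : V → ℕ}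
    {v : ℕ → V} {i b t : ℕ} {κ : ℕ → V} (hL : Leave G W R N f v i b t κ)
    {q : ℕ → V} {a : ℕ} (ha : a ≤ R) (haw : q a = κ t) (hRl : 2 * l ≤ R)
    (hq : ∀ j < R, Up G (q j) (q (j + 1)))
    (hmono : ∀ j j', j < j' → j' ≤ R → q j < q j') (hqW : ∀ j ≤ R, q j ∈ W)
    (hf : ∀ j ≤ R, i ≤ f (q j) + 3 * R ∧ f (q j) ≤ i + 3 * R)
    (hout : ∀ j ≤ R, ∀ x ≤ N, v x ≠ q j) :
    Concl G l R N f v i := by
  classical
  obtain ⟨hb, hb1, hb2, ht, h0, hadj, hW, hnW, hnv, hinj, hna, hfk⟩ := hL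
  -- the two directions
  obtain ⟨g, hg0, hgR, hgadj, hginj, hgmono⟩ : ∃ g : ℕ → ℕ, g 0 = a ∧ (∀ m ≤ l, g m ≤ R) ∧
      (∀ m < l, G.Adj (q (g m)) (q (g (m + 1)))) ∧
      (∀ m m', m < m' → m' ≤ l → q (g m) ≠ q (g m')) ∧
      ((∀ m m', m < m' → m' ≤ l → q (g m) < q (g m')) ∨
        (∀ m m', m < m' → m' ≤ l → q (g m') < q (g m))) := by
    rcases Nat.lt_or_ge (R - a) l with h | h
    · refine ⟨fun m => a - m, rfl, fun m _ => (Nat.sub_le _ _).trans ha, ?_, ?_, Or.inr ?_⟩
      · intro m hm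
        have h1 := (hq (a - (m + 1)) (by omega)).2
        rw [show a - (m + 1) + 1 = a - m by omega] at h1
        exact h1.symm
      · intro m m' h1 h2
        exact (hmono (a - m') (a - m) (by omega) (by omega)).ne'
      · intro m m' h1 h2
        exact hmono (a - m') (a - m) (by omega) (by omega)
    · refine ⟨fun m => a + m, rfl, fun m hm => by show a + m ≤ R; omega, ?_, ?_, Or.inl ?_⟩
      · intro m hm
        exact (hq (a + m) (by omega)).2
      · intro m m' h1 h2
        exact (hmono (a + m) (a + m') (by omega) (by omega)).ne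
      · intro m m' h1 h2
        exact hmono (a + m) (a + m') (by omega) (by omega)
  let u : ℕ → V := fun m => if m ≤ t then κ m else q (g (m - t))
  have hu1 : ∀ m ≤ t, u m = κ m := fun m hm => if_pos hm
  have hu2 : ∀ m, t ≤ m → u m = q (g (m - t)) := by
    intro m hm
    rcases Nat.lt_or_ge t m with h | h
    · exact if_neg (by omega)
    · have : m = t := by omega
      subst this
      rw [hu1 m le_rfl, Nat.sub_self, hg0, haw]
  have key : ∀ m m', 1 ≤ m → m < m' → m' ≤ t + l → u m ≠ u m' := by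
    intro m m' hm hlt hm' he
    rcases Nat.lt_or_ge m t with h | h
    · rcases Nat.lt_or_ge m' t with h' | h'
      · rw [hu1 m h.le, hu1 m' h'.le] at he
        exact hinj m m' hlt h'.le he
      · rw [hu1 m h.le, hu2 m' h'] at he
        exact hnW m h (he ▸ hqW _ (hgR _ (by omega)))
    · rw [hu2 m h, hu2 m' (by omega)] at he
      exact hginj _ _ (by omega) (by omega) he
  refine ⟨(Finset.Icc 1 (t + l)).image u, ⟨b, by omega, Or.inr ⟨by omega, t, false, u, ht, ?_, ?_, ?_,
    ?_, rfl⟩⟩, ?_⟩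
  · rw [hu1 0 (Nat.zero_le _)]; exact h0
  · intro k hk
    simp only [Bool.false_eq_true, if_false]
    rcases Nat.lt_or_ge k t with h | h
    · rw [hu1 k h.le, hu1 (k + 1) h]
      exact hadj k h
    · rw [hu2 k h, hu2 (k + 1) (by omega), show k + 1 - t = k - t + 1 by omega]
      exact hgadj _ (by omega)
  · intro m hm m' hm' he
    simp only [Set.mem_Icc] at hm hm'
    by_contra hne
    rcases Nat.lt_or_gt_of_ne hne with h | h
    · exact key m m' hm.1 h hm'.2 he
    · exact key m' m hm'.1 h hm.2 he.symm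
  · rcases hgmono with h | h
    · left
      intro m hm m' hm' hlt
      simp only [Set.mem_Icc] at hm hm'
      rw [hu2 m (by omega), hu2 m' (by omega)]
      exact h _ _ (by omega) (by omega)
    · right
      intro m hm m' hm' hlt
      simp only [Set.mem_Icc] at hm hm'
      rw [hu2 m (by omega), hu2 m' (by omega)]
      exact h _ _ (by omega) (by omega)
  · intro x hx
    obtain ⟨m, hm, rfl⟩ := Finset.mem_image.1 hx
    rw [Finset.mem_Icc] at hm
    rcases Nat.lt_or_ge t m with h | h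
    · rw [hu2 m h.le]
      have h3 := hf (g (m - t)) (hgR _ (by omega))
      exact ⟨h3.1, h3.2, fun x hx => hout _ (hgR _ (by omega)) x hx⟩
    · rw [hu1 m h]
      have h3 := hfk m h
      exact ⟨by omega, by omega, fun x hx => hnv m hm.1 h x hx⟩

theorem mono_of_up [LinearOrder V] {G : SimpleGraph V} {R : ℕ} {q : ℕ → V}
    (hq : ∀ j < R, Up G (q j) (q (j + 1))) : ∀ j j', j < j' → j' ≤ R → q j < q j' := by
  intro j j' h1 h2
  induction j' with
  | zero => omega
  | succ j' ih =>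
    rcases Nat.lt_or_ge j j' with h | h
    · exact (ih h (by omega)).trans (hq j' (by omega)).1
    · have : j = j' := by omega
      subst this
      exact (hq j (by omega)).1

theorem mem_near_of_mem {G : SimpleGraph V} {W : Set V} {m : ℕ} {x : V} (hx : x ∈ W) :
    x ∈ Near G W m :=
  ⟨0, Nat.zero_le _, fun _ => x, rfl, hx, fun j hj => absurd hj (Nat.not_lt_zero _)⟩

theorem mem_near_of_adj {G : SimpleGraph V} {W : Set V} {m : ℕ} (hm : 1 ≤ m) {x y : V} (hx : x ∈ W)
    (hxy : G.Adj x y) : y ∈ Near G W m := by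
  refine ⟨1, hm, fun j => if j = 0 then y else x, rfl, ?_, ?_⟩
  · exact hx
  · intro j hj
    have : j = 0 := by omega
    subst this
    exact hxy.symm

/-- two gaps contradict `Sparse` -/
theorem no_two_gaps [LinearOrder V] {G : SimpleGraph V} {R M' N : ℕ} (hM : 7 * R + 2 ≤ M')
    (hS : Sparse G M') {f : V → ℕ} {v : ℕ → V} (hfv : ∀ x ≤ N, f (v x) = x)
    (hadj : ∀ i < N, G.Adj (v i) (v (i + 1))) {i : ℕ} (hi1 : 3 * R ≤ i) (hi2 : i + 3 * R ≤ N)
    {q : ℕ → V} (hq : ∀ j < R, Up G (q j) (q (j + 1)))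
    (hmono : ∀ j j', j < j' → j' ≤ R → q j < q j')
    (hf : ∀ j ≤ R, i ≤ f (q j) + 3 * R ∧ f (q j) ≤ i + 3 * R)
    {k₁ m₁ k₃ m₃ : ℕ} (g1 : ∃ x ≤ N, v x = q k₁) (g2 : ∃ x ≤ N, v x = q (k₁ + m₁ + 2))
    (g3 : ∀ j, k₁ < j → j < k₁ + m₁ + 2 → ¬ ∃ x ≤ N, v x = q j) (g4 : k₁ + m₁ + 2 ≤ k₃)
    (g5 : ∃ x ≤ N, v x = q k₃) (g6 : ∃ x ≤ N, v x = q (k₃ + m₃ + 2))
    (g7 : ∀ j, k₃ < j → j < k₃ + m₃ + 2 → ¬ ∃ x ≤ N, v x = q j) (g8 : k₃ + m₃ + 2 ≤ R) : False := by
  classical
  obtain ⟨s, hs⟩ : ∃ s, i = s + 3 * R := ⟨i - 3 * R, by omega⟩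
  -- the segment of the geodesic
  have hvinj : ∀ x y, x < y → y ≤ N → v x ≠ v y := by
    intro x y hxy hy he
    have h1 := hfv x (by omega)
    have h2 := hfv y hy
    rw [he] at h1
    omega
  have hbase : ({v s} : Finset V).card + 0 ≤ eIn G {v s} + 1 := by simp
  obtain ⟨a1, a2, a3⟩ := tail (Linked.single (G := G) (v s)) hbase v s (Finset.mem_singleton_self _)
    (6 * R) (fun j h1 h2 => hadj j (by omega))
    (fun j h1 h2 h3 => hvinj s j h1 (by omega) (Finset.mem_singleton.1 h3).symm)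
    (fun j j' h1 h2 h3 => hvinj j j' h2 (by omega))
  set S₀ := {v s} ∪ (Finset.Ioc s (s + 6 * R)).image v with hS0
  have hmem : ∀ j ≤ R, (∃ x ≤ N, v x = q j) → q j ∈ S₀ := by
    rintro j hj ⟨x, hx, he⟩
    have h1 := hf j hj
    rw [← he, hfv x hx] at h1
    rw [← he, hS0]
    rcases Nat.eq_or_lt_of_le (show s ≤ x by omega) with h | h
    · exact Finset.mem_union_left _ (by rw [h]; simp)
    · exact Finset.mem_union_right _ (Finset.mem_image.2 ⟨x, Finset.mem_Ioc.2 ⟨h, by omega⟩, rfl⟩)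
  have hmem' : ∀ y ∈ S₀, ∃ x ≤ N, v x = y := by
    intro y hy
    rcases Finset.mem_union.1 hy with h | h
    · exact ⟨s, by omega, (Finset.mem_singleton.1 h).symm⟩
    · obtain ⟨x, hx, rfl⟩ := Finset.mem_image.1 h
      rw [Finset.mem_Ioc] at hx
      exact ⟨x, by omega, rfl⟩
  obtain ⟨b1, b2, b3⟩ := ear a1 a3 q k₁ m₁ (hmem _ (by omega) g1) (hmem _ (by omega) g2)
    (fun j h1 h2 => (hq j (by omega)).2) (fun j h1 h2 h3 => g3 j h1 h2 (hmem' _ h3))
    (fun j j' h1 h2 h3 => (hmono j j' h2 (by omega)).ne)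
  set S₁ := S₀ ∪ (Finset.Ioc k₁ (k₁ + (m₁ + 1))).image q with hS1
  obtain ⟨c1, c2, c3⟩ := ear b1 b3 q k₃ m₃ (Finset.mem_union_left _ (hmem _ (by omega) g5))
    (Finset.mem_union_left _ (hmem _ (by omega) g6))
    (fun j h1 h2 => (hq j (by omega)).2) (fun j h1 h2 h3 => by
      rcases Finset.mem_union.1 h3 with h | h
      · exact g7 j h1 h2 (hmem' _ h)
      · obtain ⟨y, hy, he⟩ := Finset.mem_image.1 h
        rw [Finset.mem_Ioc] at hy
        exact (hmono y j (by omega) (by omega)).ne he)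
    (fun j j' h1 h2 h3 => (hmono j j' h2 (by omega)).ne)
  have h0 : (S₁ ∪ (Finset.Ioc k₃ (k₃ + (m₃ + 1))).image q).Nonempty :=
    ⟨v s, Finset.mem_union_left _ (Finset.mem_union_left _ (Finset.mem_union_left _
      (Finset.mem_singleton_self _)))⟩
  have h1 : (S₁ ∪ (Finset.Ioc k₃ (k₃ + (m₃ + 1))).image q).card ≤ M' := by
    rw [c2, b2, a2, Finset.card_singleton]; omega
  have h2 := hS _ h0 c1 h1
  omega

theorem geo : S_GEO := by
  intro V _ _ G l R M' N hl hR hM hS f hf v hv hadj i hi1 hi2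
  classical
  set W := Exc G l R with hW
  have hfv : ∀ x ≤ N, f (v x) = x := fun x hx => (hv x hx).1
  obtain ⟨b, t, κ, hL⟩ := exists_leave hf hv (show i ≤ N by omega)
  have hLc := hL
  obtain ⟨hb, hb1, hb2, ht, h0, hkadj, hkW, hnW, hnv, hinj, hna, hfk⟩ := hLc
  have hfW : ∀ a c, a ∈ W → c ∈ W → G.Adj a c → f a ≤ f c + 1 := fun a c h1 h2 h3 =>
    hf a c ⟨h3, mem_near_of_mem h1, mem_near_of_mem h2⟩
  have hkW' : κ t ∈ Exc G l R := hkW
  rcases hkW' with hdeg | ⟨q, hq, a, ha, haw⟩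
  · refine case_star hl (by omega) hL hdeg hfv (fun c hc => ?_)
    have h1 : κ t ∈ Near G W (2 * R) := mem_near_of_mem hkW
    have h2 : c ∈ Near G W (2 * R) := mem_near_of_adj (by omega) hkW hc
    exact ⟨hf _ _ ⟨hc.symm, h2, h1⟩, hf _ _ ⟨hc, h1, h2⟩⟩
  · have hmono := mono_of_up hq
    have hqW : ∀ j ≤ R, q j ∈ W := fun j hj => Or.inr ⟨q, hq, j, hj, rfl⟩
    have hstep : ∀ j < R, f (q (j + 1)) ≤ f (q j) + 1 ∧ f (q j) ≤ f (q (j + 1)) + 1 := by
      intro j hj
      exact ⟨hfW _ _ (hqW _ (by omega)) (hqW _ (by omega)) (hq j hj).2.symm,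
        hfW _ _ (hqW _ (by omega)) (hqW _ (by omega)) (hq j hj).2⟩
    have hfq : ∀ j ≤ R, i ≤ f (q j) + 3 * R ∧ f (q j) ≤ i + 3 * R := by
      have h1 := hfk t le_rfl
      rw [← haw] at h1
      have hup : ∀ m, a + m ≤ R → f (q a) ≤ f (q (a + m)) + m ∧ f (q (a + m)) ≤ f (q a) + m := by
        intro m
        induction m with
        | zero => intro _; exact ⟨le_rfl, le_rfl⟩
        | succ m ih =>
          intro hm
          have h2 := ih (by omega)
          have h3 := hstep (a + m) (by omega)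
          rw [show a + (m + 1) = a + m + 1 by omega]
          omega
      have hdn : ∀ m, m ≤ a → f (q a) ≤ f (q (a - m)) + m ∧ f (q (a - m)) ≤ f (q a) + m := by
        intro m
        induction m with
        | zero => intro _; exact ⟨le_rfl, le_rfl⟩
        | succ m ih =>
          intro hm
          have h2 := ih (by omega)
          have h3 := hstep (a - (m + 1)) (by omega)
          rw [show a - (m + 1) + 1 = a - m by omega] at h3
          omega
      intro j hj
      rcases Nat.lt_or_ge j a with h | h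
      · have h2 := hdn (a - j) (by omega)
        rw [show a - (a - j) = j by omega] at h2
        omega
      · have h2 := hup (j - a) (by omega)
        rw [show a + (j - a) = j by omega] at h2
        omega
    by_cases hI : ∃ k ≤ R, ∃ x ≤ N, v x = q k
    · by_contra hcon
      have e1 : ∀ k, (∃ x ≤ N, v x = q k) → k + l ≤ R → ∃ j, k < j ∧ j ≤ k + l ∧
          ∃ x ≤ N, v x = q j := by
        rintro k ⟨x, hx, hxk⟩ hk
        by_contra hno
        push Not at hno
        apply hcon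
        exact case_up hk hq hmono hfq hxk.symm (hfv x hx)
          (fun j h1 h2 y hy he => hno j h1 h2 y hy he)
      have e2 : ∀ k ≤ R, (∃ x ≤ N, v x = q k) → l ≤ k → ∃ j, j < k ∧ k ≤ j + l ∧
          ∃ x ≤ N, v x = q j := by
        rintro k hk ⟨x, hx, hxk⟩ hlk
        by_contra hno
        push Not at hno
        apply hcon
        exact case_down hk hlk hq hmono hfq hxk.symm (hfv x hx)
          (fun j h1 h2 y hy he => hno j h1 h2 y hy he)
      have e3 : ∀ k, k + l ≤ R → ∃ j, k ≤ j ∧ j ≤ k + l ∧ ¬ ∃ x ≤ N, v x = q j := by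
        intro k hk
        by_contra hno
        push Not at hno
        apply hcon
        exact case_run hk hmono hfq hfv (fun j h1 h2 => hno j h1 h2)
          (fun j h1 h2 => hstep j (by omega))
      obtain ⟨k₁, m₁, k₃, m₃, g1, g2, g3, g4, g5, g6, g7, g8⟩ := two_gaps (R := R) hl (by omega)
        (fun k => ∃ x ≤ N, v x = q k) hI e1 e2 e3
      exact no_two_gaps hM hS hfv hadj hi1 hi2 hq hmono hfq g1 g2 g3 g4 g5 g6 g7 g8
    · push Not at hI
      exact case_far hL ha haw (by omega) hq hmono hqW hfq (fun j hj x hx => hI j hj x hx)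

end K9h63.RGO.GEO_
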