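import Pool.Agent.K9h63.RGO.Stm

/-! # Random graph orders: the leaf `NB` -/

set_option autoImplicit false

namespace K9h63.RGO.NB_

open Finset K9h63.RGO

section
variable {V : Type} [LinearOrder V] {G : SimpleGraph V}

/-- a monotone path as a sequence -/
theorem path_of_Le {a b : V} (h : Le G a b) :
    ∃ (k : ℕ) (u : ℕ → V), u 0 = a ∧ u k = b ∧ ∀ i < k, Up G (u i) (u (i + 1)) := by
  induction h with
  | refl => exact ⟨0, fun _ => a, rfl, rfl, fun i hi => absurd hi (Nat.not_lt_zero i)⟩
  | @tail b c _ h ih =>
    obtain ⟨k, u, h0, hk, hu⟩ := ih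
    refine ⟨k + 1, fun i => if i ≤ k then u i else c, ?_, ?_, ?_⟩
    · simp [h0]
    · simp
    · intro i hi
      rcases Nat.lt_or_ge i k with h1 | h1
      · have h2 : i ≤ k := by omega
        have h3 : i + 1 ≤ k := by omega
        simp only [h2, h3, if_true]
        exact hu i h1
      · have h2 : i = k := by omega
        subst h2
        have h3 : ¬ (i + 1 ≤ i) := by omega
        simp only [le_refl, h3, if_true, if_false]
        rw [hk]
        exact h

end

section
variable {V : Type} [Fintype V] [LinearOrder V] {G : SimpleGraph V}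

/-- from a vertex of the down-set one reaches an exceptional vertex with few steps -/
theorem short {l R : ℕ} {z : V} (hz : z ∈ Dn G (Exc G l R)) :
    ∃ k ≤ R, ∃ p : ℕ → V, p 0 = z ∧ p k ∈ Exc G l R ∧ ∀ i < k, Up G (p i) (p (i + 1)) := by
  obtain ⟨w, hw, h⟩ := hz
  obtain ⟨k, p, h0, hk, hp⟩ := path_of_Le h
  rcases Nat.lt_or_ge k R with h1 | h1
  · exact ⟨k, h1.le, p, h0, by rw [hk]; exact hw, hp⟩
  · refine ⟨0, Nat.zero_le _, p, h0, ?_, fun i hi => absurd hi (Nat.not_lt_zero i)⟩
    right
    exact ⟨p, fun i hi => hp i (by omega), 0, Nat.zero_le _, rfl⟩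

theorem near {l R : ℕ} {z v : V} (hz : z ∈ Dn G (Exc G l R)) (hv : Le G z v) :
    v ∈ Near G (Exc G l R) (2 * R) := by
  obtain ⟨k, hk, p, p0, pk, hp⟩ := short hz
  obtain ⟨j, q, q0, qj, hq⟩ := path_of_Le hv
  rcases Nat.lt_or_ge j R with h1 | h1
  · refine ⟨j + k, by omega, fun i => if i ≤ j then q (j - i) else p (i - j), ?_, ?_, ?_⟩
    · simp [qj]
    · rcases Nat.eq_zero_or_pos k with h2 | h2
      · subst h2
        simp only [Nat.add_zero, le_refl, if_true, Nat.sub_self]
        rw [q0, ← p0]
        exact pk
      · have h3 : ¬ (j + k ≤ j) := by omega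
        simp only [h3, if_false, Nat.add_sub_cancel_left]
        exact pk
    · intro i hi
      rcases Nat.lt_or_ge i j with h2 | h2
      · have h3 : i ≤ j := by omega
        have h4 : i + 1 ≤ j := by omega
        simp only [h3, h4, if_true]
        have h5 := (hq (j - (i + 1)) (by omega)).2
        have h6 : j - (i + 1) + 1 = j - i := by omega
        rw [h6] at h5
        exact h5.symm
      · rcases h2.eq_or_lt with h3 | h3
        · subst h3
          have h4 : ¬ (j + 1 ≤ j) := by omega
          simp only [le_refl, h4, if_true, if_false, Nat.sub_self, Nat.add_sub_cancel_left]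
          rw [q0, ← p0]
          exact (hp 0 (by omega)).2
        · have h4 : ¬ (i ≤ j) := by omega
          have h5 : ¬ (i + 1 ≤ j) := by omega
          simp only [h4, h5, if_false]
          have h6 := (hp (i - j) (by omega)).2
          have h7 : i - j + 1 = i + 1 - j := by omega
          rw [h7] at h6
          exact h6
  · refine ⟨0, Nat.zero_le _, fun _ => v, rfl, ?_, fun i hi => absurd hi (Nat.not_lt_zero i)⟩
    right
    refine ⟨fun i => q (j - R + i), fun i hi => ?_, R, le_refl _, ?_⟩
    · have h2 := hq (j - R + i) (by omega)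
      exact h2
    · have h2 : j - R + R = j := by omega
      simp only [h2]
      exact qj

end

theorem nb : S_NB := by
  intro V _ _ G l R z y hz hy
  induction hy with
  | refl => exact Relation.ReflTransGen.refl
  | @tail b c hb h ih =>
    refine Relation.ReflTransGen.tail ih ⟨h.1, h.2, near hz hb, near hz (Relation.ReflTransGen.tail hb h)⟩

end K9h63.RGO.NB_
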