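import Pool.Agent.K9h63.RGO.Stm
import Pool.Agent.K9h63.RGO.Basic

/-!
# Random graph orders (MP_b735d7_co): leaf ONE (at most one edge outside the forest)
-/

set_option autoImplicit false

namespace K9h63.RGO.ONE_

open Finset K9h63.RGO

section anc

variable {V : Type} {Γ : SimpleGraph V} (F : RF Γ)

theorem dep_iter (v : V) (j : ℕ) (hj : j ≤ F.dep v) :
    F.dep (F.par^[j] v) + j = F.dep v ∧ F.rt (F.par^[j] v) = F.rt v := by
  induction j with
  | zero => simp
  | succ j ih =>
    obtain ⟨h1, h2⟩ := ih (by omega)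
    rw [Function.iterate_succ_apply']
    have h0 : F.dep (F.par^[j] v) ≠ 0 := by omega
    have h3 := F.par_dep _ h0
    refine ⟨by omega, ?_⟩
    rw [F.rt_eq _ _ (F.par_adj _ h0), h2]

/-- the ancestors of `v`, with `v` -/
def anc [DecidableEq V] (v : V) : Finset V := (range (F.dep v + 1)).image fun j => F.par^[j] v

variable [DecidableEq V]

theorem anc_card (v : V) : (anc F v).card ≤ F.dep v + 1 := by
  refine le_trans Finset.card_image_le ?_
  simp

theorem anc_self (v : V) : v ∈ anc F v :=
  Finset.mem_image.2 ⟨0, by simp, rfl⟩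

theorem anc_rt {v x : V} (hx : x ∈ anc F v) : F.rt x = F.rt v := by
  obtain ⟨j, hj, rfl⟩ := Finset.mem_image.1 hx
  rw [Finset.mem_range] at hj
  exact (dep_iter F v j (by omega)).2

theorem anc_par {v x : V} (hx : x ∈ anc F v) (h0 : F.dep x ≠ 0) : F.par x ∈ anc F v := by
  obtain ⟨j, hj, rfl⟩ := Finset.mem_image.1 hx
  rw [Finset.mem_range] at hj
  have h1 := (dep_iter F v j (by omega)).1
  refine Finset.mem_image.2 ⟨j + 1, ?_, ?_⟩
  · rw [Finset.mem_range]; omega
  · rw [Function.iterate_succ_apply']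

theorem anc_root (v : V) : F.rt v ∈ anc F v := by
  have h := dep_iter F v (F.dep v) le_rfl
  refine Finset.mem_image.2 ⟨F.dep v, by simp, ?_⟩
  rw [← F.root _ (by omega : F.dep (F.par^[F.dep v] v) = 0)]
  exact h.2

end anc

section edge

variable {V : Type} [LinearOrder V]

/-- the increasing pair -/
def mk (x y : V) : V × V := if x < y then (x, y) else (y, x)

theorem mk_inj {x y x' y' : V} (h : mk x y = mk x' y') : s(x, y) = s(x', y') := by
  unfold mk at h
  rw [Sym2.eq_iff]
  split_ifs at h <;> simp only [Prod.mk.injEq] at h <;> tauto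

theorem mk_mem {G : SimpleGraph V} {A : Finset V} {x y : V} (hx : x ∈ A) (hy : y ∈ A)
    (h : G.Adj x y) :
    (mk x y).1 ∈ A ∧ (mk x y).2 ∈ A ∧ (mk x y).1 < (mk x y).2 ∧ G.Adj (mk x y).1 (mk x y).2 := by
  unfold mk
  split_ifs with h1
  · exact ⟨hx, hy, h1, h⟩
  · exact ⟨hy, hx, lt_of_le_of_ne (not_lt.1 h1) h.ne.symm, h.symm⟩

end edge

/-- **ONE**: every component has at most one edge outside the forest. -/
theorem one : S_ONE := by
  classical
  intro V _ _ G S F M M' hsp hdep hM a b c d hab hTab hcd hTcd hrt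
  by_contra hne
  set ρ := F.rt a with hρ
  have hrb : F.rt b = ρ := (F.rt_eq _ _ hab).symm
  have hrd : F.rt d = ρ := by rw [← F.rt_eq _ _ hcd]; exact hrt.symm
  set A := (anc F a ∪ anc F b) ∪ (anc F c ∪ anc F d) with hA
  have hAcard : A.card ≤ M' := by
    have h1 := anc_card F a
    have h2 := anc_card F b
    have h3 := anc_card F c
    have h4 := anc_card F d
    have h5 := hdep a
    have h6 := hdep b
    have h7 := hdep c
    have h8 := hdep d
    have h9 : A.card ≤ (anc F a ∪ anc F b).card + (anc F c ∪ anc F d).card :=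
      Finset.card_union_le _ _
    have h10 := Finset.card_union_le (anc F a) (anc F b)
    have h11 := Finset.card_union_le (anc F c) (anc F d)
    omega
  have haA : a ∈ A := by simp [hA, anc_self]
  have hbA : b ∈ A := by simp [hA, anc_self]
  have hcA : c ∈ A := by simp [hA, anc_self]
  have hdA : d ∈ A := by simp [hA, anc_self]
  have hρA : ρ ∈ A := by
    have := anc_root F a
    rw [← hρ] at this
    simp only [hA, Finset.mem_union]
    exact Or.inl (Or.inl this)
  have hAρ : ∀ x ∈ A, F.rt x = ρ := by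
    intro x hx
    simp only [hA, Finset.mem_union] at hx
    rcases hx with (hx | hx) | (hx | hx)
    · exact anc_rt F hx
    · rw [anc_rt F hx, hrb]
    · rw [anc_rt F hx]; exact hrt.symm
    · rw [anc_rt F hx, hrd]
  have hAp : ∀ x ∈ A, F.dep x ≠ 0 → F.par x ∈ A := by
    intro x hx h0
    simp only [hA, Finset.mem_union] at hx ⊢
    rcases hx with (hx | hx) | (hx | hx)
    · exact Or.inl (Or.inl (anc_par F hx h0))
    · exact Or.inl (Or.inr (anc_par F hx h0))
    · exact Or.inr (Or.inl (anc_par F hx h0))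
    · exact Or.inr (Or.inr (anc_par F hx h0))
  have hA0 : ∀ x ∈ A, F.dep x = 0 → x = ρ := by
    intro x hx h0
    rw [← F.root x h0]; exact hAρ x hx
  have hρ0 : F.dep ρ = 0 := by
    have h := dep_iter F a (F.dep a) le_rfl
    have h2 : F.par^[F.dep a] a = ρ := by
      rw [← F.root _ (by omega : F.dep (F.par^[F.dep a] a) = 0)]
      exact h.2
    rw [← h2]; omega
  have hlink : Linked G A := by
    intro T hT hTn hTne
    by_cases hρT : ρ ∈ T
    · have hn : (A \ T).Nonempty := by
        rw [Finset.sdiff_nonempty]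
        exact fun h => hTne (Finset.Subset.antisymm hT h)
      obtain ⟨v, hv, hmin⟩ := Finset.exists_min_image (A \ T) F.dep hn
      rw [Finset.mem_sdiff] at hv
      have hv0 : F.dep v ≠ 0 := fun h0 => hv.2 (by rw [hA0 v hv.1 h0]; exact hρT)
      have hpd := F.par_dep v hv0
      have hpT : F.par v ∈ T := by
        by_contra hp
        have := hmin (F.par v) (Finset.mem_sdiff.2 ⟨hAp v hv.1 hv0, hp⟩)
        omega
      exact ⟨F.par v, hpT, v, hv.1, hv.2, (F.par_adj v hv0).1⟩
    · obtain ⟨v, hv, hmin⟩ := Finset.exists_min_image T F.dep hTn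
      have hvA := hT hv
      have hv0 : F.dep v ≠ 0 := fun h0 => hρT (by rw [← hA0 v hvA h0]; exact hv)
      have hpd := F.par_dep v hv0
      have hpT : F.par v ∉ T := by
        intro hp
        have := hmin (F.par v) hp
        omega
      exact ⟨v, hv, F.par v, hAp v hvA hv0, hpT, (F.par_adj v hv0).1.symm⟩
  have hAn : A.Nonempty := ⟨a, haA⟩
  have hfin := hsp A hAn hlink hAcard
  set B := (A.erase ρ).image fun v => mk (F.par v) v with hB
  have hd0 : ∀ v ∈ A.erase ρ, F.dep v ≠ 0 := by
    intro v hv h0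
    rw [Finset.mem_erase] at hv
    exact hv.1 (hA0 v hv.2 h0)
  have hBc : B.card = A.card - 1 := by
    rw [hB, Finset.card_image_of_injOn, Finset.card_erase_of_mem hρA]
    intro v hv v' hv' h
    have h1 := F.par_dep v (hd0 v hv)
    have h2 := F.par_dep v' (hd0 v' hv')
    have h3 := mk_inj h
    rw [Sym2.eq_iff] at h3
    rcases h3 with h3 | h3
    · exact h3.2
    · rw [h3.1] at h1
      rw [← h3.2] at h2
      omega
  have hnB : ∀ x y, ¬ F.Tree x y → mk x y ∉ B := by
    intro x y hT h
    obtain ⟨v, hv, h⟩ := Finset.mem_image.1 h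
    have h3 := mk_inj h
    rw [Sym2.eq_iff] at h3
    apply hT
    rcases h3 with h3 | h3
    · right
      rw [← h3.2, ← h3.1]
      exact ⟨hd0 v hv, rfl⟩
    · left
      rw [← h3.2, ← h3.1]
      exact ⟨hd0 v hv, rfl⟩
  have hcardI : (insert (mk a b) (insert (mk c d) B)).card = A.card + 1 := by
    rw [Finset.card_insert_of_notMem, Finset.card_insert_of_notMem (hnB c d hTcd), hBc]
    · have := Finset.card_pos.2 hAn
      omega
    · rw [Finset.mem_insert]
      rintro (h | h)
      · exact hne (mk_inj h)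
      · exact hnB a b hTab h
  have hle : A.card + 1 ≤ eIn G A := by
    rw [← hcardI]
    unfold eIn
    apply Finset.card_le_card
    intro e he
    rw [Finset.mem_filter, Finset.mem_product]
    rw [Finset.mem_insert, Finset.mem_insert] at he
    rcases he with rfl | rfl | he
    · have := mk_mem (G := G) haA hbA hab.1
      exact ⟨⟨this.1, this.2.1⟩, this.2.2⟩
    · have := mk_mem (G := G) hcA hdA hcd.1
      exact ⟨⟨this.1, this.2.1⟩, this.2.2⟩
    · obtain ⟨v, hv, rfl⟩ := Finset.mem_image.1 he
      have hv0 := hd0 v hv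
      have hvA := Finset.mem_of_mem_erase hv
      have := mk_mem (G := G) (hAp v hvA hv0) hvA (F.par_adj v hv0).1
      exact ⟨⟨this.1, this.2.1⟩, this.2.2⟩
  omega

end K9h63.RGO.ONE_
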