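import Pool.Agent.K9h63.RGO.Stm
import Pool.Agent.K9h63.RGO.Basic

/-!
# Random graph orders (MP_b735d7_co): leaf P1 (few edges inside small connected sets)
-/

set_option autoImplicit false

namespace K9h63.RGO.P1_

open Finset K9h63.RGO

variable {n : ℕ}

/-- the increasing pair of two vertices -/
def mk (t v : Fin n) : Fin n × Fin n := if t < v then (t, v) else (v, t)

/-- the edges of the depth first walk coded by a list: `some v` is a step from the current vertex to
the new vertex `v`, `none` is a step back -/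
def dec : Fin n → List (Fin n) → List (Option (Fin n)) → Finset (Fin n × Fin n)
  | _, _, [] => ∅
  | t, st, some v :: L => insert (mk t v) (dec v (t :: st) L)
  | t, [], none :: L => dec t [] L
  | _, a :: st, none :: L => dec a st L

theorem dec_insert (P Q : List (Option (Fin n))) (u v : Fin n) :
    ∀ (t : Fin n) (st : List (Fin n)), dec t st (P ++ some u :: some v :: none :: Q) =
      insert (mk u v) (dec t st (P ++ some u :: Q)) := by
  induction P with
  | nil =>
    intro t st
    simp only [List.nil_append, dec]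
    rw [Finset.insert_comm]
  | cons a P ih =>
    intro t st
    cases a with
    | some a =>
      simp only [List.cons_append, dec]
      rw [ih, Finset.insert_comm]
    | none =>
      cases st with
      | nil => simp only [List.cons_append, dec]; rw [ih]
      | cons b st => simp only [List.cons_append, dec]; rw [ih]

theorem dec_root (L : List (Option (Fin n))) (ρ v : Fin n) :
    dec ρ [] (some v :: none :: L) = insert (mk ρ v) (dec ρ [] L) := by
  simp only [dec]

theorem mk_mem {E : Finset (Fin n × Fin n)} (hE : E ⊆ pairs n) {u v : Fin n}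
    (h : (gr E).Adj u v) : mk u v ∈ E := by
  rw [gr_adj hE] at h
  unfold mk
  rcases h with h | h
  · rw [if_pos (Finset.mem_filter.1 (hE h)).2]; exact h
  · rw [if_neg (not_lt.2 (Finset.mem_filter.1 (hE h)).2.le)]; exact h

theorem code (E : Finset (Fin n × Fin n)) (hE : E ⊆ pairs n) (S : Finset (Fin n))
    (hS : Linked (gr E) S) (ρ : Fin n) (hρ : ρ ∈ S) (k : ℕ) (hk : k + 1 ≤ S.card) :
    ∃ (T : Finset (Fin n)) (L : List (Option (Fin n))), T ⊆ S ∧ T.card = k + 1 ∧
      L.length = 2 * k ∧ L.reduceOption.length = k ∧ insert ρ L.reduceOption.toFinset = T ∧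
      dec ρ [] L ⊆ E ∧ (dec ρ [] L).card = k ∧ ∀ e ∈ dec ρ [] L, e.1 ∈ T ∧ e.2 ∈ T := by
  induction k with
  | zero =>
    refine ⟨{ρ}, [], by simpa using hρ, by simp, by simp, by simp, by simp, by simp [dec],
      by simp [dec], by simp [dec]⟩
  | succ k ih =>
    obtain ⟨T, L, hTS, hTc, hL, hLr, hLT, hdE, hdc, hdT⟩ := ih (by omega)
    have hTn : T.Nonempty := Finset.card_pos.1 (by omega)
    have hne : T ≠ S := by rintro rfl; omega
    obtain ⟨u, hu, v, hv, hvT, huv⟩ := hS T hTS hTn hne
    have hmE : mk u v ∈ E := mk_mem hE huv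
    have hmk : ∀ e, e = mk u v → e.1 ∈ insert v T ∧ e.2 ∈ insert v T := by
      rintro e rfl
      unfold mk
      split_ifs
      · exact ⟨Finset.mem_insert_of_mem hu, Finset.mem_insert_self _ _⟩
      · exact ⟨Finset.mem_insert_self _ _, Finset.mem_insert_of_mem hu⟩
    have hmd : mk u v ∉ dec ρ [] L := by
      intro h
      have := hdT _ h
      unfold mk at this
      split_ifs at this
      · exact hvT this.2
      · exact hvT this.1
    have key : ∀ L' : List (Option (Fin n)), L'.length = L.length + 2 →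
        L'.reduceOption.length = L.reduceOption.length + 1 →
        insert ρ L'.reduceOption.toFinset = insert v (insert ρ L.reduceOption.toFinset) →
        dec ρ [] L' = insert (mk u v) (dec ρ [] L) →
        ∃ (T : Finset (Fin n)) (L : List (Option (Fin n))), T ⊆ S ∧ T.card = k + 1 + 1 ∧
          L.length = 2 * (k + 1) ∧ L.reduceOption.length = k + 1 ∧
          insert ρ L.reduceOption.toFinset = T ∧
          dec ρ [] L ⊆ E ∧ (dec ρ [] L).card = k + 1 ∧ ∀ e ∈ dec ρ [] L, e.1 ∈ T ∧ e.2 ∈ T := by
      intro L' h1 h2 h3 h4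
      refine ⟨insert v T, L', Finset.insert_subset hv hTS, ?_, by omega, by omega, ?_, ?_, ?_, ?_⟩
      · rw [Finset.card_insert_of_notMem hvT, hTc]
      · rw [h3, hLT]
      · rw [h4]; exact Finset.insert_subset hmE hdE
      · rw [h4, Finset.card_insert_of_notMem hmd, hdc]
      · intro e he
        rw [h4, Finset.mem_insert] at he
        rcases he with he | he
        · exact hmk e he
        · exact ⟨Finset.mem_insert_of_mem (hdT e he).1, Finset.mem_insert_of_mem (hdT e he).2⟩
    have hu' : u = ρ ∨ u ∈ L.reduceOption := by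
      rw [← hLT, Finset.mem_insert, List.mem_toFinset] at hu
      exact hu
    rcases hu' with rfl | hu'
    · refine key (some v :: none :: L) ?_ ?_ ?_ (dec_root L u v)
      · simp
      · simp [List.reduceOption_cons_of_some, List.reduceOption_cons_of_none]
      · simp only [List.reduceOption_cons_of_some, List.reduceOption_cons_of_none,
          List.toFinset_cons]
        rw [Finset.insert_comm]
    · rw [List.reduceOption_mem_iff] at hu'
      obtain ⟨P, Q, rfl⟩ := List.append_of_mem hu'
      refine key (P ++ some u :: some v :: none :: Q) ?_ ?_ ?_ (dec_insert P Q u v ρ [])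
      · simp; omega
      · simp [List.reduceOption_cons_of_some, List.reduceOption_cons_of_none,
          List.reduceOption_append]
        omega
      · ext x
        simp only [List.reduceOption_cons_of_some, List.reduceOption_cons_of_none,
          List.reduceOption_append, List.toFinset_cons, List.toFinset_append, Finset.mem_insert,
          Finset.mem_union]
        tauto

/-- the weight of a symbol -/
noncomputable def w (p : ℝ) : Option (Fin n) → ℝ
  | none => 1
  | some _ => p

theorem prod_w (p : ℝ) (L : List (Option (Fin n))) :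
    (L.map (w p)).prod = p ^ L.reduceOption.length := by
  induction L with
  | nil => simp
  | cons a L ih =>
    cases a with
    | none => simp [w, ih, List.reduceOption_cons_of_none]
    | some a => simp [w, ih, List.reduceOption_cons_of_some, pow_succ']

/-- the codes -/
abbrev Cd (n M k : ℕ) : Type :=
  Fin n × (Fin (2 * k) → Option (Fin n)) × (Fin M × Fin M) × (Fin M × Fin M)

/-- the vertex with index `i` -/
def vx (ρ : Fin n) (L : List (Option (Fin n))) (i : ℕ) : Fin n := (ρ :: L.reduceOption).getD i ρ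

/-- the edge set of a code -/
def Fc {M k : ℕ} (c : Cd n M k) : Finset (Fin n × Fin n) :=
  insert (vx c.1 (List.ofFn c.2.1) c.2.2.1.1, vx c.1 (List.ofFn c.2.1) c.2.2.1.2)
    (insert (vx c.1 (List.ofFn c.2.1) c.2.2.2.1, vx c.1 (List.ofFn c.2.1) c.2.2.2.2)
      (dec c.1 [] (List.ofFn c.2.1)))

theorem vx_ex {ρ x : Fin n} {L : List (Option (Fin n))} {k M : ℕ} (hL : L.reduceOption.length = k)
    (hk : k < M) (hx : x ∈ insert ρ L.reduceOption.toFinset) : ∃ i : Fin M, vx ρ L i = x := by
  rw [Finset.mem_insert, List.mem_toFinset, ← List.mem_cons] at hx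
  obtain ⟨i, hi, rfl⟩ := List.getElem_of_mem hx
  rw [List.length_cons, hL] at hi
  refine ⟨⟨i, by omega⟩, ?_⟩
  unfold vx
  rw [List.getD_eq_getElem]

theorem ex_code {E : Finset (Fin n × Fin n)} (hE : E ⊆ pairs n) {S : Finset (Fin n)}
    {M k : ℕ} (hkM : k < M) (hS : Linked (gr E) S) (hc : S.card = k + 1)
    (he : k + 2 ≤ eIn (gr E) S) :
    ∃ c : Cd n M k, (Fc c ⊆ pairs n ∧ (Fc c).card = (List.ofFn c.2.1).reduceOption.length + 2) ∧
      Fc c ⊆ E := by
  classical
  obtain ⟨ρ, hρ⟩ : S.Nonempty := Finset.card_pos.1 (by omega)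
  obtain ⟨T, L, hTS, hTc, hL, hLr, hLT, hdE, hdc, hdT⟩ := code E hE S hS ρ hρ k (by omega)
  have hT : T = S := Finset.eq_of_subset_of_card_le hTS (by omega)
  subst hT
  set A := (T ×ˢ T).filter fun e => e.1 < e.2 ∧ (gr E).Adj e.1 e.2 with hA
  have hAc : k + 2 ≤ A.card := by
    refine le_trans he (le_of_eq ?_)
    unfold eIn
    rw [hA]
  have h2 : 1 < (A \ dec ρ [] L).card := by
    have := Finset.le_card_sdiff (dec ρ [] L) A
    omega
  obtain ⟨e₁, he₁, e₂, he₂, hne⟩ := Finset.one_lt_card.1 h2
  rw [Finset.mem_sdiff] at he₁ he₂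
  have hAE : ∀ e ∈ A, e ∈ E ∧ e.1 ∈ T ∧ e.2 ∈ T := by
    intro e he
    rw [hA, Finset.mem_filter, Finset.mem_product] at he
    refine ⟨?_, he.1⟩
    rcases (gr_adj hE _ _).1 he.2.2 with h | h
    · exact h
    · exact absurd he.2.1 (not_lt.2 (Finset.mem_filter.1 (hE h)).2.le)
  obtain ⟨h1E, h11, h12⟩ := hAE e₁ he₁.1
  obtain ⟨h2E, h21, h22⟩ := hAE e₂ he₂.1
  rw [← hLT] at h11 h12 h21 h22
  obtain ⟨i1, hi1⟩ := vx_ex hLr hkM h11
  obtain ⟨i2, hi2⟩ := vx_ex hLr hkM h12
  obtain ⟨i3, hi3⟩ := vx_ex hLr hkM h21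
  obtain ⟨i4, hi4⟩ := vx_ex hLr hkM h22
  have hof : List.ofFn (fun i : Fin (2 * k) => L.get (i.cast hL.symm)) = L := by
    apply List.ext_get
    · simp [hL]
    · intro m h1 h2
      simp
  refine ⟨(ρ, (fun i => L.get (i.cast hL.symm)), (i1, i2), (i3, i4)), ?_, ?_⟩
  · have hF : Fc ((ρ, (fun i => L.get (i.cast hL.symm)), (i1, i2), (i3, i4)) : Cd n M k) =
        insert e₁ (insert e₂ (dec ρ [] L)) := by
      unfold Fc
      simp only [hof, hi1, hi2, hi3, hi4]
    rw [hF]
    refine ⟨Finset.insert_subset (hE h1E) (Finset.insert_subset (hE h2E) (hdE.trans hE)), ?_⟩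
    simp only [hof]
    rw [Finset.card_insert_of_notMem, Finset.card_insert_of_notMem he₂.2, hdc, hLr]
    rw [Finset.mem_insert]
    rintro (h | h)
    · exact hne h
    · exact he₁.2 h
  · have hF : Fc ((ρ, (fun i => L.get (i.cast hL.symm)), (i1, i2), (i3, i4)) : Cd n M k) =
        insert e₁ (insert e₂ (dec ρ [] L)) := by
      unfold Fc
      simp only [hof, hi1, hi2, hi3, hi4]
    rw [hF]
    exact Finset.insert_subset h1E (Finset.insert_subset h2E hdE)

theorem sum_codes (M k : ℕ) (p : ℝ) :
    ∑ c : Cd n M k, p ^ 2 * ∏ i, w p (c.2.1 i) = n * (M : ℝ) ^ 4 * p ^ 2 * (1 + n * p) ^ (2 * k) := by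
  have h1 : ∑ f : Fin (2 * k) → Option (Fin n), ∏ i, w p (f i) = (1 + n * p) ^ (2 * k) := by
    rw [← Fintype.sum_pow, Fintype.sum_option]
    simp [w]
  rw [← Finset.mul_sum]
  simp only [Fintype.sum_prod_type, Finset.sum_const, Finset.card_univ, Fintype.card_prod, Fintype.card_fin, Nat.cast_mul,
    nsmul_eq_mul, ← Finset.mul_sum, h1]
  ring

theorem Pr_k (M k : ℕ) (hkM : k < M) (p : ℝ) (hp : 0 ≤ p) (hp1 : p ≤ 1) :
    Pr n p (fun E => ∃ S : Finset (Fin n), Linked (gr E) S ∧ S.card = k + 1 ∧
      k + 2 ≤ eIn (gr E) S) ≤ n * (M : ℝ) ^ 4 * p ^ 2 * (1 + n * p) ^ (2 * k) := by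
  classical
  rw [← sum_codes]
  refine le_trans (Pr_union hp hp1 (univ.filter fun c : Cd n M k => Fc c ⊆ pairs n ∧
    (Fc c).card = (List.ofFn c.2.1).reduceOption.length + 2) (B := fun c E => Fc c ⊆ E) ?_) ?_
  · rintro E hE ⟨S, h1, h2, h3⟩
    obtain ⟨c, hc, hcE⟩ := ex_code hE hkM h1 h2 h3
    exact ⟨c, Finset.mem_filter.2 ⟨Finset.mem_univ _, hc⟩, hcE⟩
  · refine le_trans (Finset.sum_le_sum (g := fun c : Cd n M k => p ^ 2 * ∏ i, w p (c.2.1 i)) ?_) ?_
    · intro c hc
      obtain ⟨h1, h2⟩ := (Finset.mem_filter.1 hc).2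
      rw [Pr_subset _ h1, h2, pow_add, ← prod_w, List.map_ofFn, List.prod_ofFn, mul_comm]
      exact le_refl _
    · apply Finset.sum_le_sum_of_subset_of_nonneg (Finset.filter_subset _ _)
      intro c _ _
      apply mul_nonneg (pow_nonneg hp _)
      apply Finset.prod_nonneg
      intro i _
      cases c.2.1 i with
      | none => simp [w]
      | some a => simpa [w] using hp

/-- **P1**: the probability that a small connected set has two edges too many. -/
theorem p1 : S_P1 := by
  intro n M p hp hp1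
  have hnp : 0 ≤ (n : ℝ) * p := mul_nonneg (Nat.cast_nonneg _) hp
  refine le_trans (Pr_union hp hp1 (range M) (B := fun k E => ∃ S : Finset (Fin n),
    Linked (gr E) S ∧ S.card = k + 1 ∧ k + 2 ≤ eIn (gr E) S) ?_) ?_
  · intro E hE h
    unfold Sparse at h
    push Not at h
    obtain ⟨S, hSn, hSl, hSM, hSe⟩ := h
    have := Finset.card_pos.2 hSn
    refine ⟨S.card - 1, Finset.mem_range.2 (by omega), S, hSl, by omega, by omega⟩
  · have h1 : ∀ k ∈ range M, Pr n p (fun E => ∃ S : Finset (Fin n), Linked (gr E) S ∧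
        S.card = k + 1 ∧ k + 2 ≤ eIn (gr E) S) ≤
        n * (M : ℝ) ^ 4 * p ^ 2 * (1 + n * p) ^ (2 * M) := by
      intro k hk
      have hkM := Finset.mem_range.1 hk
      refine le_trans (Pr_k M k hkM p hp hp1) ?_
      apply mul_le_mul_of_nonneg_left
      · exact pow_le_pow_right₀ (by linarith) (by omega)
      · positivity
    refine le_trans (Finset.sum_le_sum h1) ?_
    rw [Finset.sum_const, Finset.card_range, nsmul_eq_mul]
    apply le_of_eq
    ring

end K9h63.RGO.P1_
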