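import Pool.Agent.K9h63.RGO.Stm
import Pool.Agent.K9h63.RGO.Basic

/-!
# Random graph orders (MP_b735d7_co): leaf P2 (union bound over the structures `Str`)
-/

set_option autoImplicit false

namespace K9h63.RGO

open Finset

namespace P2_

/-! ## counting functions which are strictly monotone along `l` given indices -/

/-- `x` is increasing along `e` -/
def SM {I : Type} {n l : ℕ} (e : Fin l → I) (x : I → Fin n) : Prop := StrictMono (x ∘ e)

open Classical in
theorem count {I : Type} [Fintype I] [DecidableEq I] (n l : ℕ) (e : Fin l → I) (he : Function.Injective e) :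
    (univ.filter fun x : I → Fin n => SM e x).card * l.factorial ≤
      n ^ Fintype.card I := by
  have h1 : ((univ.filter fun x : I → Fin n => SM e x) ×ˢ
      (univ : Finset (Equiv.Perm (Fin l)))).card ≤ (univ : Finset (I → Fin n)).card := by
    apply Finset.card_le_card_of_injOn (fun z => Function.extend e (z.1 ∘ e ∘ z.2) z.1)
    · intro z _
      exact Finset.mem_coe.2 (Finset.mem_univ _)
    · rintro ⟨x, σ⟩ hx ⟨x', σ'⟩ hx' h
      have hx1 : StrictMono (x ∘ e) := by
        have := Finset.mem_coe.1 hx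
        rw [Finset.mem_product] at this
        exact (Finset.mem_filter.1 this.1).2
      have hx2 : StrictMono (x' ∘ e) := by
        have := Finset.mem_coe.1 hx'
        rw [Finset.mem_product] at this
        exact (Finset.mem_filter.1 this.1).2
      dsimp only at h
      have hk : ∀ k, x (e (σ k)) = x' (e (σ' k)) := by
        intro k
        have h3 := congrFun h (e k)
        rw [he.extend_apply, he.extend_apply] at h3
        exact h3
      have hr : x ∘ e = x' ∘ e := by
        apply (StrictMono.range_inj hx1 hx2).1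
        ext y
        constructor
        · rintro ⟨k, rfl⟩
          refine ⟨σ' (σ.symm k), ?_⟩
          have := hk (σ.symm k)
          rw [Equiv.apply_symm_apply] at this
          exact this.symm
        · rintro ⟨k, rfl⟩
          refine ⟨σ (σ'.symm k), ?_⟩
          have := hk (σ'.symm k)
          rw [Equiv.apply_symm_apply] at this
          exact this
      have hσ : σ = σ' := by
        ext1 k
        apply hx1.injective
        rw [show (x ∘ e) (σ' k) = (x' ∘ e) (σ' k) from congrFun hr _]
        exact hk k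
      have hxx : x = x' := by
        funext i
        by_cases hi : ∃ k, e k = i
        · obtain ⟨k, rfl⟩ := hi
          exact congrFun hr k
        · have h3 := congrFun h i
          rw [Function.extend_apply' _ _ _ hi, Function.extend_apply' _ _ _ hi] at h3
          exact h3
      rw [hσ, hxx]
  rw [Finset.card_product, Finset.card_univ, Finset.card_univ, Fintype.card_perm, Fintype.card_fin,
    Fintype.card_fun, Fintype.card_fin] at h1
  exact h1

/-! ## the probability of a given tree -/

theorem sorted_eq {α : Type} [LinearOrder α] {a b c d : α}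
    (h : (min a b, max a b) = (min c d, max c d)) : (a = c ∧ b = d) ∨ (a = d ∧ b = c) := by
  obtain ⟨h1, h2⟩ := Prod.mk.inj h
  rcases le_total a b with hab | hab <;> rcases le_total c d with hcd | hcd <;>
    simp only [min_eq_left hab, min_eq_right hab, max_eq_left hab, max_eq_right hab,
      min_eq_left hcd, min_eq_right hcd, max_eq_left hcd, max_eq_right hcd] at h1 h2
  · exact Or.inl ⟨h1, h2⟩
  · exact Or.inr ⟨h1, h2⟩
  · exact Or.inr ⟨h2, h1⟩
  · exact Or.inl ⟨h2, h1⟩

theorem tree {I : Type} [Fintype I] {n : ℕ} {p : ℝ} (hp : 0 ≤ p) (hp1 : p ≤ 1)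
    (par : I → Option I) (rk : I → ℕ) (hrk : ∀ i k, par i = some k → rk k < rk i)
    (φ : Option I → Fin n) (hφ : Function.Injective φ) :
    Pr n p (fun E => ∀ i, (gr E).Adj (φ (par i)) (φ (some i))) ≤ p ^ Fintype.card I := by
  classical
  set F : Finset (Fin n × Fin n) := univ.image
    (fun i => (min (φ (par i)) (φ (some i)), max (φ (par i)) (φ (some i)))) with hF
  have hne : ∀ i, φ (par i) ≠ φ (some i) := by
    intro i h
    exact lt_irrefl _ (hrk i i (hφ h))
  have hF1 : F ⊆ pairs n := by
    intro x hx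
    obtain ⟨i, _, rfl⟩ := Finset.mem_image.1 hx
    refine Finset.mem_filter.2 ⟨Finset.mem_univ _, ?_⟩
    rcases lt_or_gt_of_ne (hne i) with h | h
    · simpa [min_eq_left h.le, max_eq_right h.le] using h
    · simpa [min_eq_right h.le, max_eq_left h.le] using h
  have hF2 : F.card = Fintype.card I := by
    rw [hF, Finset.card_image_of_injective, Finset.card_univ]
    intro i k h
    rcases sorted_eq h with ⟨_, h2⟩ | ⟨h1, h2⟩
    · exact Option.some_injective _ (hφ h2)
    · exact absurd (hrk i k (hφ h1)) (not_lt.2 (hrk k i (hφ h2).symm).le)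
  rw [← hF2, ← Pr_subset F hF1]
  apply Pr_mono hp hp1
  intro E hE hA x hx
  obtain ⟨i, _, rfl⟩ := Finset.mem_image.1 hx
  have h1 := (gr_adj hE _ _).1 (hA i)
  rcases h1 with h1 | h1
  · have h2 := (Finset.mem_filter.1 (hE h1)).2
    simpa [min_eq_left h2.le, max_eq_right h2.le] using h1
  · have h2 := (Finset.mem_filter.1 (hE h1)).2
    simpa [min_eq_right h2.le, max_eq_left h2.le] using h1

/-! ## the kinds of blocks -/

/-- kinds of blocks: a monotone run of the path itself, or a decoration -/
abbrev Kind (R : ℕ) : Type := (Fin (9 * R) × Bool) ⊕ (Fin (9 * R) × Fin (2 * R + 1) × Bool × Bool)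

/-- the number of vertices of a block -/
def m (l R : ℕ) : Kind R → ℕ
  | Sum.inl _ => 10 * R
  | Sum.inr k => 10 * R + (k.2.1 : ℕ) + l

/-- index of the parent (`0` is the last vertex of the block before) -/
def pr (R : ℕ) : Kind R → ℕ → ℕ
  | Sum.inl _, i => i - 1
  | Sum.inr k, i => if i ≤ 10 * R then i - 1 else
      if (if k.2.2.1 = true then min (i - 10 * R - 1) k.2.1 else i - 10 * R - 1) = 0 then (k.1 : ℕ)
      else 10 * R + (if k.2.2.1 = true then min (i - 10 * R - 1) k.2.1 else i - 10 * R - 1)

/-- the first index of the monotone part (minus one) -/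
def off (R : ℕ) : Kind R → ℕ
  | Sum.inl k => k.1
  | Sum.inr k => 10 * R + k.2.1

/-- increasing or decreasing -/
def dir (R : ℕ) : Kind R → Bool
  | Sum.inl k => k.2
  | Sum.inr k => k.2.2.2

/-- the indices of the monotone part, in increasing order of the vertices -/
def e (l R : ℕ) (κ : Kind R) (k : Fin l) : ℕ :=
  if dir R κ = true then off R κ + k else off R κ + (l - 1 - k)

theorem off_le {l R : ℕ} (h : l ≤ R) (κ : Kind R) : off R κ + l ≤ m l R κ := by
  rcases κ with k | k
  · simp only [off, m]
    have := k.1.2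
    omega
  · simp only [off, m]
    omega

theorem e_lt {l R : ℕ} (h : l ≤ R) (κ : Kind R) (k : Fin l) : e l R κ k < m l R κ := by
  have h1 := off_le h κ
  have h2 := k.2
  unfold e
  split_ifs <;> omega

/-- the indices of the monotone part -/
def ef {l R : ℕ} (h : l ≤ R) (κ : Kind R) (k : Fin l) : Fin (m l R κ) := ⟨e l R κ k, e_lt h κ k⟩

theorem ef_inj {l R : ℕ} (h : l ≤ R) (κ : Kind R) : Function.Injective (ef h κ) := by
  intro k k' hk
  have h1 : e l R κ k = e l R κ k' := congrArg Fin.val hk
  have h2 := k.2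
  have h3 := k'.2
  unfold e at h1
  apply Fin.ext
  split_ifs at h1 <;> omega

theorem m_ge (l R : ℕ) (κ : Kind R) : 10 * R ≤ m l R κ := by
  rcases κ with k | k
  · exact le_refl _
  · simp only [m]; omega

theorem m_le (l R : ℕ) (κ : Kind R) : m l R κ ≤ 12 * R + l := by
  rcases κ with k | k
  · simp only [m]; omega
  · simp only [m]
    have := k.2.1.2
    omega

theorem pr_lt {R : ℕ} (κ : Kind R) (i : ℕ) (hi : 1 ≤ i) : pr R κ i < i := by
  rcases κ with k | k
  · simp only [pr]; omega
  · have := k.1.2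
    simp only [pr]
    split_ifs <;> omega

theorem pr_le_of {R : ℕ} (κ : Kind R) (i : ℕ) (hi : i ≤ 10 * R) : pr R κ i = i - 1 := by
  rcases κ with k | k
  · rfl
  · simp only [pr]
    rw [if_pos hi]

/-! ## the block of a structure -/

/-- the vertices of a block -/
def w {V : Type} (R : ℕ) (v : ℕ → V) (c : ℕ) (u : ℕ → V) (i : ℕ) : V :=
  if i ≤ 10 * R then v (c + i) else u (i - 10 * R)

theorem extract {V : Type} [LinearOrder V] (G : SimpleGraph V) (l R : ℕ) (hl : 1 ≤ l)
    (hR : R = 5 * (l + 1)) (v : ℕ → V) (c : ℕ) (X : Finset V) (h : Deco G l R v (c + 5 * R) X) :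
    ∃ (κ : Kind R) (u : ℕ → V), (∀ k, 1 ≤ k → k + 10 * R ≤ m l R κ → u k ∈ X) ∧
      (∀ k k', 1 ≤ k → k + 10 * R ≤ m l R κ → 1 ≤ k' → k' + 10 * R ≤ m l R κ → u k = u k' → k = k') ∧
      (∀ i, 10 * R < i → i ≤ m l R κ → G.Adj (w R v c u (pr R κ i)) (w R v c u i)) ∧
      (∀ k k' : Fin l, k < k' → w R v c u (e l R κ k + 1) < w R v c u (e l R κ k' + 1)) := by
  obtain ⟨b, hb, h | h⟩ := h
  · obtain ⟨hX, hb2, hmono⟩ := h
    have hb3 : b - c < 9 * R := by omega
    rcases hmono with hmono | hmono
    · refine ⟨Sum.inl (⟨b - c, hb3⟩, true), v, ?_, ?_, ?_, ?_⟩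
      · intro k h1 h2; simp only [m] at h2; omega
      · intro k k' h1 h2; simp only [m] at h2; omega
      · intro i h1 h2; simp only [m] at h2; omega
      · intro k k' hk
        have hk1 : (k : ℕ) < k' := hk
        have hk2 := k'.2
        have e1 : e l R (Sum.inl (⟨b - c, hb3⟩, true)) k = b - c + k := by simp [e, dir, off]
        have e2 : e l R (Sum.inl (⟨b - c, hb3⟩, true)) k' = b - c + k' := by simp [e, dir, off]
        rw [e1, e2]
        unfold w
        rw [if_pos (by omega), if_pos (by omega)]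
        apply hmono
        · rw [Set.mem_Icc]; omega
        · rw [Set.mem_Icc]; omega
        · omega
    · refine ⟨Sum.inl (⟨b - c, hb3⟩, false), v, ?_, ?_, ?_, ?_⟩
      · intro k h1 h2; simp only [m] at h2; omega
      · intro k k' h1 h2; simp only [m] at h2; omega
      · intro i h1 h2; simp only [m] at h2; omega
      · intro k k' hk
        have hk1 : (k : ℕ) < k' := hk
        have hk2 := k'.2
        have e1 : e l R (Sum.inl (⟨b - c, hb3⟩, false)) k = b - c + (l - 1 - k) := by
          simp [e, dir, off]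
        have e2 : e l R (Sum.inl (⟨b - c, hb3⟩, false)) k' = b - c + (l - 1 - k') := by
          simp [e, dir, off]
        rw [e1, e2]
        unfold w
        rw [if_pos (by omega), if_pos (by omega)]
        apply hmono
        · rw [Set.mem_Icc]; omega
        · rw [Set.mem_Icc]; omega
        · omega
  · obtain ⟨hb2, t, star, u, ht, hu0, hadj, hinj, hmono, hX⟩ := h
    have hb3 : b - c < 9 * R := by omega
    have ht3 : t < 2 * R + 1 := by omega
    have key : ∃ d : Bool, ∀ k k' : Fin l, k < k' →
        u (t + (if d = true then (k : ℕ) else (l - 1 - k)) + 1) <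
        u (t + (if d = true then (k' : ℕ) else (l - 1 - k')) + 1) := by
      rcases hmono with hmono | hmono
      · refine ⟨true, fun k k' hk => ?_⟩
        have hk1 : (k : ℕ) < k' := hk
        have hk2 := k'.2
        rw [if_pos rfl, if_pos rfl]
        apply hmono
        · rw [Set.mem_Icc]; omega
        · rw [Set.mem_Icc]; omega
        · omega
      · refine ⟨false, fun k k' hk => ?_⟩
        have hk1 : (k : ℕ) < k' := hk
        have hk2 := k'.2
        rw [if_neg (by simp), if_neg (by simp)]
        apply hmono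
        · rw [Set.mem_Icc]; omega
        · rw [Set.mem_Icc]; omega
        · omega
    obtain ⟨d, hd⟩ := key
    refine ⟨Sum.inr (⟨b - c, hb3⟩, ⟨t, ht3⟩, star, d), u, ?_, ?_, ?_, ?_⟩
    · intro k h1 h2
      simp only [m] at h2
      rw [hX]
      apply Finset.mem_image_of_mem
      rw [Finset.mem_Icc]
      omega
    · intro k k' h1 h2 h3 h4 h5
      simp only [m] at h2 h4
      apply hinj _ _ h5
      · rw [Set.mem_Icc]; omega
      · rw [Set.mem_Icc]; omega
    · intro i h1 h2
      simp only [m] at h2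
      have h3 := hadj (i - 10 * R - 1) (by omega)
      rw [show i - 10 * R - 1 + 1 = i - 10 * R by omega] at h3
      have e1 : w R v c u i = u (i - 10 * R) := by
        unfold w
        rw [if_neg (by omega)]
      rw [e1]
      have e2 : w R v c u (pr R (Sum.inr (⟨b - c, hb3⟩, ⟨t, ht3⟩, star, d)) i) =
          u (if star = true then min (i - 10 * R - 1) t else i - 10 * R - 1) := by
        simp only [pr]
        rw [if_neg (by omega)]
        generalize (if star = true then min (i - 10 * R - 1) t else i - 10 * R - 1) = q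
        by_cases hq : q = 0
        · rw [if_pos hq, hq, hu0]
          unfold w
          rw [if_pos (by omega)]
          congr 1
          omega
        · rw [if_neg hq]
          unfold w
          rw [if_neg (by omega)]
          congr 1
          omega
      rw [e2]
      exact h3
    · intro k k' hk
      have h3 := hd k k' hk
      have hk1 := k.2
      have hk2 := k'.2
      have e1 : ∀ k : Fin l, w R v c u (e l R (Sum.inr (⟨b - c, hb3⟩, ⟨t, ht3⟩, star, d)) k + 1) =
          u (t + (if d = true then (k : ℕ) else (l - 1 - k)) + 1) := by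
        intro k
        have e2 : e l R (Sum.inr (⟨b - c, hb3⟩, ⟨t, ht3⟩, star, d)) k =
            10 * R + t + (if d = true then (k : ℕ) else (l - 1 - k)) := by
          cases d <;> simp [e, dir, off]
        rw [e2]
        unfold w
        rw [if_neg (by omega)]
        congr 1
        omega
      rw [e1, e1]
      exact h3

/-! ## the codes -/

/-- the vertices of the structure except the first one -/
abbrev Idx (l R r : ℕ) (κ : Fin r → Kind R) : Type := Σ j : Fin r, Fin (m l R (κ j))

/-- the parent -/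
def par (l R r : ℕ) (hR : 1 ≤ R) (κ : Fin r → Kind R) (s : Idx l R r κ) : Option (Idx l R r κ) :=
  if h : pr R (κ s.1) (s.2 + 1) = 0 then
    (if h0 : (s.1 : ℕ) = 0 then none
      else some ⟨⟨s.1 - 1, by have := s.1.2; omega⟩, ⟨10 * R - 1, by
        have := m_ge l R (κ ⟨s.1 - 1, by have := s.1.2; omega⟩); omega⟩⟩)
  else some ⟨s.1, ⟨pr R (κ s.1) (s.2 + 1) - 1, by
    have := pr_lt (κ s.1) (s.2 + 1) (by omega)
    have := s.2.2
    omega⟩⟩

/-- the rank -/
def rk (l R r : ℕ) (κ : Fin r → Kind R) (s : Idx l R r κ) : ℕ := (12 * R + l) * s.1 + s.2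

theorem rk_lt (l R r : ℕ) (hR : 1 ≤ R) (κ : Fin r → Kind R) (s s' : Idx l R r κ)
    (h : par l R r hR κ s = some s') : rk l R r κ s' < rk l R r κ s := by
  unfold par at h
  split_ifs at h with h1 h0
  · have h2 := (Option.some.inj h).symm
    subst h2
    unfold rk
    dsimp only
    have h3 : (12 * R + l) * (s.1 : ℕ) = (12 * R + l) * ((s.1 : ℕ) - 1) + (12 * R + l) := by
      obtain ⟨q, hq⟩ : ∃ q, (s.1 : ℕ) = q + 1 := ⟨s.1 - 1, by omega⟩
      rw [hq]
      simp only [Nat.add_sub_cancel]
      ring
    rw [h3]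
    omega
  · have h2 := (Option.some.inj h).symm
    subst h2
    unfold rk
    dsimp only
    have := pr_lt (κ s.1) (s.2 + 1) (by omega)
    omega

/-- a block: the kind and the vertices -/
abbrev Blk (l R n : ℕ) : Type := Σ κ : Kind R, (Fin (m l R κ) → Fin n)

/-- the vertices of the structure -/
def phi {l R r n : ℕ} (a : Fin n) (c : Fin r → Blk l R n) :
    Option (Idx l R r fun j => (c j).1) → Fin n
  | none => a
  | some s => (c s.1).2 s.2

theorem mul_add_inj {q j i j' i' : ℕ} (hi : i < q) (hi' : i' < q) (h : q * j + i = q * j' + i') :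
    j = j' ∧ i = i' := by
  have hq : 0 < q := by omega
  have h1 : (q * j + i) / q = j := by
    rw [Nat.mul_add_div hq, Nat.div_eq_of_lt hi, Nat.add_zero]
  have h2 : (q * j' + i') / q = j' := by
    rw [Nat.mul_add_div hq, Nat.div_eq_of_lt hi', Nat.add_zero]
  have h3 : j = j' := by rw [← h1, ← h2, h]
  subst h3
  exact ⟨rfl, by omega⟩

theorem encode {l R r n : ℕ} (hl : 1 ≤ l) (hR : R = 5 * (l + 1)) (hR1 : 1 ≤ R) (hlR : l ≤ R)
    (G : SimpleGraph (Fin n)) (h : Str G l R r) :
    ∃ (a : Fin n) (c : Fin r → Blk l R n), (∀ j, StrictMono ((c j).2 ∘ ef hlR (c j).1)) ∧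
      Function.Injective (phi a c) ∧
      ∀ s, G.Adj (phi a c (par l R r hR1 _ s)) (phi a c (some s)) := by
  obtain ⟨v, X, hv, hadj, hdec, hdis⟩ := h
  have hx := fun j : Fin r => extract G l R hl hR v (10 * R * j) (X j) (hdec j j.2).1
  choose κ u h1 h2 h3 h4 using hx
  have hvX : ∀ (j : Fin r) (k : ℕ), k ≤ 10 * R * r → v k ∉ X j := fun j => (hdec j j.2).2
  have hjr : ∀ (j : Fin r) (i : ℕ), i ≤ 10 * R → 10 * R * (j : ℕ) + i ≤ 10 * R * r := by
    intro j i hi
    have : 10 * R * ((j : ℕ) + 1) ≤ 10 * R * r := Nat.mul_le_mul_left _ j.2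
    rw [Nat.mul_add, Nat.mul_one] at this
    omega
  -- the two types of vertices
  have wv : ∀ (j : Fin r) (i : ℕ), i ≤ 10 * R →
      w R v (10 * R * j) (u j) i = v (10 * R * j + i) := by
    intro j i hi
    unfold w
    rw [if_pos hi]
  have wu : ∀ (j : Fin r) (i : ℕ), 10 * R < i →
      w R v (10 * R * j) (u j) i = u j (i - 10 * R) := by
    intro j i hi
    unfold w
    rw [if_neg (by omega)]
  have wX : ∀ (j : Fin r) (i : ℕ), 10 * R < i → i ≤ m l R (κ j) →
      w R v (10 * R * j) (u j) i ∈ X j := by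
    intro j i hi hi2
    rw [wu j i hi]
    exact h1 j _ (by omega) (by omega)
  have w0 : ∀ (j : Fin r) (i : ℕ), 1 ≤ i → i ≤ m l R (κ j) →
      v 0 ≠ w R v (10 * R * j) (u j) i := by
    intro j i hi1 hi2 he
    by_cases hi : i ≤ 10 * R
    · rw [wv j i hi] at he
      have := hv (Set.mem_Iic.2 (Nat.zero_le _)) (Set.mem_Iic.2 (hjr j i hi)) he
      omega
    · exact hvX j 0 (Nat.zero_le _) (he ▸ wX j i (by omega) hi2)
  have ww : ∀ (j j' : Fin r) (i i' : ℕ), 1 ≤ i → i ≤ m l R (κ j) → 1 ≤ i' → i' ≤ m l R (κ j') →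
      w R v (10 * R * j) (u j) i = w R v (10 * R * j') (u j') i' → j = j' ∧ i = i' := by
    intro j j' i i' hi1 hi2 hi1' hi2' he
    by_cases hi : i ≤ 10 * R
    · by_cases hi' : i' ≤ 10 * R
      · rw [wv j i hi, wv j' i' hi'] at he
        have h5 := hv (Set.mem_Iic.2 (hjr j i hi)) (Set.mem_Iic.2 (hjr j' i' hi')) he
        have h6 : 10 * R * (j : ℕ) + (i - 1) = 10 * R * (j' : ℕ) + (i' - 1) := by omega
        obtain ⟨h7, h8⟩ := mul_add_inj (by omega) (by omega) h6
        exact ⟨Fin.ext h7, by omega⟩
      · exfalso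
        rw [wv j i hi] at he
        exact hvX j' _ (hjr j i hi) (he ▸ wX j' i' (by omega) hi2')
    · by_cases hi' : i' ≤ 10 * R
      · exfalso
        rw [wv j' i' hi'] at he
        exact hvX j _ (hjr j' i' hi') (he ▸ wX j i (by omega) hi2)
      · by_cases hjj : j = j'
        · subst hjj
          refine ⟨rfl, ?_⟩
          rw [wu j i (by omega), wu j i' (by omega)] at he
          have := h2 j _ _ (by omega) (by omega) (by omega) (by omega) he
          omega
        · exfalso
          have h5 := hdis j j.2 j' j'.2 (fun h => hjj (Fin.ext h))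
          rw [Finset.disjoint_left] at h5
          exact h5 (wX j i (by omega) hi2) (he ▸ wX j' i' (by omega) hi2')
  refine ⟨v 0, fun j => ⟨κ j, fun i => w R v (10 * R * j) (u j) (i + 1)⟩, ?_, ?_, ?_⟩
  · intro j k k' hk
    exact h4 j k k' hk
  · rintro (_ | ⟨j, i⟩) (_ | ⟨j', i'⟩) he
    · rfl
    · exact absurd he (w0 j' (i' + 1) (by omega) i'.2)
    · exact absurd he.symm (w0 j (i + 1) (by omega) i.2)
    · obtain ⟨h5, h6⟩ := ww j j' (i + 1) (i' + 1) (by omega) i.2 (by omega) i'.2 he
      subst h5
      have h7 : i = i' := Fin.ext (by omega)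
      rw [h7]
  · rintro ⟨j, i⟩
    have hpar : phi (v 0) (fun j => (⟨κ j, fun i => w R v (10 * R * j) (u j) (i + 1)⟩ : Blk l R n))
        (par l R r hR1 _ ⟨j, i⟩) = w R v (10 * R * j) (u j) (pr R (κ j) (i + 1)) := by
      unfold par
      dsimp only
      split_ifs with h5 h6
      · rw [h5, wv j 0 (by omega), h6]
        rfl
      · rw [h5, wv j 0 (by omega)]
        unfold phi
        dsimp only
        have h7 := wv ⟨(j : ℕ) - 1, by have := j.2; omega⟩ (10 * R - 1 + 1) (by omega)
        refine h7.trans ?_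
        congr 1
        dsimp only
        obtain ⟨q, hq⟩ : ∃ q, (j : ℕ) = q + 1 := ⟨j - 1, by omega⟩
        rw [hq, Nat.add_sub_cancel, Nat.mul_add, Nat.mul_one]
        omega
      · unfold phi
        dsimp only
        congr 1
        omega
    rw [hpar]
    have hw : phi (v 0) (fun j => (⟨κ j, fun i => w R v (10 * R * j) (u j) (i + 1)⟩ : Blk l R n))
        (some ⟨j, i⟩) = w R v (10 * R * j) (u j) (i + 1) := rfl
    rw [hw]
    by_cases hi : (i : ℕ) + 1 ≤ 10 * R
    · rw [pr_le_of (κ j) _ hi, Nat.add_sub_cancel, wv j _ (by omega), wv j _ hi]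
      have h5 := hadj (10 * R * j + i) (by
        have := hjr j (i + 1) hi
        omega)
      exact h5
    · exact h3 j _ (by omega) i.2

/-! ## the sum -/

open Classical in
/-- the weight of a block -/
noncomputable def wt {l R n : ℕ} (hlR : l ≤ R) (p : ℝ) (b : Blk l R n) : ℝ :=
  if SM (ef hlR b.1) b.2 then p ^ (m l R b.1) else 0

theorem wt_nonneg' {l R n : ℕ} (hlR : l ≤ R) {p : ℝ} (hp : 0 ≤ p) (b : Blk l R n) :
    0 ≤ wt hlR p b := by
  unfold wt
  split_ifs
  · exact pow_nonneg hp _
  · exact le_refl _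

theorem Pr_false {n : ℕ} {p : ℝ} {A : Finset (Fin n × Fin n) → Prop} (h : ∀ E, ¬ A E) :
    Pr n p A = 0 := by
  classical
  unfold Pr
  apply Finset.sum_eq_zero
  intro E hE
  rw [Finset.mem_filter] at hE
  exact absurd hE.2 (h E)

open Classical in
theorem sum_blk {l R n : ℕ} (hlR : l ≤ R) (hR1 : 1 ≤ R) {p : ℝ} (hp : 0 ≤ p) :
    ∑ b : Blk l R n, wt hlR p b ≤
      60 * R * (2 * R + 1) * (1 + n * p) ^ (12 * R + l) / (l.factorial : ℝ) := by
  unfold wt
  have hl0 : (0 : ℝ) < l.factorial := by exact_mod_cast Nat.factorial_pos l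
  rw [Fintype.sum_sigma]
  have h1 : ∀ κ : Kind R, ∑ x : Fin (m l R κ) → Fin n,
      (if SM (ef hlR κ) x then p ^ (m l R κ) else 0) ≤
      (1 + n * p) ^ (12 * R + l) / (l.factorial : ℝ) := by
    intro κ
    rw [← Finset.sum_filter, Finset.sum_const, nsmul_eq_mul, le_div_iff₀ hl0]
    have h2 := count n l (ef hlR κ) (ef_inj hlR κ)
    rw [Fintype.card_fin] at h2
    have h3 : ((univ.filter fun x : Fin (m l R κ) → Fin n => SM (ef hlR κ) x).card : ℝ) *
        l.factorial ≤ (n : ℝ) ^ (m l R κ) := by
      exact_mod_cast h2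
    calc ((univ.filter fun x : Fin (m l R κ) → Fin n => SM (ef hlR κ) x).card : ℝ) *
          p ^ (m l R κ) * l.factorial
        = ((univ.filter fun x : Fin (m l R κ) → Fin n => SM (ef hlR κ) x).card : ℝ) *
          l.factorial * p ^ (m l R κ) := by ring
      _ ≤ (n : ℝ) ^ (m l R κ) * p ^ (m l R κ) :=
          mul_le_mul_of_nonneg_right h3 (pow_nonneg hp _)
      _ = (n * p) ^ (m l R κ) := by rw [mul_pow]
      _ ≤ (1 + n * p) ^ (m l R κ) := by
          apply pow_le_pow_left₀
          · positivity
          · linarith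
      _ ≤ (1 + n * p) ^ (12 * R + l) := by
          apply pow_le_pow_right₀
          · have : (0 : ℝ) ≤ n * p := by positivity
            linarith
          · exact m_le l R κ
  dsimp only
  calc ∑ κ : Kind R, ∑ x : Fin (m l R κ) → Fin n,
        (if SM (ef hlR κ) x then p ^ (m l R κ) else 0)
      ≤ ∑ _κ : Kind R, (1 + n * p) ^ (12 * R + l) / (l.factorial : ℝ) :=
        Finset.sum_le_sum fun κ _ => h1 κ
    _ = (Fintype.card (Kind R) : ℝ) * ((1 + n * p) ^ (12 * R + l) / (l.factorial : ℝ)) := by
        rw [Finset.sum_const, nsmul_eq_mul, Finset.card_univ]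
    _ ≤ (60 * R * (2 * R + 1)) * ((1 + n * p) ^ (12 * R + l) / (l.factorial : ℝ)) := by
        apply mul_le_mul_of_nonneg_right
        · have h5 : Fintype.card (Kind R) ≤ 60 * R * (2 * R + 1) := by
            simp only [Kind, Fintype.card_sum, Fintype.card_prod, Fintype.card_fin,
              Fintype.card_bool]
            nlinarith
          exact_mod_cast h5
        · positivity
    _ = 60 * R * (2 * R + 1) * (1 + n * p) ^ (12 * R + l) / (l.factorial : ℝ) := by ring

end P2_

open Classical P2_ in
theorem p2 : S_P2 := by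
  intro n l R r p hp hp1 hl hR
  have hR1 : 1 ≤ R := by omega
  have hlR : l ≤ R := by omega
  have h1 : Pr n p (fun E => Str (gr E) l R r) ≤
      ∑ z ∈ (univ.filter fun z : Fin n × (Fin r → Blk l R n) =>
        ∀ j, SM (ef hlR (z.2 j).1) (z.2 j).2),
        Pr n p (fun E => Function.Injective (phi z.1 z.2) ∧
          ∀ s, (gr E).Adj (phi z.1 z.2 (par l R r hR1 _ s)) (phi z.1 z.2 (some s))) := by
    apply Pr_union hp hp1
    intro E _ hE
    obtain ⟨a, c, h1, h2, h3⟩ := encode hl hR hR1 hlR (gr E) hE
    exact ⟨(a, c), Finset.mem_filter.2 ⟨Finset.mem_univ _, h1⟩, h2, h3⟩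
  have h2 : ∀ z : Fin n × (Fin r → Blk l R n),
      Pr n p (fun E => Function.Injective (phi z.1 z.2) ∧
        ∀ s, (gr E).Adj (phi z.1 z.2 (par l R r hR1 _ s)) (phi z.1 z.2 (some s))) ≤
      ∏ j, p ^ (m l R (z.2 j).1) := by
    intro z
    by_cases hz : Function.Injective (phi z.1 z.2)
    · have h3 := tree hp hp1 (par l R r hR1 fun j => (z.2 j).1) (rk l R r _)
        (fun s s' h => rk_lt l R r hR1 _ s s' h) (phi z.1 z.2) hz
      have h4 : Fintype.card (Idx l R r fun j => (z.2 j).1) = ∑ j, m l R (z.2 j).1 := by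
        simp only [Idx, Fintype.card_sigma, Fintype.card_fin]
      rw [h4] at h3
      rw [Finset.prod_pow_eq_pow_sum]
      refine le_trans (Pr_mono hp hp1 ?_) h3
      intro E _ hE
      exact hE.2
    · have h3 : Pr n p (fun E => Function.Injective (phi z.1 z.2) ∧
          ∀ s, (gr E).Adj (phi z.1 z.2 (par l R r hR1 _ s)) (phi z.1 z.2 (some s))) = 0 :=
        Pr_false fun E hE => hz hE.1
      rw [h3]
      exact Finset.prod_nonneg fun j _ => pow_nonneg hp _
  refine h1.trans ((Finset.sum_le_sum fun z _ => h2 z).trans ?_)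
  calc ∑ z ∈ (univ.filter fun z : Fin n × (Fin r → Blk l R n) =>
        ∀ j, SM (ef hlR (z.2 j).1) (z.2 j).2), ∏ j, p ^ (m l R (z.2 j).1)
      ≤ ∑ z : Fin n × (Fin r → Blk l R n), ∏ j, wt hlR p (z.2 j) := by
        rw [Finset.sum_filter]
        apply Finset.sum_le_sum
        intro z _
        split_ifs with hz
        · apply le_of_eq
          apply Finset.prod_congr rfl
          intro j _
          unfold wt
          rw [if_pos (hz j)]
        · exact Finset.prod_nonneg fun j _ => wt_nonneg' hlR hp _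
    _ = n * (∑ b : Blk l R n, wt hlR p b) ^ r := by
        rw [Fintype.sum_pow, Fintype.sum_prod_type]
        dsimp only
        rw [Finset.sum_const, nsmul_eq_mul, Finset.card_univ, Fintype.card_fin]
    _ ≤ n * (60 * R * (2 * R + 1) * (1 + n * p) ^ (12 * R + l) / (l.factorial : ℝ)) ^ r := by
        apply mul_le_mul_of_nonneg_left _ (Nat.cast_nonneg n)
        apply pow_le_pow_left₀
        · exact Finset.sum_nonneg fun b _ => wt_nonneg' hlR hp b
        · exact sum_blk hlR hR1 hp

end K9h63.RGO
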