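import Pool.Agent.K9h63.RGO.Stm

/-!
# Random graph orders (MP_b735d7_co), leaf PFL
-/

set_option autoImplicit false

namespace K9h63.RGO.PFL_

open Finset

variable {V : Type} {Γ : SimpleGraph V}

theorem adj_of_tree (F : RF Γ) {a b : V} (h : F.Tree a b) : Γ.Adj a b := by
  rcases h with ⟨h1, rfl⟩ | ⟨h1, rfl⟩
  · exact (F.par_adj a h1).symm
  · exact F.par_adj b h1

theorem rt_of_leT [LinearOrder V] (F : RF Γ) {a b : V} (h : LeT F a b) : F.rt a = F.rt b := by
  induction h with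
  | refl => rfl
  | tail _ h2 ih => exact ih.trans (F.rt_eq _ _ (adj_of_tree F h2.2))

theorem rt_of_le [LinearOrder V] (F : RF Γ) {a b : V} (h : Le Γ a b) : F.rt a = F.rt b := by
  induction h with
  | refl => rfl
  | tail _ h2 ih => exact ih.trans (F.rt_eq _ _ h2.2)

theorem le_of_leT [LinearOrder V] (F : RF Γ) {a b : V} (h : LeT F a b) : Le Γ a b := by
  induction h with
  | refl => exact Relation.ReflTransGen.refl
  | tail _ h2 ih => exact ih.tail ⟨h2.1, adj_of_tree F h2.2⟩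

/-- `s < s'` is an edge outside the forest -/
def Ext [LinearOrder V] (F : RF Γ) (s s' : V) : Prop := s < s' ∧ Γ.Adj s s' ∧ ¬ F.Tree s s'

theorem ext_unique [LinearOrder V] {F : RF Γ} (hF : F.One) {a b c d : V} (h1 : Ext F a b)
    (h2 : Ext F c d) (h : F.rt a = F.rt c) : a = c ∧ b = d := by
  have := hF a b c d h1.2.1 h1.2.2 h2.2.1 h2.2.2 h
  rw [Sym2.eq_iff] at this
  rcases this with h3 | ⟨rfl, rfl⟩
  · exact h3
  · exact absurd h1.1 (not_lt.2 h2.1.le)

theorem le_cases [LinearOrder V] {F : RF Γ} {z y : V} (h : Le Γ z y) :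
    LeT F z y ∨ ∃ s s', Ext F s s' ∧ LeT F s' y ∧ F.rt s = F.rt y ∧ Le Γ z s := by
  induction h with
  | refl => exact Or.inl Relation.ReflTransGen.refl
  | @tail b c h1 h2 ih =>
    by_cases ht : F.Tree b c
    · rcases ih with h | ⟨s, s', h3, h4, h5, h6⟩
      · exact Or.inl (h.tail ⟨h2.1, ht⟩)
      · exact Or.inr ⟨s, s', h3, h4.tail ⟨h2.1, ht⟩, h5.trans (F.rt_eq _ _ h2.2), h6⟩
    · exact Or.inr ⟨b, c, ⟨h2.1, h2.2, ht⟩, Relation.ReflTransGen.refl, F.rt_eq _ _ h2.2, h1⟩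

theorem lt_of_ext_le [LinearOrder V] {a b : V} (h : Le Γ a b) : a ≤ b := by
  induction h with
  | refl => exact le_refl _
  | tail _ h2 ih => exact ih.trans h2.1.le

/-- the monotone path uses the extra edge at most once -/
theorem le_cases' [LinearOrder V] {F : RF Γ} (hF : F.One) {z y : V} (h : Le Γ z y) :
    LeT F z y ∨ ∃ s s', Ext F s s' ∧ LeT F s' y ∧ F.rt s = F.rt y ∧ LeT F z s := by
  rcases le_cases (F := F) h with h | ⟨s, s', h1, h2, h3, h4⟩
  · exact Or.inl h
  · refine Or.inr ⟨s, s', h1, h2, h3, ?_⟩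
    rcases le_cases (F := F) h4 with h5 | ⟨t, t', g1, g2, g3, g4⟩
    · exact h5
    · exfalso
      obtain ⟨rfl, rfl⟩ := ext_unique hF g1 h1 g3
      exact absurd (lt_of_ext_le (le_of_leT F g2)) (not_le.2 g1.1)

theorem pfl (hfor : S_FOR) : S_PFL := by
  intro V _ _ Γ F hF
  classical
  obtain ⟨lam, hA, hB⟩ := hfor V Γ F
  let B : V → Prop := fun v => ∃ s s', Ext F s s' ∧ F.rt s = F.rt v ∧ LeT F v s
  refine ⟨fun i v => if h : i.val < 4 then lam ⟨i.val, h⟩ v else
    (if B v then 0 else lam ⟨i.val - 4, by have := i.2; omega⟩ v + 1), ?_⟩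
  intro x y hxy
  by_cases hr : F.rt x = F.rt y
  · have hxT : ¬ LeT F x y := fun h => hxy (le_of_leT F h)
    obtain ⟨i, hi⟩ := hA x y hr hxT
    by_cases hE : ∃ s s', Ext F s s' ∧ F.rt s = F.rt y ∧ LeT F s' y
    · obtain ⟨s, s', h1, h2, h3⟩ := hE
      have hxs : ¬ B x := by
        rintro ⟨t, t', g1, g2, g3⟩
        obtain ⟨rfl, rfl⟩ := ext_unique hF g1 h1 (by rw [g2, hr, h2])
        exact hxy (((le_of_leT F g3).tail ⟨h1.1, h1.2.1⟩).trans (le_of_leT F h3))
      refine ⟨⟨i.val + 4, by have := i.2; omega⟩, fun z hz => ?_⟩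
      have e : ∀ w, (if h : i.val + 4 < 4 then lam ⟨i.val + 4, h⟩ w else
          (if B w then 0 else lam ⟨i.val + 4 - 4, by have := i.2; omega⟩ w + 1)) =
          if B w then 0 else lam i w + 1 := by
        intro w
        rw [dif_neg (by omega)]
        rfl
      show (if h : i.val + 4 < 4 then lam ⟨i.val + 4, h⟩ z else
          (if B z then 0 else lam ⟨i.val + 4 - 4, by have := i.2; omega⟩ z + 1)) <
        (if h : i.val + 4 < 4 then lam ⟨i.val + 4, h⟩ x else
          (if B x then 0 else lam ⟨i.val + 4 - 4, by have := i.2; omega⟩ x + 1))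
      rw [e, e, if_neg hxs]
      split_ifs with hz0
      · omega
      · rcases le_cases' hF hz with h | ⟨t, t', g1, g2, g3, g4⟩
        · have := hi z h; omega
        · exact absurd ⟨t, t', g1, g3.trans (rt_of_le F hz).symm, g4⟩ hz0
    · refine ⟨⟨i.val, by have := i.2; omega⟩, fun z hz => ?_⟩
      show (if h : i.val < 4 then lam ⟨i.val, h⟩ z else _) < (if h : i.val < 4 then lam ⟨i.val, h⟩ x else _)
      rw [dif_pos i.2, dif_pos i.2]
      rcases le_cases' hF hz with h | ⟨t, t', g1, g2, g3, g4⟩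
      · exact hi z h
      · exact absurd ⟨t, t', g1, g3, g2⟩ hE
  · obtain ⟨i, hi⟩ := hB x y hr
    refine ⟨⟨i.val, by have := i.2; omega⟩, fun z hz => ?_⟩
    show (if h : i.val < 4 then lam ⟨i.val, h⟩ z else _) < (if h : i.val < 4 then lam ⟨i.val, h⟩ x else _)
    rw [dif_pos i.2, dif_pos i.2]
    exact hi z (rt_of_le F hz)

end K9h63.RGO.PFL_
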