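import Pool.Agent.K9h63.RGO.Stm

/-! # Random graph orders: the leaf `RF` -/

set_option autoImplicit false

namespace K9h63.RGO.RF_

open Finset K9h63.RGO

variable {V : Type} (Γ : SimpleGraph V)

/-- the root of the component -/
noncomputable def rt (v : V) : V := Quot.out (Γ.connectedComponentMk v)

theorem mk_rt (v : V) : Γ.connectedComponentMk (rt Γ v) = Γ.connectedComponentMk v :=
  Quot.out_eq (Γ.connectedComponentMk v)

theorem reach (v : V) : Γ.Reachable (rt Γ v) v :=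
  SimpleGraph.ConnectedComponent.exact (mk_rt Γ v)

theorem rt_eq {a b : V} (h : Γ.Adj a b) : rt Γ a = rt Γ b := by
  unfold rt
  rw [SimpleGraph.ConnectedComponent.sound h.reachable]

theorem lip {a b : V} (h : Γ.Adj a b) : Γ.dist (rt Γ a) a ≤ Γ.dist (rt Γ b) b + 1 := by
  obtain ⟨p, hp⟩ := (reach Γ b).exists_walk_length_eq_dist
  rw [rt_eq Γ h, ← hp]
  have h1 := SimpleGraph.dist_le (p.concat h.symm)
  rw [SimpleGraph.Walk.length_concat] at h1
  exact h1

theorem uncons {r v : V} (q : Γ.Walk v r) (h : q.length ≠ 0) :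
    ∃ u, Γ.Adj v u ∧ ∃ q' : Γ.Walk u r, q'.length + 1 = q.length := by
  cases q with
  | nil => exact absurd rfl h
  | @cons _ u _ hadj q' => exact ⟨u, hadj, q', rfl⟩

theorem ex_par (v : V) (h : Γ.dist (rt Γ v) v ≠ 0) :
    ∃ u, Γ.Adj u v ∧ Γ.dist (rt Γ u) u + 1 = Γ.dist (rt Γ v) v := by
  obtain ⟨p, hp⟩ := (reach Γ v).exists_walk_length_eq_dist
  have hl : p.reverse.length = Γ.dist (rt Γ v) v := by
    rw [SimpleGraph.Walk.length_reverse]
    exact hp
  obtain ⟨u, hadj, q, hq⟩ := uncons Γ p.reverse (by rw [hl]; exact h)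
  refine ⟨u, hadj.symm, ?_⟩
  have h1 := lip Γ hadj
  have h2 := SimpleGraph.dist_le q.reverse
  rw [SimpleGraph.Walk.length_reverse] at h2
  rw [rt_eq Γ hadj.symm] at h1 ⊢
  omega

theorem rf : S_RF := by
  intro V _ Γ
  classical
  have h : ∀ v, ∃ u, Γ.dist (rt Γ v) v ≠ 0 → Γ.Adj u v ∧ Γ.dist (rt Γ u) u + 1 = Γ.dist (rt Γ v) v := by
    intro v
    by_cases h : Γ.dist (rt Γ v) v = 0
    · exact ⟨v, fun h' => absurd h h'⟩
    · obtain ⟨u, hu⟩ := ex_par Γ v h
      exact ⟨u, fun _ => hu⟩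
  choose par hpar using h
  exact ⟨{
    rt := rt Γ
    par := par
    dep := fun v => Γ.dist (rt Γ v) v
    rt_eq := fun a b h => rt_eq Γ h
    root := fun v hv => (reach Γ v).dist_eq_zero_iff.1 hv
    par_adj := fun v hv => (hpar v hv).1
    par_dep := fun v hv => (hpar v hv).2
    lip := fun a b h => lip Γ h }⟩

end K9h63.RGO.RF_
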