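import Pool.Agent.K9h63.RGO.Stm

/-!
# Random graph orders (MP_b735d7_co), leaf STRA
-/

set_option autoImplicit false

namespace K9h63.RGO.STRA_

open Finset

theorem dep_iter {V : Type} {Γ : SimpleGraph V} (F : RF Γ) (x : V) :
    ∀ k, k ≤ F.dep x → F.dep (F.par^[k] x) + k = F.dep x := by
  intro k
  induction k with
  | zero => intro _; rfl
  | succ k ih =>
    intro hk
    have h1 := ih (by omega)
    rw [Function.iterate_succ_apply']
    have h2 := F.par_dep (F.par^[k] x) (by omega)
    omega

theorem stra (hgeo : S_GEO) : S_STRA := by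
  intro V _ _ G l R r M' hl hR hM hS F x hx
  classical
  rcases Nat.eq_zero_or_pos r with hr | hr
  · subst hr
    refine ⟨fun _ => x, fun _ => ∅, ?_, ?_, ?_, ?_⟩
    · intro a ha b hb _
      simp only [Nat.mul_zero, Set.mem_Iic, Nat.le_zero] at ha hb
      rw [ha, hb]
    · intro i hi; simp at hi
    · intro j hj; omega
    · intro j hj; omega
  set N := 10 * R * r with hN
  have hNpos : 0 < N := by rw [hN]; exact Nat.mul_pos (by omega) hr
  set v : ℕ → V := fun i => F.par^[F.dep x - i] x with hv
  have hdep : ∀ i ≤ N, F.dep (v i) = i := by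
    intro i hi
    have := dep_iter F x (F.dep x - i) (by omega)
    show F.dep (F.par^[F.dep x - i] x) = i
    omega
  have hadj : ∀ i < N, (Res G (Near G (Exc G l R) (2 * R))).Adj (v i) (v (i + 1)) := by
    intro i hi
    have h1 := F.par_adj (v (i + 1)) (by rw [hdep (i + 1) hi]; omega)
    have h2 : F.par (v (i + 1)) = v i := by
      show F.par (F.par^[F.dep x - (i + 1)] x) = F.par^[F.dep x - i] x
      rw [← Function.iterate_succ_apply' F.par, show (F.dep x - (i + 1)).succ = F.dep x - i by omega]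
    rwa [h2] at h1
  have hmem : ∀ i ≤ N, v i ∈ Near G (Exc G l R) (2 * R) := by
    intro i hi
    rcases Nat.lt_or_ge i N with h | h
    · exact (hadj i h).2.1
    · have h1 := (hadj (N - 1) (by omega)).2.2
      rwa [show N - 1 + 1 = i by omega] at h1
  have hex : ∀ j, j < r → ∃ X : Finset V, Deco G l R v (10 * R * j + 5 * R) X ∧
      ∀ y ∈ X, 10 * R * j + 5 * R ≤ F.dep y + 3 * R ∧ F.dep y ≤ 10 * R * j + 5 * R + 3 * R ∧
        ∀ k ≤ N, v k ≠ y := by
    intro j hj
    have h1 : 10 * R * (j + 1) ≤ N := Nat.mul_le_mul_left _ hj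
    have h2 : 10 * R * (j + 1) = 10 * R * j + 10 * R := by ring
    exact hgeo V G l R M' N hl hR hM hS F.dep F.lip v (fun i hi => ⟨hdep i hi, hmem i hi⟩)
      (fun i hi => (hadj i hi).1) (10 * R * j + 5 * R) (by omega) (by omega)
  choose! X hX using hex
  refine ⟨v, X, ?_, fun i hi => (hadj i hi).1, fun j hj => ⟨(hX j hj).1, ?_⟩, ?_⟩
  · intro a ha b hb he
    rw [Set.mem_Iic] at ha hb
    have h1 := hdep a ha
    have h2 := hdep b hb
    rw [he] at h1
    omega
  · intro k hk hmem'
    exact ((hX j hj).2 _ hmem').2.2 k hk rfl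
  · intro j hj j' hj' hne
    rw [Finset.disjoint_left]
    intro y hy hy'
    have h1 := (hX j hj).2 y hy
    have h2 := (hX j' hj').2 y hy'
    have hRpos : 0 < R := by omega
    rcases Nat.lt_or_gt_of_ne hne with h | h
    · have h3 : 10 * R * (j + 1) ≤ 10 * R * j' := Nat.mul_le_mul_left _ h
      have h4 : 10 * R * (j + 1) = 10 * R * j + 10 * R := by ring
      omega
    · have h3 : 10 * R * (j' + 1) ≤ 10 * R * j := Nat.mul_le_mul_left _ h
      have h4 : 10 * R * (j' + 1) = 10 * R * j' + 10 * R := by ring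
      omega

end K9h63.RGO.STRA_
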