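import Pool.Agent.K9h63.RGO.Basic
import Pool.Agent.K9h63.RGO.Det
import Pool.Agent.K9h63.RGO.Dim
import Pool.Agent.K9h63.RGO.Col
import Pool.Agent.K9h63.RGO.Nb
import Pool.Agent.K9h63.RGO.For
import Pool.Agent.K9h63.RGO.Pfl
import Pool.Agent.K9h63.RGO.Rf
import Pool.Agent.K9h63.RGO.One
import Pool.Agent.K9h63.RGO.Geo3
import Pool.Agent.K9h63.RGO.Stra
import Pool.Agent.K9h63.RGO.P1
import Pool.Agent.K9h63.RGO.P2

/-!
# Random graph orders (MP_b735d7_co): assembly
-/

set_option autoImplicit false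

namespace K9h63.RGO.FIN_

open Finset

theorem det' : S_DET :=
  DET_.det DIM_.dim col NB_.nb (PFL_.pfl for_) RF_.rf ONE_.one (STRA_.stra GEO_.geo)

/-- the order of the edge set `E` -/
def ord {n : ℕ} (E : Finset (Fin n × Fin n)) (i j : Fin n) : Prop :=
  Relation.ReflTransGen (fun a b => (a, b) ∈ E) i j

theorem ord_eq {n : ℕ} {E : Finset (Fin n × Fin n)} (hE : E ⊆ pairs n) : ord E = Le (gr E) := by
  have h : Up (gr E) = fun a b => (a, b) ∈ E := by
    funext a b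
    exact propext (up_gr hE a b)
  unfold ord Le
  rw [h]

/-- the dimension -/
noncomputable def dim {α : Type} (P : α → α → Prop) : ℕ := sInf {q | DimLE P q}

theorem dim_le {α : Type} {P : α → α → Prop} {q : ℕ} (h : DimLE P q) : dim P ≤ q := Nat.sInf_le h

theorem le_of_ord {n : ℕ} {E : Finset (Fin n × Fin n)} (hE : E ⊆ pairs n) {i j : Fin n}
    (h : ord E i j) : i ≤ j := by
  induction h with
  | refl => exact le_refl _
  | tail _ h2 ih => exact ih.trans (Finset.mem_filter.1 (hE h2)).2.le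

theorem one_le_dim {n : ℕ} (hn : 2 ≤ n) {E : Finset (Fin n × Fin n)} (hE : E ⊆ pairs n) {q : ℕ}
    (h : DimLE (ord E) q) : 1 ≤ dim (ord E) := by
  by_contra h0
  have h1 : dim (ord E) = 0 := by omega
  have h2 : DimLE (ord E) 0 := by
    have := Nat.sInf_mem (s := {q | DimLE (ord E) q}) ⟨q, h⟩
    rw [show sInf {q | DimLE (ord E) q} = 0 from h1] at this
    exact this
  obtain ⟨L, -, -, h3⟩ := h2
  have h4 := h3 ⟨1, by omega⟩ ⟨0, by omega⟩ (fun i => i.elim0)
  have h5 := le_of_ord hE h4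
  rw [Fin.mk_le_mk] at h5
  omega

theorem main (han : S_AN) (c : ℝ) (hc : 0 < c) : ∃ C : ℕ, ∀ p : ℕ → ℝ,
    (∀ n, 0 ≤ p n ∧ p n ≤ c / n) →
    Filter.Tendsto (fun n => Pr n (p n) (fun E => 1 ≤ dim (ord E) ∧ dim (ord E) ≤ C))
      Filter.atTop (nhds 1) := by
  obtain ⟨l, r, M, hl, hM, hlim⟩ := han c hc
  refine ⟨2 * (((l + 4) ^ (5 * (l + 1))) ^ 2 + 1) + 16, fun p hp => ?_⟩
  set R := 5 * (l + 1) with hR
  set C := 2 * (((l + 4) ^ R) ^ 2 + 1) + 16 with hC
  set B : ℕ → ℝ := fun n : ℕ => (n : ℝ) * (c / n) ^ 2 * (M n : ℝ) ^ 5 * (1 + c) ^ (2 * M n) +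
    n * (60 * (R : ℝ) * (2 * (R : ℝ) + 1) *
      (1 + c) ^ (12 * R + l) / (l.factorial : ℝ)) ^ (r n) with hB
  have hB0 : Filter.Tendsto B Filter.atTop (nhds 0) := hlim
  have hlow : Filter.Tendsto (fun n => 1 - B n) Filter.atTop (nhds 1) := by
    simpa using hB0.const_sub 1
  refine tendsto_of_tendsto_of_tendsto_of_le_of_le' hlow tendsto_const_nhds ?_ ?_
  · filter_upwards [Filter.eventually_ge_atTop (max 2 (Nat.ceil c))] with n hn
    have hn2 : 2 ≤ n := le_trans (le_max_left _ _) hn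
    have hnc : c ≤ n := (Nat.le_ceil c).trans (by exact_mod_cast le_trans (le_max_right _ _) hn)
    have hn0 : (0 : ℝ) < n := by exact_mod_cast (show 0 < n by omega)
    obtain ⟨hp0, hpc⟩ := hp n
    have hp1 : p n ≤ 1 := hpc.trans ((div_le_one hn0).2 hnc)
    have hnp : (n : ℝ) * p n ≤ c := by
      calc (n : ℝ) * p n ≤ n * (c / n) := mul_le_mul_of_nonneg_left hpc hn0.le
        _ = c := by field_simp
    have h1 := Pr_add_not (n := n) (p := p n)
      (fun E => 1 ≤ dim (ord E) ∧ dim (ord E) ≤ C)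
    have h2 : Pr n (p n) (fun E => ¬ (1 ≤ dim (ord E) ∧ dim (ord E) ≤ C)) ≤
        ∑ i ∈ (Finset.univ : Finset Bool), Pr n (p n)
          (fun E => if i = true then ¬ Sparse (gr E) (M n) else Str (gr E) l R (r n)) := by
      apply Pr_union hp0 hp1
      intro E hE hnot
      by_cases hS : Sparse (gr E) (M n)
      · by_cases hT : Str (gr E) l R (r n)
        · exact ⟨false, Finset.mem_univ _, by simpa using hT⟩
        · exfalso
          apply hnot
          have h3 := det' (Fin n) (gr E) l R (r n) (M n) hl hR (hM n).2 (hM n).1 hS hT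
          rw [← ord_eq hE] at h3
          exact ⟨one_le_dim hn2 hE h3, dim_le h3⟩
      · exact ⟨true, Finset.mem_univ _, by simpa using hS⟩
    rw [Fintype.sum_bool] at h2
    simp only [if_true, Bool.false_eq_true, if_false] at h2
    have h3 := P1_.p1 n (M n) (p n) hp0 hp1
    have h4 := p2 n l R (r n) (p n) hp0 hp1 hl hR
    have hnp0 : 0 ≤ (n : ℝ) * p n := mul_nonneg hn0.le hp0
    have h5 : (n : ℝ) * p n ^ 2 * (M n : ℝ) ^ 5 * (1 + n * p n) ^ (2 * M n) ≤
        (n : ℝ) * (c / n) ^ 2 * (M n : ℝ) ^ 5 * (1 + c) ^ (2 * M n) := by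
      gcongr
    have h6 : (n : ℝ) * (60 * R * (2 * R + 1) * (1 + n * p n) ^ (12 * R + l) /
        (l.factorial : ℝ)) ^ (r n) ≤
        n * (60 * (R : ℝ) * (2 * (R : ℝ) + 1) *
      (1 + c) ^ (12 * R + l) / (l.factorial : ℝ)) ^ (r n) := by
      gcongr
    show 1 - B n ≤ _
    have h7 : B n = (n : ℝ) * (c / n) ^ 2 * (M n : ℝ) ^ 5 * (1 + c) ^ (2 * M n) +
      n * (60 * (R : ℝ) * (2 * (R : ℝ) + 1) *
        (1 + c) ^ (12 * R + l) / (l.factorial : ℝ)) ^ (r n) := rfl
    linarith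
  · filter_upwards [Filter.eventually_ge_atTop (max 1 (Nat.ceil c))] with n hn
    have hnc : c ≤ n := (Nat.le_ceil c).trans (by exact_mod_cast le_trans (le_max_right _ _) hn)
    have hn0 : (0 : ℝ) < n := by
      exact_mod_cast (show 0 < n by have := le_trans (le_max_left _ _) hn; omega)
    obtain ⟨hp0, hpc⟩ := hp n
    have hp1 : p n ≤ 1 := hpc.trans ((div_le_one hn0).2 hnc)
    have h1 := Pr_add_not (n := n) (p := p n) (fun E => 1 ≤ dim (ord E) ∧ dim (ord E) ≤ C)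
    have h2 := Pr_nonneg hp0 hp1 (fun E : Finset (Fin n × Fin n) =>
      ¬ (1 ≤ dim (ord E) ∧ dim (ord E) ≤ C))
    linarith

end K9h63.RGO.FIN_
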