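import Pool.Agent.K9h63.RGO.Stm
import Pool.Agent.K9h63.RGO.Basic

/-!
# Random graph orders (MP_b735d7_co), leaf GEO, part 1: ears, gaps, paths to the exceptional set
-/

set_option autoImplicit false

namespace K9h63.RGO.GEO_

open Finset

variable {V : Type}

/-- adding a path to a linked set -/
theorem tail [LinearOrder V] {G : SimpleGraph V} {S : Finset V} (hS : Linked G S) {e : ℕ}
    (he : S.card + e ≤ eIn G S + 1) (q : ℕ → V) (k : ℕ) (hk : q k ∈ S) :
    ∀ m : ℕ, (∀ j, k ≤ j → j < k + m → G.Adj (q j) (q (j + 1))) →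
      (∀ j, k < j → j ≤ k + m → q j ∉ S) →
      (∀ j j', k < j → j < j' → j' ≤ k + m → q j ≠ q j') →
      Linked G (S ∪ (Finset.Ioc k (k + m)).image q) ∧
      (S ∪ (Finset.Ioc k (k + m)).image q).card = S.card + m ∧
      (S ∪ (Finset.Ioc k (k + m)).image q).card + e ≤
        eIn G (S ∪ (Finset.Ioc k (k + m)).image q) + 1 := by
  intro m
  induction m with
  | zero =>
    intro _ _ _
    simp only [Nat.add_zero, Finset.Ioc_self, Finset.image_empty, Finset.union_empty]
    exact ⟨hS, trivial, he⟩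
  | succ m ih =>
    intro h1 h2 h3
    obtain ⟨i1, i2, i3⟩ := ih (fun j a b => h1 j a (by omega)) (fun j a b => h2 j a (by omega))
      (fun j j' a b c => h3 j j' a b (by omega))
    have hset : S ∪ (Finset.Ioc k (k + (m + 1))).image q =
        insert (q (k + m + 1)) (S ∪ (Finset.Ioc k (k + m)).image q) := by
      ext x
      simp only [Finset.mem_union, Finset.mem_image, Finset.mem_Ioc, Finset.mem_insert]
      constructor
      · rintro (h | ⟨j, hj, rfl⟩)
        · exact Or.inr (Or.inl h)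
        · rcases Nat.lt_or_ge j (k + m + 1) with h | h
          · exact Or.inr (Or.inr ⟨j, ⟨hj.1, by omega⟩, rfl⟩)
          · exact Or.inl (by rw [show j = k + m + 1 by omega])
      · rintro (rfl | h | ⟨j, hj, rfl⟩)
        · exact Or.inr ⟨k + m + 1, ⟨by omega, by omega⟩, rfl⟩
        · exact Or.inl h
        · exact Or.inr ⟨j, ⟨hj.1, by omega⟩, rfl⟩
    have hnot : q (k + m + 1) ∉ S ∪ (Finset.Ioc k (k + m)).image q := by
      simp only [Finset.mem_union, Finset.mem_image, Finset.mem_Ioc, not_or, not_exists, not_and]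
      refine ⟨h2 _ (by omega) (by omega), fun j hj he => ?_⟩
      exact h3 j (k + m + 1) hj.1 (by omega) (by omega) he
    have hmem : q (k + m) ∈ S ∪ (Finset.Ioc k (k + m)).image q := by
      rcases Nat.eq_zero_or_pos m with h | h
      · subst h
        exact Finset.mem_union_left _ hk
      · exact Finset.mem_union_right _ (Finset.mem_image.2 ⟨k + m, Finset.mem_Ioc.2 ⟨by omega, le_rfl⟩, rfl⟩)
    have hadj := h1 (k + m) (by omega) (by omega)
    rw [hset]
    refine ⟨i1.insert hmem hadj, ?_, ?_⟩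
    · rw [Finset.card_insert_of_notMem hnot, i2]; omega
    · have h4 := eIn_insert (G := G) (N := {q (k + m)}) hnot (by simpa using hmem)
        (fun u hu => by rw [Finset.mem_singleton.1 hu]; exact hadj)
      rw [Finset.card_singleton] at h4
      rw [Finset.card_insert_of_notMem hnot]
      omega

/-- adding an ear: one more edge than vertices -/
theorem ear [LinearOrder V] {G : SimpleGraph V} {S : Finset V} (hS : Linked G S) {e : ℕ}
    (he : S.card + e ≤ eIn G S + 1) (q : ℕ → V) (k m : ℕ) (hk : q k ∈ S) (hkm : q (k + m + 2) ∈ S)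
    (h1 : ∀ j, k ≤ j → j < k + m + 2 → G.Adj (q j) (q (j + 1)))
    (h2 : ∀ j, k < j → j < k + m + 2 → q j ∉ S)
    (h3 : ∀ j j', k ≤ j → j < j' → j' ≤ k + m + 2 → q j ≠ q j') :
    Linked G (S ∪ (Finset.Ioc k (k + (m + 1))).image q) ∧
      (S ∪ (Finset.Ioc k (k + (m + 1))).image q).card = S.card + (m + 1) ∧
      (S ∪ (Finset.Ioc k (k + (m + 1))).image q).card + (e + 1) ≤
        eIn G (S ∪ (Finset.Ioc k (k + (m + 1))).image q) + 1 := by
  obtain ⟨i1, i2, i3⟩ := tail hS he q k hk m (fun j a b => h1 j a (by omega))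
    (fun j a b => h2 j a (by omega)) (fun j j' a b c => h3 j j' (by omega) b (by omega))
  have hset : S ∪ (Finset.Ioc k (k + (m + 1))).image q =
      insert (q (k + m + 1)) (S ∪ (Finset.Ioc k (k + m)).image q) := by
    ext x
    simp only [Finset.mem_union, Finset.mem_image, Finset.mem_Ioc, Finset.mem_insert]
    constructor
    · rintro (h | ⟨j, hj, rfl⟩)
      · exact Or.inr (Or.inl h)
      · rcases Nat.lt_or_ge j (k + m + 1) with h | h
        · exact Or.inr (Or.inr ⟨j, ⟨hj.1, by omega⟩, rfl⟩)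
        · exact Or.inl (by rw [show j = k + m + 1 by omega])
    · rintro (rfl | h | ⟨j, hj, rfl⟩)
      · exact Or.inr ⟨k + m + 1, ⟨by omega, by omega⟩, rfl⟩
      · exact Or.inl h
      · exact Or.inr ⟨j, ⟨hj.1, by omega⟩, rfl⟩
  have hnot : q (k + m + 1) ∉ S ∪ (Finset.Ioc k (k + m)).image q := by
    simp only [Finset.mem_union, Finset.mem_image, Finset.mem_Ioc, not_or, not_exists, not_and]
    refine ⟨h2 _ (by omega) (by omega), fun j hj he => ?_⟩
    exact h3 j (k + m + 1) (by omega) (by omega) (by omega) he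
  have hmem : q (k + m) ∈ S ∪ (Finset.Ioc k (k + m)).image q := by
    rcases Nat.eq_zero_or_pos m with h | h
    · subst h
      exact Finset.mem_union_left _ hk
    · exact Finset.mem_union_right _ (Finset.mem_image.2 ⟨k + m, Finset.mem_Ioc.2 ⟨by omega, le_rfl⟩, rfl⟩)
  have hadj := h1 (k + m) (by omega) (by omega)
  have hadj2 := h1 (k + m + 1) (by omega) (by omega)
  have hne : q (k + m) ≠ q (k + m + 2) := h3 _ _ (by omega) (by omega) (by omega)
  rw [hset]
  refine ⟨i1.insert hmem hadj, ?_, ?_⟩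
  · rw [Finset.card_insert_of_notMem hnot, i2]; omega
  · have h4 := eIn_insert (G := G) (N := {q (k + m), q (k + m + 2)}) hnot
      (by
        intro u hu
        rcases Finset.mem_insert.1 hu with rfl | hu
        · exact hmem
        · rw [Finset.mem_singleton.1 hu]; exact Finset.mem_union_left _ hkm)
      (fun u hu => by
        rcases Finset.mem_insert.1 hu with rfl | hu
        · exact hadj
        · rw [Finset.mem_singleton.1 hu]; exact hadj2.symm)
    rw [Finset.card_pair hne] at h4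
    rw [Finset.card_insert_of_notMem hnot]
    omega

/-- a subset of `{0, …, R}` without long runs and long gaps has two gaps -/
theorem two_gaps {l R : ℕ} (hl : 1 ≤ l) (hR : 5 * (l + 1) ≤ R) (I : ℕ → Prop) (hI : ∃ k ≤ R, I k)
    (hUp : ∀ k, I k → k + l ≤ R → ∃ j, k < j ∧ j ≤ k + l ∧ I j)
    (hDn : ∀ k ≤ R, I k → l ≤ k → ∃ j, j < k ∧ k ≤ j + l ∧ I j)
    (hRun : ∀ k, k + l ≤ R → ∃ j, k ≤ j ∧ j ≤ k + l ∧ ¬ I j) :
    ∃ k₁ m₁ k₃ m₃, I k₁ ∧ I (k₁ + m₁ + 2) ∧ (∀ j, k₁ < j → j < k₁ + m₁ + 2 → ¬ I j) ∧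
      k₁ + m₁ + 2 ≤ k₃ ∧ I k₃ ∧ I (k₃ + m₃ + 2) ∧ (∀ j, k₃ < j → j < k₃ + m₃ + 2 → ¬ I j) ∧
      k₃ + m₃ + 2 ≤ R := by
  classical
  -- one gap after `a ∈ I`
  have gap : ∀ a, I a → a + 2 * l ≤ R → ∃ k m, a ≤ k ∧ I k ∧ I (k + m + 2) ∧
      (∀ j, k < j → j < k + m + 2 → ¬ I j) ∧ k + m + 2 ≤ a + 2 * l := by
    intro a ha haR
    have hex : ∃ j, a < j ∧ ¬ I j := by
      obtain ⟨j, h1, h2, h3⟩ := hRun a (by omega)
      refine ⟨j, lt_of_le_of_ne h1 ?_, h3⟩
      rintro rfl; exact h3 ha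
    have hle : Nat.find hex ≤ a + l := by
      obtain ⟨j, h1, h2, h3⟩ := hRun a (by omega)
      refine le_trans (Nat.find_min' hex ⟨lt_of_le_of_ne h1 ?_, h3⟩) h2
      rintro rfl; exact h3 ha
    obtain ⟨hj1, hj2⟩ := Nat.find_spec hex
    have hmin : ∀ j, a < j → j < Nat.find hex → I j := by
      intro j h1 h2
      by_contra h3
      exact Nat.find_min hex h2 ⟨h1, h3⟩
    obtain ⟨j, hj⟩ : ∃ j, Nat.find hex = j + 1 := ⟨Nat.find hex - 1, by omega⟩
    rw [hj] at hj1 hj2 hmin hle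
    have hIj : I j := by
      rcases Nat.lt_or_ge a j with h | h
      · exact hmin j h (by omega)
      · rwa [show j = a by omega]
    have hex2 : ∃ x, j < x ∧ I x := by
      obtain ⟨x, h1, h2, h3⟩ := hUp j hIj (by omega)
      exact ⟨x, h1, h3⟩
    have hle2 : Nat.find hex2 ≤ j + l := by
      obtain ⟨x, h1, h2, h3⟩ := hUp j hIj (by omega)
      exact le_trans (Nat.find_min' hex2 ⟨h1, h3⟩) h2
    obtain ⟨hx1, hx2⟩ := Nat.find_spec hex2
    have hx3 : Nat.find hex2 ≠ j + 1 := fun h => hj2 (h ▸ hx2)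
    obtain ⟨m, hm⟩ : ∃ m, Nat.find hex2 = j + m + 2 := ⟨Nat.find hex2 - j - 2, by omega⟩
    refine ⟨j, m, by omega, hIj, hm ▸ hx2, fun y h1 h2 h3 => ?_, by omega⟩
    exact Nat.find_min hex2 (by omega) ⟨h1, h3⟩
  -- an element of `I` below `l`
  have hlow : ∃ a, I a ∧ a < l := by
    have hex : ∃ k, k ≤ R ∧ I k := hI
    obtain ⟨h1, h2⟩ := Nat.find_spec hex
    refine ⟨Nat.find hex, h2, ?_⟩
    by_contra h3
    obtain ⟨j, h4, h5, h6⟩ := hDn _ h1 h2 (not_lt.1 h3)
    exact Nat.find_min hex h4 ⟨by omega, h6⟩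
  obtain ⟨a, ha, hal⟩ := hlow
  obtain ⟨k₁, m₁, g1, g2, g3, g4, g5⟩ := gap a ha (by omega)
  obtain ⟨k₃, m₃, f1, f2, f3, f4, f5⟩ := gap (k₁ + m₁ + 2) g3 (by omega)
  exact ⟨k₁, m₁, k₃, m₃, g2, g3, g4, f1, f2, f3, f4, by omega⟩

/-- a shortest path from a vertex near `W` to `W` -/
theorem shortest {G : SimpleGraph V} {W : Set V} {m : ℕ} {x : V} (hx : x ∈ Near G W m) :
    ∃ (t : ℕ) (κ : ℕ → V), t ≤ m ∧ κ 0 = x ∧ κ t ∈ W ∧ (∀ j < t, G.Adj (κ j) (κ (j + 1))) ∧
      (∀ s < t, κ s ∉ W) ∧ (∀ s ≤ t, κ s ∈ Near G W m) ∧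
      (∀ s s', s < s' → s' ≤ t → κ s ≠ κ s') ∧ (∀ s, s + 1 < t → ¬ G.Adj (κ t) (κ s)) := by
  classical
  have hex : ∃ k, k ≤ m ∧ ∃ u : ℕ → V, u 0 = x ∧ u k ∈ W ∧ ∀ j < k, G.Adj (u j) (u (j + 1)) := by
    obtain ⟨k, hk, u, hu⟩ := hx
    exact ⟨k, hk, u, hu⟩
  obtain ⟨ht, κ, h0, hW, hadj⟩ := Nat.find_spec hex
  set t := Nat.find hex with htdef
  have hmin : ∀ k < t, ∀ u : ℕ → V, u 0 = x → u k ∈ W → (∀ j < k, G.Adj (u j) (u (j + 1))) → False := by
    intro k hk u h1 h2 h3
    exact Nat.find_min hex hk ⟨by omega, u, h1, h2, h3⟩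
  refine ⟨t, κ, ht, h0, hW, hadj, ?_, ?_, ?_, ?_⟩
  · intro s hs hsW
    exact hmin s hs κ h0 hsW (fun j hj => hadj j (by omega))
  · intro s hs
    refine ⟨t - s, by omega, fun j => κ (s + j), rfl, ?_, ?_⟩
    · show κ (s + (t - s)) ∈ W
      rwa [show s + (t - s) = t by omega]
    · intro j hj
      exact hadj (s + j) (by omega)
  · intro s s' hss hs't he
    refine hmin (t - (s' - s)) (by omega) (fun j => if j ≤ s then κ j else κ (j + (s' - s))) ?_ ?_ ?_
    · show (if 0 ≤ s then κ 0 else _) = x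
      rw [if_pos (Nat.zero_le _)]; exact h0
    · show (if t - (s' - s) ≤ s then κ (t - (s' - s)) else κ (t - (s' - s) + (s' - s))) ∈ W
      split_ifs with h
      · have h5 : s' = t := by omega
        rw [show t - (s' - s) = s by omega, he, h5]; exact hW
      · rwa [show t - (s' - s) + (s' - s) = t by omega]
    · intro j hj
      show G.Adj (if j ≤ s then κ j else κ (j + (s' - s)))
        (if j + 1 ≤ s then κ (j + 1) else κ (j + 1 + (s' - s)))
      split_ifs with h1 h2 h2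
      · exact hadj j (by omega)
      · have : j = s := by omega
        subst this
        rw [he, show j + 1 + (s' - j) = s' + 1 by omega]
        exact hadj s' (by omega)
      · omega
      · rw [show j + 1 + (s' - s) = j + (s' - s) + 1 by omega]
        exact hadj _ (by omega)
  · intro s hs hadj2
    refine hmin (s + 1) (by omega) (fun j => if j ≤ s then κ j else κ t) ?_ ?_ ?_
    · show (if 0 ≤ s then κ 0 else _) = x
      rw [if_pos (Nat.zero_le _)]; exact h0
    · show (if s + 1 ≤ s then κ (s + 1) else κ t) ∈ W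
      rw [if_neg (by omega)]; exact hW
    · intro j hj
      show G.Adj (if j ≤ s then κ j else κ t) (if j + 1 ≤ s then κ (j + 1) else κ t)
      split_ifs with h1 h2 h2
      · exact hadj j (by omega)
      · have : j = s := by omega
        subst this
        exact hadj2.symm
      · omega
      · omega

end K9h63.RGO.GEO_
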