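import Pool.Agent.K9h63.RGO.Geo1

/-!
# Random graph orders (MP_b735d7_co), leaf GEO, part 2: the cases
-/

set_option autoImplicit false

namespace K9h63.RGO.GEO_

open Finset

variable {V : Type}

/-- the conclusion of GEO -/
def Concl [LinearOrder V] (G : SimpleGraph V) (l R N : ℕ) (f : V → ℕ) (v : ℕ → V) (i : ℕ) : Prop :=
  ∃ X : Finset V, Deco G l R v i X ∧
    ∀ x ∈ X, i ≤ f x + 3 * R ∧ f x ≤ i + 3 * R ∧ ∀ k ≤ N, v k ≠ x

section path

variable [LinearOrder V] {G : SimpleGraph V} {l R N : ℕ} {f : V → ℕ} {v : ℕ → V} {i : ℕ}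

/-- monotone path leaving the geodesic at `q k` upwards -/
theorem case_up {q : ℕ → V} {k : ℕ} (hkR : k + l ≤ R) (hq : ∀ j < R, Up G (q j) (q (j + 1)))
    (hmono : ∀ j j', j < j' → j' ≤ R → q j < q j')
    (hf : ∀ j ≤ R, i ≤ f (q j) + 3 * R ∧ f (q j) ≤ i + 3 * R) {b : ℕ} (hb : q k = v b)
    (hfb : f (v b) = b) (hout : ∀ j, k < j → j ≤ k + l → ∀ x ≤ N, v x ≠ q j) :
    Concl G l R N f v i := by
  classical
  refine ⟨(Finset.Icc 1 (0 + l)).image (fun m => q (k + m)), ⟨b, ?_, Or.inr ⟨?_, 0, false,
    fun m => q (k + m), Nat.zero_le _, hb, ?_, ?_, Or.inl ?_, rfl⟩⟩, ?_⟩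
  · have := (hf k (by omega)).1
    rw [hb, hfb] at this; exact this
  · have := (hf k (by omega)).2
    rw [hb, hfb] at this; exact this
  · intro m hm
    simp only [Bool.false_eq_true, if_false]
    exact (hq (k + m) (by omega)).2
  · intro m hm m' hm' he
    simp only [Set.mem_Icc] at hm hm'
    have he' : q (k + m) = q (k + m') := he
    by_contra hne
    rcases Nat.lt_or_gt_of_ne hne with h | h
    · exact absurd he' (hmono _ _ (by omega) (by omega)).ne
    · exact absurd he' (hmono _ _ (by omega) (by omega)).ne'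
  · intro m hm m' hm' hlt
    simp only [Set.mem_Icc] at hm hm'
    exact hmono _ _ (by omega) (by omega)
  · intro x hx
    obtain ⟨m, hm, rfl⟩ := Finset.mem_image.1 hx
    rw [Finset.mem_Icc] at hm
    exact ⟨(hf _ (by omega)).1, (hf _ (by omega)).2, fun x hx => hout _ (by omega) (by omega) x hx⟩

/-- monotone path leaving the geodesic at `q k` downwards -/
theorem case_down {q : ℕ → V} {k : ℕ} (hkR : k ≤ R) (hlk : l ≤ k)
    (hq : ∀ j < R, Up G (q j) (q (j + 1)))
    (hmono : ∀ j j', j < j' → j' ≤ R → q j < q j')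
    (hf : ∀ j ≤ R, i ≤ f (q j) + 3 * R ∧ f (q j) ≤ i + 3 * R) {b : ℕ} (hb : q k = v b)
    (hfb : f (v b) = b) (hout : ∀ j, j < k → k ≤ j + l → ∀ x ≤ N, v x ≠ q j) :
    Concl G l R N f v i := by
  classical
  refine ⟨(Finset.Icc 1 (0 + l)).image (fun m => q (k - m)), ⟨b, ?_, Or.inr ⟨?_, 0, false,
    fun m => q (k - m), Nat.zero_le _, hb, ?_, ?_, Or.inr ?_, rfl⟩⟩, ?_⟩
  · have := (hf k (by omega)).1
    rw [hb, hfb] at this; exact this
  · have := (hf k (by omega)).2
    rw [hb, hfb] at this; exact this
  · intro m hm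
    simp only [Bool.false_eq_true, if_false]
    have h := (hq (k - (m + 1)) (by omega)).2
    rw [show k - (m + 1) + 1 = k - m by omega] at h
    exact h.symm
  · intro m hm m' hm' he
    simp only [Set.mem_Icc] at hm hm'
    have he' : q (k - m) = q (k - m') := he
    by_contra hne
    rcases Nat.lt_or_gt_of_ne hne with h | h
    · exact absurd he' (hmono _ _ (by omega) (by omega)).ne'
    · exact absurd he' (hmono _ _ (by omega) (by omega)).ne
  · intro m hm m' hm' hlt
    simp only [Set.mem_Icc] at hm hm'
    exact hmono _ _ (by omega) (by omega)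
  · intro x hx
    obtain ⟨m, hm, rfl⟩ := Finset.mem_image.1 hx
    rw [Finset.mem_Icc] at hm
    exact ⟨(hf _ (by omega)).1, (hf _ (by omega)).2, fun x hx => hout _ (by omega) (by omega) x hx⟩

/-- a run of the monotone path on the geodesic -/
theorem case_run {q : ℕ → V} {k : ℕ} (hkR : k + l ≤ R)
    (hmono : ∀ j j', j < j' → j' ≤ R → q j < q j')
    (hf : ∀ j ≤ R, i ≤ f (q j) + 3 * R ∧ f (q j) ≤ i + 3 * R)
    (hfv : ∀ x ≤ N, f (v x) = x)
    (hin : ∀ j, k ≤ j → j ≤ k + l → ∃ x ≤ N, v x = q j)
    (hstep : ∀ j, k ≤ j → j < k + l → f (q (j + 1)) ≤ f (q j) + 1 ∧ f (q j) ≤ f (q (j + 1)) + 1) :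
    Concl G l R N f v i := by
  classical
  have hv : ∀ j, k ≤ j → j ≤ k + l → v (f (q j)) = q j ∧ f (q j) ≤ N := by
    intro j h1 h2
    obtain ⟨x, hx, hxj⟩ := hin j h1 h2
    have : f (q j) = x := by rw [← hxj]; exact hfv x hx
    rw [this]; exact ⟨hxj, hx⟩
  have hne : ∀ j j', k ≤ j → j < j' → j' ≤ k + l → f (q j) ≠ f (q j') := by
    intro j j' h1 h2 h3 he
    have e1 := (hv j h1 (by omega)).1
    have e2 := (hv j' (by omega) h3).1
    rw [he, e2] at e1
    exact absurd e1 (hmono j j' h2 (by omega)).ne'
  -- the direction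
  have hdir : ∀ m, m ≤ l → (∀ j ≤ m, f (q (k + j)) = f (q k) + j) ∨
      (∀ j ≤ m, f (q (k + j)) + j = f (q k)) := by
    intro m
    induction m with
    | zero =>
      intro _
      left
      intro j hj
      rw [Nat.le_zero.1 hj]; rfl
    | succ m ih =>
      intro hm
      have h1 := hstep (k + m) (by omega) (by omega)
      have h2 := hne (k + m) (k + m + 1) (by omega) (by omega) (by omega)
      rcases Nat.eq_zero_or_pos m with h0 | hpos
      · subst h0
        simp only [Nat.add_zero] at h1 h2
        rcases Nat.lt_or_ge (f (q k)) (f (q (k + 1))) with h | h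
        · left
          intro j hj
          rcases Nat.eq_zero_or_pos j with h3 | h3
          · subst h3; rfl
          · rw [show j = 1 by omega]; omega
        · right
          intro j hj
          rcases Nat.eq_zero_or_pos j with h3 | h3
          · subst h3; rfl
          · rw [show j = 1 by omega]; omega
      · have h4 := hne (k + (m - 1)) (k + m + 1) (by omega) (by omega) (by omega)
        rcases ih (by omega) with h | h
        · left
          have e1 := h m le_rfl
          have e2 := h (m - 1) (by omega)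
          intro j hj
          rcases Nat.lt_or_ge j (m + 1) with h5 | h5
          · exact h j (by omega)
          · rw [show j = m + 1 by omega, show k + (m + 1) = k + m + 1 by omega]
            omega
        · right
          have e1 := h m le_rfl
          have e2 := h (m - 1) (by omega)
          intro j hj
          rcases Nat.lt_or_ge j (m + 1) with h5 | h5
          · exact h j (by omega)
          · rw [show j = m + 1 by omega, show k + (m + 1) = k + m + 1 by omega]
            omega
  rcases hdir l le_rfl with h | h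
  · refine ⟨∅, ⟨f (q k), (hf k (by omega)).1, Or.inl ⟨rfl, ?_, Or.inl ?_⟩⟩, by simp⟩
    · have := (hf (k + l) (by omega)).2
      rw [h l le_rfl] at this; exact this
    · intro x hx y hy hxy
      rw [Set.mem_Icc] at hx hy
      have e1 := (hv (k + (x - f (q k))) (by omega) (by omega)).1
      have e2 := (hv (k + (y - f (q k))) (by omega) (by omega)).1
      rw [h _ (by omega), show f (q k) + (x - f (q k)) = x by omega] at e1
      rw [h _ (by omega), show f (q k) + (y - f (q k)) = y by omega] at e2
      rw [e1, e2]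
      exact hmono _ _ (by omega) (by omega)
  · have hl := h l le_rfl
    refine ⟨∅, ⟨f (q (k + l)), (hf (k + l) (by omega)).1, Or.inl ⟨rfl, ?_, Or.inr ?_⟩⟩, by simp⟩
    · rw [hl]; exact (hf k (by omega)).2
    · intro x hx y hy hxy
      rw [Set.mem_Icc] at hx hy
      have e1 := (hv (k + (f (q k) - x)) (by omega) (by omega)).1
      have e2 := (hv (k + (f (q k) - y)) (by omega) (by omega)).1
      have g1 := h (f (q k) - x) (by omega)
      have g2 := h (f (q k) - y) (by omega)
      rw [show f (q (k + (f (q k) - x))) = x by omega] at e1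
      rw [show f (q (k + (f (q k) - y))) = y by omega] at e2
      rw [e1, e2]
      exact hmono _ _ (by omega) (by omega)

end path

end K9h63.RGO.GEO_
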