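import Pool.Agent.K9h63.RGO.Defs

/-!
# Random graph orders at `p = c/n` (MP_b735d7_co): the leaves

Every leaf `S_X` is to be proved as `theorem x : S_X` in its own file `Pool/Agent/K9h63/RGO/X.lean`
(names in the table `rgo_leaves`). Definitions: `Defs.lean`. The docstrings contain the proofs.
-/

set_option autoImplicit false

namespace K9h63.RGO

open Finset

/-- **DIM** (easy). For `lam : V → ℕ` put `m u = sup {lam z | Le G z u}` and order `V` by `(m u, u)`
lexicographically: a linear extension of `Le G` (`Le G u v → u ≤ v` and `m u ≤ m v`). If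
`lam z < lam x` for all `z ≤ y`, then `m y < lam x ≤ m x`, so `y` comes strictly before `x`. For `mu`
the same in the reversed order (`V` with `≥`). So every pair `x ≰ y` is reversed by one of the orders. -/
def S_DIM : Prop := ∀ (V : Type) [Fintype V] [LinearOrder V] (G : SimpleGraph V) (q₁ q₂ : ℕ)
  (lam : Fin q₁ → V → ℕ) (mu : Fin q₂ → V → ℕ),
  (∀ x y, ¬ Le G x y → (∃ i, ∀ z, Le G z y → lam i z < lam i x) ∨
    (∃ i, ∀ z, Le G x z → mu i z < mu i y)) → DimLE (Le G) (q₁ + q₂)

/-- **COL**. Let `W = Exc G l R`, `K = (l + 4) ^ R`. If `x ∉ Dn G W`, then no vertex of the up-set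
`U[x] = {v | Le G x v}` is in `W`: all have degree `≤ l + 3` and every monotone path from `x` has `< R`
edges; so `|U[x]| ≤ (l + 4) ^ R` (the set `N i` of ends of monotone paths from `x` with at most `i` edges has
`|N (i+1)| ≤ (l + 4) |N i|`). Likewise `|D[y]| ≤ K` for `y ∉ Upp G W`. Call different
`u, v ∉ Dn G W` in conflict if `u, v ∈ D[y]` for some `y ∉ Upp G W`; every `u` has at most `K * K`
conflicts, so there is a colouring `col : V → Fin (K ^ 2 + 1)` without conflicts inside a colour (greedy:
induction over a finite set, or any greedy lemma). For a colour `a` take the two functions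
`z ↦ if z ∉ Dn G W ∧ col z = a then 1 + rank z else 0` and the same with `|V| - rank z`, where
`rank z = #{v | v < z}`. For the pair `x, y` take `a = col x`: at most one element `w ≠ x` of `D[y]` has a
positive value (elements of `D[y] \ Dn G W` have different colours), and one of the two functions puts
`w` below `x`. -/
def S_COL : Prop := ∀ (V : Type) [Fintype V] [LinearOrder V] (G : SimpleGraph V) (l R : ℕ), 1 ≤ R →
  ∃ lam : Fin (2 * (((l + 4) ^ R) ^ 2 + 1)) → V → ℕ,
    ∀ x y, x ∉ Dn G (Exc G l R) → y ∉ Upp G (Exc G l R) → ¬ Le G x y →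
      ∃ i, ∀ z, Le G z y → lam i z < lam i x

/-- **NB**. Let `W = Exc G l R`, `z ≤ w ∈ W` and `z ≤ y`. Every vertex `v` of a monotone path from `z` to
`y` is in `Near G W (2 R)`: if the piece from `z` to `v` has at least `R` edges then `v ∈ W` (`v` is the end of
a monotone path with `R` edges); otherwise `v` is at distance `< R` from `z`, and `z` is at distance `< R`
from `w`, or `z ∈ W` because the path from `z` to `w` has at least `R` edges. -/
def S_NB : Prop := ∀ (V : Type) [Fintype V] [LinearOrder V] (G : SimpleGraph V) (l R : ℕ) (z y : V),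
  z ∈ Dn G (Exc G l R) → Le G z y → Le (Res G (Near G (Exc G l R) (2 * R))) z y

/-- monotone paths in the forest -/
def LeT {V : Type} [LinearOrder V] {Γ : SimpleGraph V} (F : RF Γ) (a b : V) : Prop :=
  Relation.ReflTransGen (fun a b => a < b ∧ F.Tree a b) a b

/-- **FOR** (order of a rooted forest). Let `sg v` (`dep v ≠ 0`) say whether `par v < v` (sign `+`) or
`v < par v` (sign `-`). The root path of `v` is the list `a 0 = rt v, a 1, …, a k = v`.

(1) `LeT z y` iff there is a common prefix of the two root paths, ending in `m`, from which `z` is reached by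
signs `-` only and `y` by signs `+` only. (`→` by induction on the path, appending an edge `y y'`.)

(2) The four functions are lexicographic codes (list of integers along the root path, then `0` as
the end mark; compare lexicographically; at the end replace the codes by their ranks, a natural number):
* `α`: first the rank of the root, then for `a i` the value `+ (rank (a i) + 1)` for sign `+`,
  `- (rank (a i) + 1)` for sign `-`;
* `α'`: the same with `|V| - rank` instead of `rank + 1` (reversed among the children of the same sign, and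
  reversed roots);
* `low`: for `a i`: `1` if its sign is `+`, `-1` if all the signs of `a i, …, a k` are `-`, `2` if the sign is
  `-` but a later one is `+`;
* `high`: for `a i`: `1` if its sign is `-`, `2` if all the signs of `a i, …, a k` are `+`, `-1` if the sign
  is `+` but a later one is `-`.
(For `low`, `high` the code depends only on the list of signs.)

(3) Different roots: `α` or `α'`. Same root, `x ≰ y`: let `a 0, …, a k = y` be the root path of `y`, and `i₀`
minimal with signs `+` for all of `a (i₀+1), …, a k`. All `z ≤ y` are below some `a i`, `i₀ ≤ i`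
(reached by signs `-`); all are in the subtree of `a i₀`. Let `a i` be the last common vertex of the root
paths of `x, y`; `b` the next one of `x` (if any).
* `i < i₀`, `x = a i`: if `sg (a (i+1)) = -`, then `α`; if `+` (then `a i₀` is a later `-`), `high`.
* `i < i₀`, `b` exists: `α` or `α'`, unless `sg b = -`, `sg (a (i+1)) = +` (so that `a i₀` is a later `-` for
  all `z ≤ y`): if the path from `a i` to `x` has a `+` then `low` (`x` has `2` at `b`, `z` has `1` at
  `a (i+1)`, and at common vertices the entry of `x` is at least the one of `z`), otherwise `high`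
  (`x` has `1`, `z` has `-1`, common entries of `x` and `z` are equal).
* `i ≥ i₀`: then `x ≠ a i` and the path from `a i` to `x` has a `+`. If `sg b = +`: `α` or `α'`; if `sg b = -`:
  `low` (`x` has `2` at `b` and at all earlier `-`; `z` leaves the root path of `y` by `-` only with the
  entry `-1`, or ends). -/
def S_FOR : Prop := ∀ (V : Type) [Fintype V] [LinearOrder V] (Γ : SimpleGraph V) (F : RF Γ),
  ∃ lam : Fin 4 → V → ℕ,
    (∀ x y, F.rt x = F.rt y → ¬ LeT F x y → ∃ i, ∀ z, LeT F z y → lam i z < lam i x) ∧
    ∀ x y, F.rt x ≠ F.rt y → ∃ i, ∀ z, F.rt z = F.rt y → lam i z < lam i x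

/-- **PFL**, from `S_FOR`. In a component there is at most one edge `s < s'` outside the forest. A monotone
path uses it at most once, so `Le Γ z y` iff `LeT z y`, or `LeT z s` and `LeT s' y` (`s < s'` the extra edge of
the component of `y`). The eight functions: `lam j`, and `v ↦ if LeT v s (s of the component of v) then 0 else
lam j v + 1`. Let `x ≰ y`. Different roots: `lam j` of the second part. Same root: if there is no extra
edge or not `LeT s' y`, the elements below `y` are those of the forest: `lam j`. If `LeT s' y`, then not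
`LeT x s`, and the elements below `y` are below `y` in the forest, or have the value `0`. -/
def S_PFL : Prop := ∀ (V : Type) [Fintype V] [LinearOrder V] (Γ : SimpleGraph V) (F : RF Γ), F.One →
  ∃ lam : Fin 8 → V → ℕ, ∀ x y, ¬ Le Γ x y → ∃ i, ∀ z, Le Γ z y → lam i z < lam i x

/-- **RF**: breadth first forest: `rt v` a chosen vertex of the component, `dep v = Γ.dist (rt v) v`, `par v` the
last but one vertex of a shortest walk from `rt v` to `v`. -/
def S_RF : Prop := ∀ (V : Type) [Fintype V] (Γ : SimpleGraph V), Nonempty (RF Γ)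

/-- **ONE**. Let `a b`, `c d` be different edges of `Res G S` outside the forest with the same root `ρ`. Let
`A` be the set of the ancestors (`par^[j]`) of `a, b, c, d`, with themselves: at most `4 M` vertices (depths
`< M`). It is closed under `par`, contains `ρ`, so it is `Linked G` (take the vertex of least depth of
`A \ T` if `ρ ∈ T`, of `T` otherwise). The edges `v, par v` for `v ∈ A`, `v ≠ ρ` and the two other edges are
`|A| - 1 + 2` edges inside `A`, against `Sparse`. -/
def S_ONE : Prop := ∀ (V : Type) [Fintype V] [LinearOrder V] (G : SimpleGraph V) (S : Set V)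
  (F : RF (Res G S)) (M M' : ℕ), Sparse G M' → (∀ v, F.dep v < M) → 4 * M ≤ M' → F.One

/-- **GEO** (the structure near an exceptional vertex close to a geodesic). Let `W = Exc G l R`,
`S = Near G W (2 R)`, `f` a function which changes by at most one along the edges of `Res G S`, and
`v 0, …, v N` a path in `Res G S` with `f (v i) = i`. So: an edge of `G` between `v x` and `v y` has
`|x - y| = 1`; a vertex `w ∈ S` outside the path has at most three neighbours on it.

Take a shortest path `κ 0 = v i, …, κ t = w ∈ W` (`t ≤ 2 R` least possible; all `κ s ∈ S`, only `κ t ∈ W`, and `w`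
is not adjacent to `κ s` for `s + 1 < t`; the `κ s` are different). Let `κ s₀ = v b₀` be the last vertex on the
path `v`; `|b₀ - i| ≤ s₀`.

(star) `deg w ≥ l + 4`: at most three neighbours of `w` are on the path `v`, at most one is on `κ`; take `l`
others, in increasing order. All of them are in `S`, with `f` within `2 R + 1` of `i`.

(monotone path `q 0 < … < q R` through `w`; all `q k ∈ W`, `f (q k)` within `3 R` of `i`.) Let
`I = {k ≤ R | q k` is on the path `v}`.
* `I = ∅`: `κ` meets `q` only in `w = q a`. Follow `κ` from `κ s₀` to `w`, then `q` upwards or downwards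
  for `l` steps (one of `R - a ≥ l`, `a ≥ l` holds).
* `I ≠ ∅`, `a = min I`, `b = max I`. If `a ≥ l`: from `q a` on the path go down along `q` (`t = 0`). If
  `R - b ≥ l`: go up from `q b`. Otherwise `b - a ≥ 3 l + 7`. Call `k ∈ I` a gap if `k + 1 ∉ I`, `k < b`. There is
  at most one gap: if `k₁ < k₂` are consecutive in `I` with `k₂ > k₁ + 1` and `k₃ < k₄` also, `k₂ ≤ k₃`, let
  `A = {v x | |x - i| ≤ 3 R} ∪ {q k | k₁ < k < k₂} ∪ {q k | k₃ < k < k₄}`; it is linked, `|A| ≤ 7 R + 2` and
  has at least `|A| + 1` edges (add the vertices one by one: each has a neighbour in the set before, and the last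
  one of each gap has two), against `Sparse`. (Lemmas `Linked.insert`, `eIn_insert` are in `Basic.lean`.)
  If `k₁ < k₂` is the only gap and `k₂ - k₁ ≥ l + 1`: go up from `q k₁` (`t = 0`, `q (k₁+1), …,
  q (k₁+l)` are outside the path). Otherwise `l + 1` consecutive `q k` are on the path `v`, at indices which
  change by one, so always in the same direction: a monotone run of `l` edges of `v`. -/
def S_GEO : Prop := ∀ (V : Type) [Fintype V] [LinearOrder V] (G : SimpleGraph V) (l R M' N : ℕ),
  1 ≤ l → R = 5 * (l + 1) → 7 * R + 2 ≤ M' → Sparse G M' →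
  ∀ (f : V → ℕ), (∀ a b, (Res G (Near G (Exc G l R) (2 * R))).Adj a b → f a ≤ f b + 1) →
  ∀ (v : ℕ → V), (∀ i ≤ N, f (v i) = i ∧ v i ∈ Near G (Exc G l R) (2 * R)) →
    (∀ i < N, G.Adj (v i) (v (i + 1))) →
  ∀ i, 3 * R ≤ i → i + 3 * R ≤ N →
    ∃ X : Finset V, Deco G l R v i X ∧
      ∀ x ∈ X, i ≤ f x + 3 * R ∧ f x ≤ i + 3 * R ∧ ∀ k ≤ N, v k ≠ x

/-- **STRA**, from `S_GEO`: take `f = dep`, `N = 10 R r`, `v i` the ancestor of depth `i` of a vertex of depth
`≥ N`; the sets `X j` at the indices `10 R j + 5 R` are disjoint by the values of `f`. -/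
def S_STRA : Prop := ∀ (V : Type) [Fintype V] [LinearOrder V] (G : SimpleGraph V) (l R r M' : ℕ),
  1 ≤ l → R = 5 * (l + 1) → 7 * R + 2 ≤ M' → Sparse G M' →
  ∀ (F : RF (Res G (Near G (Exc G l R) (2 * R)))) (x : V), 10 * R * r ≤ F.dep x → Str G l R r

/-- **DET**, from the above. -/
def S_DET : Prop := ∀ (V : Type) [Fintype V] [LinearOrder V] (G : SimpleGraph V) (l R r M' : ℕ),
  1 ≤ l → R = 5 * (l + 1) → 7 * R + 2 ≤ M' → 4 * (10 * R * r) ≤ M' → Sparse G M' → ¬ Str G l R r →
  DimLE (Le G) (2 * (((l + 4) ^ R) ^ 2 + 1) + 16)

/-- **P1**. If `gr E` is not `Sparse`, there is a linked set `S`, `1 ≤ |S| = s ≤ M`, with at least `s + 1` edges.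
Encode a spanning tree by a depth first walk: a root `ρ` and a list of `2 (s - 1)` symbols in
`Option (Fin n)`: `some v` = add the edge from the top of the stack to `v` and push `v`, `none` = pop. The
list of a tree with one more vertex `v` at `u` is obtained by inserting `some v, none` after `some u` (or at
the beginning if `u = ρ`). So for every linked `S` there are `ρ` and a list `L` of length `2 (s - 1)` with
`s - 1` pushes, the vertices visited are those of `S`, and the edge set `F` has `s - 1` elements, `F ⊆ E`
(induction: a maximal `T ⊆ S` with such a list is `S`, as there is an edge out of `T`). Two more edges `e₁ ≠ e₂` of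
`E` are inside `S`. Union bound: `Pr ≤ Σ_{s ≤ M} Σ_ρ Σ_L (s ^ 2) ^ 2 p ^ (#pushes + 2)`, and
`Σ_L p ^ #pushes = (1 + n p) ^ length`. -/
def S_P1 : Prop := ∀ (n M : ℕ) (p : ℝ), 0 ≤ p → p ≤ 1 →
  Pr n p (fun E => ¬ Sparse (gr E) M) ≤ n * p ^ 2 * (M : ℝ) ^ 5 * (1 + n * p) ^ (2 * M)

/-- **P2**. Union bound. A block: its `10 R` path vertices `v (10 R j + 1), …, v (10 R j + 10 R)`, the position
`b - 10 R j - 1 < 10 R` of the decoration in the block (`b` is in the window `[10 R j + 2 R, 10 R j + 8 R]`, and
`b + l` too in the first case), and its kind: a monotone run (up or down: `20 R` kinds, `m = 10 R` vertices), or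
`t ≤ 2 R`, `star`, up or down (`10 R (2 R + 1) 4` kinds, `m = 10 R + t + l` vertices). In every kind some `l`
of the `m` vertices are strictly monotone; the number of such functions `Fin m → Fin n` is at most
`n ^ m / l!`. Each vertex of the structure except `v 0` brings one edge to its parent; as all the vertices
are different, these edges are different. So
`Pr ≤ Σ_{v 0} Π_j Σ_{block} p ^ m ≤ n (60 R (2 R + 1) (1 + n p) ^ (12 R + l) / l!) ^ r`. -/
def S_P2 : Prop := ∀ (n l R r : ℕ) (p : ℝ), 0 ≤ p → p ≤ 1 → 1 ≤ l → R = 5 * (l + 1) →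
  Pr n p (fun E => Str (gr E) l R r) ≤
    n * (60 * R * (2 * R + 1) * (1 + n * p) ^ (12 * R + l) / (l.factorial : ℝ)) ^ r

/-- **AN**. Let `A = 1 + c`. Choose `l` with
`60 R (2 R + 1) A ^ (12 R + l) * A ^ (320 R) ≤ l!`, `R = 5 (l + 1)` (factorials grow faster than
exponentials), `κ = 1 / (160 R log A)`, `r n = ⌊κ log n⌋ + 1`, `M n = 40 R r n + 7 R + 2`. Then
`A ^ (2 M n) ≤ const n ^ (1/2)` and `(A ^ (-320 R)) ^ (r n) ≤ n ^ (-2)`. -/
def S_AN : Prop := ∀ c : ℝ, 0 < c → ∃ (l : ℕ) (r M : ℕ → ℕ), 1 ≤ l ∧
  (∀ n, 4 * (10 * (5 * (l + 1)) * r n) ≤ M n ∧ 7 * (5 * (l + 1)) + 2 ≤ M n) ∧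
  Filter.Tendsto (fun n : ℕ => (n : ℝ) * (c / n) ^ 2 * (M n : ℝ) ^ 5 * (1 + c) ^ (2 * M n) +
    n * (60 * ((5 * (l + 1) : ℕ) : ℝ) * (2 * ((5 * (l + 1) : ℕ) : ℝ) + 1) *
      (1 + c) ^ (12 * (5 * (l + 1)) + l) / (l.factorial : ℝ)) ^ (r n)) Filter.atTop (nhds 0)

end K9h63.RGO
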